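import Pool.Agent.Q282.CL.Chr

/-!
# Exponential moments by Taylor polynomials
-/

set_option autoImplicit false
set_option linter.unusedSectionVars false

namespace Q69.LJ

open Finset
open Q282.CL

/-- the exponential function and its Taylor polynomial -/
lemma exp_taylor {x R : ℝ} (hx : |x| ≤ R) {n : ℕ} (hn : Real.exp 2 * R ≤ n) :
    |Real.exp x - ∑ k ∈ range n, x ^ k / (k.factorial : ℝ)| ≤ 2 * Real.exp (-n) := by
  have hR : 0 ≤ R := (abs_nonneg x).trans hx
  have he : (2 : ℝ) ≤ Real.exp 2 := by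
    have := Real.add_one_le_exp (2 : ℝ)
    linarith
  have h0 : ‖(x : ℂ)‖ / (n.succ : ℝ) ≤ 1 / 2 := by
    rw [Complex.norm_real, Real.norm_eq_abs, div_le_iff₀ (by positivity)]
    push_cast
    have : 2 * R ≤ Real.exp 2 * R := mul_le_mul_of_nonneg_right he hR
    linarith
  have h1 := Complex.exp_bound' h0
  have e1 : Complex.exp (x : ℂ) - ∑ k ∈ range n, (x : ℂ) ^ k / (k.factorial : ℂ) =
      ((Real.exp x - ∑ k ∈ range n, x ^ k / (k.factorial : ℝ) : ℝ) : ℂ) := by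
    push_cast
    rfl
  rw [e1, Complex.norm_real, Complex.norm_real, Real.norm_eq_abs, Real.norm_eq_abs] at h1
  refine h1.trans ?_
  have h2 : |x| ^ n / (n.factorial : ℝ) ≤ Real.exp (-n) := by
    have hf : (0 : ℝ) < n.factorial := by exact_mod_cast Nat.factorial_pos n
    have h3 := Real.pow_div_factorial_le_exp (Real.exp 2 * R) (by positivity) n
    have h4 : |x| ^ n / (n.factorial : ℝ) ≤ R ^ n / n.factorial := div_le_div_of_nonneg_right (pow_le_pow_left₀ (abs_nonneg _) hx n) hf.le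
    have h5 : R ^ n / (n.factorial : ℝ) = Real.exp (-(2 * n)) * ((Real.exp 2 * R) ^ n / n.factorial) := by
      rw [mul_pow, ← Real.exp_nat_mul, ← mul_div_assoc, ← mul_assoc, ← Real.exp_add]
      have : -(2 * (n : ℝ)) + n * 2 = 0 := by ring
      rw [this, Real.exp_zero, one_mul]
    rw [h5] at h4
    refine h4.trans ?_
    have h6 : Real.exp (-(2 * n)) * ((Real.exp 2 * R) ^ n / n.factorial) ≤ Real.exp (-(2 * n)) * Real.exp n :=
      mul_le_mul_of_nonneg_left (h3.trans (Real.exp_le_exp.2 hn)) (Real.exp_pos _).le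
    refine h6.trans (le_of_eq ?_)
    rw [← Real.exp_add]
    congr 1
    ring
  linarith

variable {α : Type} [Fintype α] [Nonempty α] {ι : Type} [Fintype ι] [DecidableEq ι] {Ω : ι → Type} [∀ i, Fintype (Ω i)]
  [∀ i, Nonempty (Ω i)]

lemma sum_fact_le {x : ℝ} (hx : 0 ≤ x) (n : ℕ) : ∑ k ∈ range n, x ^ k / (k.factorial : ℝ) ≤ (1 + x) ^ n := by
  have h1 : (1 + x) ^ n = ∑ k ∈ range (n + 1), x ^ k * (n.choose k : ℝ) := by
    rw [add_comm, add_pow]
    exact sum_congr rfl fun k _ => by rw [one_pow, mul_one]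
  rw [h1, sum_range_succ]
  have h2 : ∑ k ∈ range n, x ^ k / (k.factorial : ℝ) ≤ ∑ k ∈ range n, x ^ k * (n.choose k : ℝ) := by
    refine sum_le_sum fun k hk => ?_
    rw [mem_range] at hk
    have h3 : (1 : ℝ) ≤ k.factorial := by exact_mod_cast Nat.factorial_pos k
    have h4 : (1 : ℝ) ≤ n.choose k := by exact_mod_cast Nat.choose_pos hk.le
    calc x ^ k / (k.factorial : ℝ) ≤ x ^ k := div_le_self (by positivity) h3
      _ = x ^ k * 1 := (mul_one _).symm
      _ ≤ _ := mul_le_mul_of_nonneg_left h4 (by positivity)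
  have h3 : 0 ≤ x ^ n * (n.choose n : ℝ) := by positivity
  linarith

/-- comparison of the exponential moments -/
theorem exp_transfer (z : ι → α → ℝ) (Z : ∀ i, Ω i → ℝ) {η c R l : ℝ} {n : ℕ} (hη : 0 ≤ η) (hc : (Fintype.card ι : ℝ) ≤ c)
    (hn : Real.exp 2 * R ≤ n)
    (h : ∀ m ≤ n, ∀ τ : Fin m → ι, |av (fun a => ∏ j, z (τ j) a) - av (fun ω : ∀ i, Ω i => ∏ j, Z (τ j) (ω (τ j)))| ≤ η)
    (h1 : ∀ a, |l * ∑ i, z i a| ≤ R) (h2 : ∀ ω : ∀ i, Ω i, |l * ∑ i, Z i (ω i)| ≤ R) :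
    |av (fun a => Real.exp (l * ∑ i, z i a)) - av (fun ω : ∀ i, Ω i => Real.exp (l * ∑ i, Z i (ω i)))| ≤
      4 * Real.exp (-n) + (1 + |l| * c) ^ n * η := by
  have hc0 : 0 ≤ c := (Nat.cast_nonneg _).trans hc
  have key : ∀ {κ : Type} [Fintype κ] [Nonempty κ] (y : κ → ℝ), (∀ a, |l * y a| ≤ R) →
      |av (fun a => Real.exp (l * y a)) - ∑ k ∈ range n, l ^ k / (k.factorial : ℝ) * av (fun a => y a ^ k)| ≤ 2 * Real.exp (-n) := by
    intro κ _ _ y hy
    have e1 : ∑ k ∈ range n, l ^ k / (k.factorial : ℝ) * av (fun a => y a ^ k) =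
        av (fun a => ∑ k ∈ range n, (l * y a) ^ k / (k.factorial : ℝ)) := by
      rw [av_sum]
      refine sum_congr rfl fun k _ => ?_
      rw [← av_mul]
      congr 1
      funext a
      rw [mul_pow]
      ring
    rw [e1, ← av_sub]
    refine (abs_av_le _).trans ?_
    refine (av_mono (g := fun _ => 2 * Real.exp (-n)) fun a => exp_taylor (hy a) hn).trans (le_of_eq (av_const _))
  have k1 := key (fun a => ∑ i, z i a) h1
  have k2 := key (fun ω : ∀ i, Ω i => ∑ i, Z i (ω i)) h2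
  have k3 : |∑ k ∈ range n, l ^ k / (k.factorial : ℝ) * av (fun a => (∑ i, z i a) ^ k) -
      ∑ k ∈ range n, l ^ k / (k.factorial : ℝ) * av (fun ω : ∀ i, Ω i => (∑ i, Z i (ω i)) ^ k)| ≤ (1 + |l| * c) ^ n * η := by
    rw [← sum_sub_distrib]
    refine (abs_sum_le_sum_abs _ _).trans ?_
    have h3 : ∀ k ∈ range n, |l ^ k / (k.factorial : ℝ) * av (fun a => (∑ i, z i a) ^ k) -
        l ^ k / (k.factorial : ℝ) * av (fun ω : ∀ i, Ω i => (∑ i, Z i (ω i)) ^ k)| ≤ (|l| * c) ^ k / (k.factorial : ℝ) * η := by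
      intro k hk
      rw [mem_range] at hk
      rw [← mul_sub, abs_mul, abs_div, abs_pow, Nat.abs_cast, mul_pow]
      have h4 : |av (fun a => (∑ i, z i a) ^ k) - av (fun ω : ∀ i, Ω i => (∑ i, Z i (ω i)) ^ k)| ≤ c ^ k * η :=
        (mom_transfer z Z (h k hk.le)).trans (mul_le_mul_of_nonneg_right (pow_le_pow_left₀ (Nat.cast_nonneg _) hc k) hη)
      calc |l| ^ k / (k.factorial : ℝ) * |av (fun a => (∑ i, z i a) ^ k) - av (fun ω : ∀ i, Ω i => (∑ i, Z i (ω i)) ^ k)| ≤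
          |l| ^ k / (k.factorial : ℝ) * (c ^ k * η) := mul_le_mul_of_nonneg_left h4 (by positivity)
        _ = _ := by ring
    refine (sum_le_sum h3).trans ?_
    rw [← sum_mul]
    exact mul_le_mul_of_nonneg_right (sum_fact_le (by positivity) n) hη
  rw [abs_le] at k1 k2 k3 ⊢
  constructor <;> linarith [k1.1, k1.2, k2.1, k2.2, k3.1, k3.2]

end Q69.LJ
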