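import Mathlib

/-!
# Uniformity of large deviations, and windows
-/

set_option autoImplicit false

namespace Q69.LJ

open Finset

/-- from single levels to all levels of a bounded interval -/
theorem unif {A : Type} (ok : ℕ → A → Prop) (lo hi : ℕ → A → ℝ → ℝ) (P : A → ℝ) (V : ℕ → ℝ) (hV : ∀ X : ℕ, 16 ≤ X → 0 ≤ V X)
    (hP : ∀ X a, ok X a → 0 ≤ P a) (hlo : ∀ X a, 16 ≤ X → ok X a → ∀ y z : ℝ, y ≤ z → lo X a z ≤ lo X a y)
    (hhi : ∀ X a, 16 ≤ X → ok X a → ∀ y z : ℝ, y ≤ z → hi X a z ≤ hi X a y)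
    (h : ∀ y ε : ℝ, 0 ≤ y → 0 < ε → ∃ X₁ : ℕ, ∀ X : ℕ, X₁ ≤ X → ∀ a, ok X a →
      Real.exp (-((y ^ 2 / 2 + ε) * V X)) * P a ≤ lo X a y ∧ hi X a y ≤ Real.exp (-((y ^ 2 / 2 - ε) * V X)) * P a)
    (Y ε : ℝ) (hY : 0 ≤ Y) (hε : 0 < ε) :
    ∃ X₁ : ℕ, 16 ≤ X₁ ∧ ∀ X : ℕ, X₁ ≤ X → ∀ a, ok X a → ∀ y : ℝ, 0 ≤ y → y ≤ Y →
      Real.exp (-((y ^ 2 / 2 + ε) * V X)) * P a ≤ lo X a y ∧ hi X a y ≤ Real.exp (-((y ^ 2 / 2 - ε) * V X)) * P a := by
  obtain ⟨η, hη⟩ : ∃ η : ℝ, η = min 1 (ε / (2 * (Y + 1))) := ⟨_, rfl⟩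
  have hη0 : 0 < η := by
    rw [hη]
    exact lt_min one_pos (by positivity)
  have hη1 : η ≤ 1 := by rw [hη]; exact min_le_left _ _
  have hηε : η * (Y + 1) ≤ ε / 2 := by
    have h1 : η ≤ ε / (2 * (Y + 1)) := by rw [hη]; exact min_le_right _ _
    rw [le_div_iff₀ (by positivity)] at h1
    linarith
  choose F hF using fun j : ℕ => h (j * η) (ε / 2) (by positivity) (by positivity)
  obtain ⟨J, hJ⟩ := exists_nat_gt (Y / η)
  refine ⟨max 16 ((range (J + 2)).sup F), le_max_left _ _, ?_⟩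
  intro X hX a ha y hy0 hyY
  have hX16 : 16 ≤ X := (le_max_left _ _).trans hX
  have hXJ : ∀ j, j < J + 2 → F j ≤ X := fun j hj => (le_sup (f := F) (mem_range.2 hj)).trans ((le_max_right _ _).trans hX)
  obtain ⟨j, hj⟩ : ∃ j : ℕ, j = ⌊y / η⌋₊ := ⟨_, rfl⟩
  have hj1 : (j : ℝ) * η ≤ y := by
    have h1 : (j : ℝ) ≤ y / η := by
      rw [hj]
      exact Nat.floor_le (by positivity)
    rwa [le_div_iff₀ hη0] at h1
  have hj2 : y < (j + 1) * η := by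
    have h1 : y / η < j + 1 := by
      rw [hj]
      exact Nat.lt_floor_add_one _
    rwa [div_lt_iff₀ hη0] at h1
  have hjJ : j ≤ J := by
    have h1 : (j : ℝ) ≤ J := by
      have h2 : (j : ℝ) ≤ y / η := by rwa [le_div_iff₀ hη0]
      have h3 : y / η ≤ Y / η := div_le_div_of_nonneg_right hyY hη0.le
      linarith
    exact_mod_cast h1
  have hV0 := hV X hX16
  have hP0 := hP X a ha
  constructor
  · have h1 := (hF (j + 1) X (hXJ _ (by omega)) a ha).1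
    push_cast at h1
    refine le_trans ?_ (h1.trans (hlo X a hX16 ha _ _ hj2.le))
    refine mul_le_mul_of_nonneg_right (Real.exp_le_exp.2 (neg_le_neg (mul_le_mul_of_nonneg_right ?_ hV0))) hP0
    have h2 : ((j : ℝ) + 1) * η ≤ y + η := by linarith
    have h3 : (((j : ℝ) + 1) * η) ^ 2 ≤ (y + η) ^ 2 := pow_le_pow_left₀ (by positivity) h2 2
    have h4 : y * η ≤ Y * η := mul_le_mul_of_nonneg_right hyY hη0.le
    have h5 : η * η ≤ 1 * η := mul_le_mul_of_nonneg_right hη1 hη0.le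
    have h6 : (y + η) ^ 2 = y ^ 2 + 2 * (y * η) + η * η := by ring
    have h7 : η * (Y + 1) = Y * η + η := by ring
    linarith
  · have h1 := (hF j X (hXJ _ (by omega)) a ha).2
    refine (hhi X a hX16 ha _ _ hj1).trans (h1.trans ?_)
    refine mul_le_mul_of_nonneg_right (Real.exp_le_exp.2 (neg_le_neg (mul_le_mul_of_nonneg_right ?_ hV0))) hP0
    have h2 : y ≤ (j : ℝ) * η + η := by linarith
    have h3 : y ^ 2 ≤ ((j : ℝ) * η + η) ^ 2 := pow_le_pow_left₀ hy0 h2 2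
    have h4 : (j : ℝ) * η * η ≤ Y * η := mul_le_mul_of_nonneg_right (hj1.trans hyY) hη0.le
    have h5 : η * η ≤ 1 * η := mul_le_mul_of_nonneg_right hη1 hη0.le
    have h6 : ((j : ℝ) * η + η) ^ 2 = ((j : ℝ) * η) ^ 2 + 2 * ((j : ℝ) * η * η) + η * η := by ring
    have h7 : η * (Y + 1) = Y * η + η := by ring
    linarith

/-- the exponent of a window -/
lemma window {y η ε V P A B : ℝ} (hη0 : 0 < η) (hy : 0 ≤ y) (hP : 0 ≤ P) (hε : ε ≤ η ^ 2 / 8) (hε0 : 0 < ε) (hV : 4 / ε ≤ V)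
    (h1 : Real.exp (-((y ^ 2 / 2 + ε) * V)) * P ≤ A) (h2 : B ≤ Real.exp (-(((y + η) ^ 2 / 2 - ε) * V)) * P) :
    Real.exp (-((y ^ 2 / 2 + 2 * ε) * V)) * P ≤ A - B := by
  have hV0 : 0 < V := lt_of_lt_of_le (by positivity) hV
  rw [div_le_iff₀ hε0] at hV
  have e1 : Real.exp (-(((y + η) ^ 2 / 2 - ε) * V)) ≤ Real.exp (-((y ^ 2 / 2 + 2 * ε) * V)) := by
    refine Real.exp_le_exp.2 (neg_le_neg (mul_le_mul_of_nonneg_right ?_ hV0.le))
    have : 0 ≤ y * η := by positivity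
    have e : (y + η) ^ 2 = y ^ 2 + 2 * (y * η) + η ^ 2 := by ring
    linarith
  have e2 : 2 * Real.exp (-((y ^ 2 / 2 + 2 * ε) * V)) ≤ Real.exp (-((y ^ 2 / 2 + ε) * V)) := by
    have e3 : Real.exp (-((y ^ 2 / 2 + ε) * V)) = Real.exp (ε * V) * Real.exp (-((y ^ 2 / 2 + 2 * ε) * V)) := by
      rw [← Real.exp_add]
      congr 1
      ring
    rw [e3]
    refine mul_le_mul_of_nonneg_right ?_ (Real.exp_pos _).le
    have := Real.add_one_le_exp (ε * V)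
    linarith
  have e3 := mul_le_mul_of_nonneg_right e1 hP
  have e4 := mul_le_mul_of_nonneg_right e2 hP
  linarith

open Classical in
/-- the members in a window -/
lemma card_window {α : Type} (S : Finset α) (Ok : α → Prop) (Z : α → ℝ) (u w : ℝ) :
    ((S.filter fun n => Ok n ∧ u ≤ Z n).card : ℝ) - ((S.filter fun n => w ≤ Z n).card : ℝ) ≤
      ((S.filter fun n => Ok n ∧ u ≤ Z n ∧ Z n ≤ w).card : ℝ) := by
  have h1 : (S.filter fun n => Ok n ∧ u ≤ Z n) ⊆ (S.filter fun n => Ok n ∧ u ≤ Z n ∧ Z n ≤ w) ∪ (S.filter fun n => w ≤ Z n) := by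
    intro n hn
    rw [mem_filter] at hn
    rw [mem_union, mem_filter, mem_filter]
    rcases le_total (Z n) w with h | h
    · exact Or.inl ⟨hn.1, hn.2.1, hn.2.2, h⟩
    · exact Or.inr ⟨hn.1, h⟩
  have h2 := (Nat.cast_le (α := ℝ)).2 ((card_le_card h1).trans (card_union_le _ _))
  push_cast at h2
  linarith

open Classical in
/-- the number of the members with a given exponent -/
theorem windows {A α : Type} (ok : ℕ → A → Prop) (S : A → Finset α) (Ok : A → α → Prop) (Z : ℕ → A → α → ℝ) (P : A → ℝ) (V : ℕ → ℝ) (κ : ℝ)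
    (hV : ∀ c : ℝ, ∃ X₁ : ℕ, ∀ X : ℕ, X₁ ≤ X → c ≤ V X) (hP : ∀ X a, ok X a → 0 ≤ P a)
    (h : ∀ Y ε : ℝ, 0 ≤ Y → 0 < ε → ∃ X₁ : ℕ, ∀ X : ℕ, X₁ ≤ X → ∀ a, ok X a → ∀ y : ℝ, 0 ≤ y → y ≤ Y → ∀ σ : ℝ, (σ = 1 ∨ σ = -1) →
      Real.exp (-((y ^ 2 / 2 + ε) * V X)) * P a ≤ (((S a).filter fun n => Ok a n ∧ (σ * κ + y) * V X ≤ σ * Z X a n).card : ℝ) ∧
      (((S a).filter fun n => (σ * κ + y) * V X ≤ σ * Z X a n).card : ℝ) ≤ Real.exp (-((y ^ 2 / 2 - ε) * V X)) * P a)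
    (Y η ε : ℝ) (hY : 0 ≤ Y) (hη : 0 < η) (hε : 0 < ε) :
    ∃ X₁ : ℕ, ∀ X : ℕ, X₁ ≤ X → ∀ a, ok X a → ∀ ρ : ℝ, |ρ - κ| ≤ Y →
      Real.exp (-(((ρ - κ) ^ 2 / 2 + ε) * V X)) * P a ≤
        (((S a).filter fun n => Ok a n ∧ (ρ - η) * V X ≤ Z X a n ∧ Z X a n ≤ (ρ + η) * V X).card : ℝ) := by
  obtain ⟨ε', hε'⟩ : ∃ ε' : ℝ, ε' = min (ε / 2) (η ^ 2 / 8) := ⟨_, rfl⟩
  have hε'0 : 0 < ε' := by
    rw [hε']
    exact lt_min (by positivity) (by positivity)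
  have hε'1 : 2 * ε' ≤ ε := by
    have : ε' ≤ ε / 2 := by rw [hε']; exact min_le_left _ _
    linarith
  have hε'2 : ε' ≤ η ^ 2 / 8 := by rw [hε']; exact min_le_right _ _
  obtain ⟨X₁, h1⟩ := h (Y + η) ε' (by positivity) hε'0
  obtain ⟨X₂, h2⟩ := hV (max 0 (4 / ε'))
  refine ⟨max X₁ X₂, ?_⟩
  intro X hX a ha ρ hρ
  have hV1 := h2 X ((le_max_right _ _).trans hX)
  rw [max_le_iff] at hV1
  have hP0 := hP X a ha
  have hmain : ∀ σ y : ℝ, (σ = 1 ∨ σ = -1) → 0 ≤ y → y ≤ Y → ρ = κ + σ * y →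
      Real.exp (-(((ρ - κ) ^ 2 / 2 + ε) * V X)) * P a ≤
        (((S a).filter fun n => Ok a n ∧ (ρ - η) * V X ≤ Z X a n ∧ Z X a n ≤ (ρ + η) * V X).card : ℝ) := by
    intro σ y hσ hy0 hyY hρy
    have hσ2 : σ * σ = 1 := by
      rcases hσ with rfl | rfl <;> norm_num
    have h3 := (h1 X ((le_max_left _ _).trans hX) a ha y hy0 (by linarith) σ hσ).1
    have h4 := (h1 X ((le_max_left _ _).trans hX) a ha (y + η) (by positivity) (by linarith) σ hσ).2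
    have h5 := window hη hy0 hP0 hε'2 hε'0 hV1.2 h3 h4
    have h6 := card_window (S a) (Ok a) (fun n => σ * Z X a n) ((σ * κ + y) * V X) ((σ * κ + (y + η)) * V X)
    have h7 : ((S a).filter fun n => Ok a n ∧ (σ * κ + y) * V X ≤ σ * Z X a n ∧ σ * Z X a n ≤ (σ * κ + (y + η)) * V X) ⊆
        (S a).filter fun n => Ok a n ∧ (ρ - η) * V X ≤ Z X a n ∧ Z X a n ≤ (ρ + η) * V X := by
      intro n hn
      rw [mem_filter] at hn ⊢
      obtain ⟨g1, g2, g3, g4⟩ := hn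
      have hηV : 0 ≤ η * V X := mul_nonneg hη.le hV1.1
      refine ⟨g1, g2, ?_⟩
      rcases hσ with rfl | rfl
      · rw [hρy]
        constructor <;> nlinarith
      · rw [hρy]
        constructor <;> nlinarith
    have h8 := (Nat.cast_le (α := ℝ)).2 (card_le_card h7)
    have h9 : Real.exp (-(((ρ - κ) ^ 2 / 2 + ε) * V X)) * P a ≤ Real.exp (-((y ^ 2 / 2 + 2 * ε') * V X)) * P a := by
      refine mul_le_mul_of_nonneg_right (Real.exp_le_exp.2 (neg_le_neg (mul_le_mul_of_nonneg_right ?_ hV1.1))) hP0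
      have e : (ρ - κ) ^ 2 = (σ * σ) * y ^ 2 := by
        rw [hρy]
        ring
      rw [e, hσ2, one_mul]
      linarith
    exact h9.trans (h5.trans (h6.trans h8))
  rcases le_total κ ρ with hle | hle
  · refine hmain 1 (ρ - κ) (Or.inl rfl) (by linarith) ((le_abs_self _).trans hρ) (by ring)
  · refine hmain (-1) (κ - ρ) (Or.inr rfl) (by linarith) ?_ (by ring)
    rw [abs_sub_comm] at hρ
    exact (le_abs_self _).trans hρ

end Q69.LJ
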