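import Pool.Agent.Q69.LJ.Ldp
import Pool.Agent.Q69.LJ.Unif

/-!
# Large deviations of sums of local values, with exceptions, uniformly, and windows
-/

set_option autoImplicit false
set_option linter.unusedSectionVars false

namespace Q69.LJ

open Finset NumberField IsDedekindDomain Filter
open Q282.GK Q282.MN
open Q282.BP (loglog_tendsto)

lemma x_pow {X : ℕ} (hX : 0 < Real.log X) :
    (X : ℝ) ^ ((Real.log (Real.log X)) ^ 3) = Real.exp (Real.log (Real.log X) ^ 3 * Real.exp (Real.log (Real.log X))) := by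
  have hX0 : (0 : ℝ) < X := by
    by_contra h
    have h1 : (X : ℝ) = 0 := le_antisymm (not_lt.1 h) (Nat.cast_nonneg _)
    rw [h1, Real.log_zero] at hX
    exact lt_irrefl _ hX
  rw [Real.exp_log hX, Real.rpow_def_of_pos hX0, mul_comm]

/-- the rank condition in the lower bound -/
lemma with_exc {W ε V P E₁ E₂ : ℝ} {C : ℝ} (hC : 0 ≤ C) (hε : 0 < ε) (hP : 0 ≤ P) (hV : 2 * C / ε ≤ V)
    (h1 : Real.exp (-((W + ε / 2) * V)) * P ≤ E₁) (h2 : E₂ ≤ C * (Real.exp (-((W + ε) * V)) * P)) :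
    Real.exp (-((W + ε) * V)) * P ≤ E₁ - E₂ := by
  rw [div_le_iff₀ hε] at hV
  have h3 : (1 + C) * Real.exp (-((W + ε) * V)) ≤ Real.exp (-((W + ε / 2) * V)) := by
    have h4 : 1 + C ≤ Real.exp (ε / 2 * V) := by
      have := Real.add_one_le_exp (ε / 2 * V)
      linarith
    have h5 : Real.exp (-((W + ε / 2) * V)) = Real.exp (ε / 2 * V) * Real.exp (-((W + ε) * V)) := by
      rw [← Real.exp_add]
      congr 1
      ring
    rw [h5]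
    exact mul_le_mul_of_nonneg_right h4 (Real.exp_pos _).le
  have h4 := mul_le_mul_of_nonneg_right h3 hP
  linarith

lemma loglog_large (c : ℝ) : ∃ X₁ : ℕ, ∀ X : ℕ, X₁ ≤ X → c ≤ Real.log (Real.log X) :=
  eventually_atTop.1 (loglog_tendsto.eventually_ge_atTop c)

lemma one_lt_log (X : ℕ) (hX : 16 ≤ X) : 1 < Real.log X := by
  have hX0 : (16 : ℝ) ≤ X := by exact_mod_cast hX
  rw [Real.lt_log_iff_exp_lt (by linarith)]
  linarith [Real.exp_one_lt_three]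

lemma loglog_nonneg (X : ℕ) (hX : 16 ≤ X) : 0 ≤ Real.log (Real.log X) := Real.log_nonneg (one_lt_log X hX).le

open Classical in
/-- a condition with exponentially few exceptions -/
def Few (K : Type) [Field K] [NumberField K] (ι : Type) [Fintype ι] [DecidableEq ι] (Ok : (ι → 𝓞 K) → Prop) : Prop :=
  ∀ A : ℝ, 0 ≤ A → ∃ C : ℝ, 0 ≤ C ∧ ∃ V₀ : ℝ, ∀ V : ℝ, V₀ ≤ V →
    ∀ (b : Fin (Module.finrank ℚ K) → 𝓞 K), (∀ x : 𝓞 K, ∃ a : Fin (Module.finrank ℚ K) → ℤ, x = ∑ j, (a j : 𝓞 K) * b j) →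
    ∀ (N : ι × Fin (Module.finrank ℚ K) → ℤ) (L : ι × Fin (Module.finrank ℚ K) → ℕ) (T : ℝ),
    Real.exp (V ^ 3 * Real.exp V) ≤ T → (∀ k, T ≤ L k) →
    (((kbox N L).filter fun n => ¬ Ok (comb b n)).card : ℝ) ≤ C * (Real.exp (-(A * V)) * (∏ k, (L k : ℝ)))

open Classical in
/-- large deviations with exceptions -/
theorem ldp_exc (K : Type) [Field K] [NumberField K] (ι : Type) [Fintype ι] [DecidableEq ι] (P₀ : ℕ) (κ B : ℝ) (hB : 0 ≤ B)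
    (val : HeightOneSpectrum (𝓞 K) → (ι → 𝓞 K) → ℝ) (hloc : Loc2 K ι P₀ κ B val) (Ok : (ι → 𝓞 K) → Prop) (hex : Few K ι Ok)
    (y ε : ℝ) (hy : 0 ≤ y) (hε : 0 < ε) :
    ∃ X₁ : ℕ, 16 ≤ X₁ ∧ ∀ X : ℕ, X₁ ≤ X → ∀ T : ℝ, (X : ℝ) ^ ((Real.log (Real.log X)) ^ 3) ≤ T →
    ∀ (b : Fin (Module.finrank ℚ K) → 𝓞 K), (∀ x : 𝓞 K, ∃ a : Fin (Module.finrank ℚ K) → ℤ, x = ∑ j, (a j : 𝓞 K) * b j) →
    ∀ (N : ι × Fin (Module.finrank ℚ K) → ℤ) (L : ι × Fin (Module.finrank ℚ K) → ℕ),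
    (∀ k, T ≤ L k) → ∀ σ : ℝ, (σ = 1 ∨ σ = -1) →
      Real.exp (-((y ^ 2 / 2 + ε) * Real.log (Real.log X))) * ∏ k, (L k : ℝ) ≤
        (((kbox N L).filter fun n => Ok (comb b n) ∧
          (σ * κ + y) * Real.log (Real.log X) ≤ σ * ∑ v ∈ SX K X, val v (comb b n)).card : ℝ) ∧
      (((kbox N L).filter fun n =>
          (σ * κ + y) * Real.log (Real.log X) ≤ σ * ∑ v ∈ SX K X, val v (comb b n)).card : ℝ) ≤
        Real.exp (-((y ^ 2 / 2 - ε) * Real.log (Real.log X))) * ∏ k, (L k : ℝ) := by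
  obtain ⟨Xa, ha⟩ := ldp_loc2 K ι P₀ κ B hB y (ε / 2) hy (by positivity)
  obtain ⟨C, hC, V₀, hV₀⟩ := hex (y ^ 2 / 2 + ε) (by positivity)
  obtain ⟨Xc, hXc⟩ := loglog_large (max V₀ (2 * C / ε))
  refine ⟨max 16 (max Xa Xc), le_max_left _ _, ?_⟩
  intro X hX T hT b hb N L hL σ hσ
  rw [max_le_iff, max_le_iff] at hX
  obtain ⟨hX16, hXa, hXc'⟩ := hX
  obtain ⟨hV1, hV2⟩ := max_le_iff.1 (hXc X hXc')
  have hT' := hT
  rw [x_pow (by linarith [one_lt_log X hX16])] at hT'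
  have hP0 : 0 ≤ ∏ k, (L k : ℝ) := prod_nonneg fun k _ => Nat.cast_nonneg _
  have hV0 : 0 ≤ Real.log (Real.log X) := loglog_nonneg X hX16
  obtain ⟨h1, h2⟩ := ha X hXa T hT b hb N L hL val hloc σ hσ
    ((kbox N L).filter fun n => (σ * κ + y) * Real.log (Real.log X) ≤ σ * ∑ v ∈ SX K X, val v (comb b n))
    (fun n => by rw [mem_filter])
  have h3 := hV₀ (Real.log (Real.log X)) hV1 b hb N L T hT' hL
  constructor
  · have h4 := with_exc hC hε hP0 hV2 h1 h3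
    have h5 : ((kbox N L).filter fun n => (σ * κ + y) * Real.log (Real.log X) ≤ σ * ∑ v ∈ SX K X, val v (comb b n)) ⊆
        ((kbox N L).filter fun n => Ok (comb b n) ∧
          (σ * κ + y) * Real.log (Real.log X) ≤ σ * ∑ v ∈ SX K X, val v (comb b n)) ∪
        ((kbox N L).filter fun n => ¬ Ok (comb b n)) := by
      intro t ht
      rw [mem_filter] at ht
      rw [mem_union, mem_filter, mem_filter]
      by_cases h2 : Ok (comb b t)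
      · exact Or.inl ⟨ht.1, h2, ht.2⟩
      · exact Or.inr ⟨ht.1, h2⟩
    have h6 := (Nat.cast_le (α := ℝ)).2 ((card_le_card h5).trans (card_union_le _ _))
    push_cast at h6
    linarith
  · refine h2.trans (mul_le_mul_of_nonneg_right (Real.exp_le_exp.2 ?_) hP0)
    have : ε / 2 * Real.log (Real.log X) ≤ ε * Real.log (Real.log X) := mul_le_mul_of_nonneg_right (by linarith) hV0
    linarith

open Classical in
/-- large deviations with exceptions, uniform version, and windows -/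
theorem ldp_gen (K : Type) [Field K] [NumberField K] (ι : Type) [Fintype ι] [DecidableEq ι] (P₀ : ℕ) (κ B : ℝ) (hB : 0 ≤ B)
    (val : HeightOneSpectrum (𝓞 K) → (ι → 𝓞 K) → ℝ) (hloc : Loc2 K ι P₀ κ B val) (Ok : (ι → 𝓞 K) → Prop) (hex : Few K ι Ok)
    (Y η ε : ℝ) (hY : 0 ≤ Y) (hη : 0 < η) (hε : 0 < ε) :
    ∃ X₁ : ℕ, 16 ≤ X₁ ∧ ∀ X : ℕ, X₁ ≤ X → ∀ T : ℝ, (X : ℝ) ^ ((Real.log (Real.log X)) ^ 3) ≤ T →
    ∀ (b : Fin (Module.finrank ℚ K) → 𝓞 K), (∀ x : 𝓞 K, ∃ a : Fin (Module.finrank ℚ K) → ℤ, x = ∑ j, (a j : 𝓞 K) * b j) →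
    ∀ (N : ι × Fin (Module.finrank ℚ K) → ℤ) (L : ι × Fin (Module.finrank ℚ K) → ℕ), (∀ k, T ≤ L k) →
      (∀ y : ℝ, 0 ≤ y → y ≤ Y → ∀ σ : ℝ, (σ = 1 ∨ σ = -1) →
        Real.exp (-((y ^ 2 / 2 + ε) * Real.log (Real.log X))) * ∏ k, (L k : ℝ) ≤
          (((kbox N L).filter fun n => Ok (comb b n) ∧
            (σ * κ + y) * Real.log (Real.log X) ≤ σ * ∑ v ∈ SX K X, val v (comb b n)).card : ℝ) ∧
        (((kbox N L).filter fun n =>
            (σ * κ + y) * Real.log (Real.log X) ≤ σ * ∑ v ∈ SX K X, val v (comb b n)).card : ℝ) ≤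
          Real.exp (-((y ^ 2 / 2 - ε) * Real.log (Real.log X))) * ∏ k, (L k : ℝ)) ∧
      (∀ ρ : ℝ, |ρ - κ| ≤ Y →
        Real.exp (-(((ρ - κ) ^ 2 / 2 + ε) * Real.log (Real.log X))) * ∏ k, (L k : ℝ) ≤
          (((kbox N L).filter fun n => Ok (comb b n) ∧
            (ρ - η) * Real.log (Real.log X) ≤ ∑ v ∈ SX K X, val v (comb b n) ∧
            ∑ v ∈ SX K X, val v (comb b n) ≤ (ρ + η) * Real.log (Real.log X)).card : ℝ)) := by
  -- the instances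
  obtain ⟨ok, hok⟩ : ∃ ok : ℕ → (ℝ × (Fin (Module.finrank ℚ K) → 𝓞 K) × (ι × Fin (Module.finrank ℚ K) → ℤ) ×
      (ι × Fin (Module.finrank ℚ K) → ℕ)) → Prop, ∀ X a, ok X a ↔
      ((X : ℝ) ^ ((Real.log (Real.log X)) ^ 3) ≤ a.1 ∧ (∀ x : 𝓞 K, ∃ c : Fin (Module.finrank ℚ K) → ℤ, x = ∑ j, (c j : 𝓞 K) * a.2.1 j) ∧
      (∀ k, a.1 ≤ a.2.2.2 k)) := ⟨_, fun _ _ => Iff.rfl⟩
  obtain ⟨P, hP⟩ : ∃ P : (ℝ × (Fin (Module.finrank ℚ K) → 𝓞 K) × (ι × Fin (Module.finrank ℚ K) → ℤ) ×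
      (ι × Fin (Module.finrank ℚ K) → ℕ)) → ℝ, ∀ a, P a = ∏ k, (a.2.2.2 k : ℝ) := ⟨_, fun _ => rfl⟩
  have hP0 : ∀ (X : ℕ) a, ok X a → 0 ≤ P a := fun X a _ => by
    rw [hP]
    exact prod_nonneg fun k _ => Nat.cast_nonneg _
  have hU : ∀ Y ε : ℝ, 0 ≤ Y → 0 < ε → ∃ X₁ : ℕ, 16 ≤ X₁ ∧ ∀ X : ℕ, X₁ ≤ X → ∀ a, ok X a → ∀ y : ℝ, 0 ≤ y → y ≤ Y →
      ∀ σ : ℝ, (σ = 1 ∨ σ = -1) →
      Real.exp (-((y ^ 2 / 2 + ε) * Real.log (Real.log X))) * P a ≤ (((kbox a.2.2.1 a.2.2.2).filter fun n => Ok (comb a.2.1 n) ∧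
        (σ * κ + y) * Real.log (Real.log X) ≤ σ * ∑ v ∈ SX K X, val v (comb a.2.1 n)).card : ℝ) ∧
      (((kbox a.2.2.1 a.2.2.2).filter fun n =>
        (σ * κ + y) * Real.log (Real.log X) ≤ σ * ∑ v ∈ SX K X, val v (comb a.2.1 n)).card : ℝ) ≤
        Real.exp (-((y ^ 2 / 2 - ε) * Real.log (Real.log X))) * P a := by
    intro Y ε hY hε
    obtain ⟨X₁, hX₁, h⟩ := unif (A := ℝ × (ℝ × (Fin (Module.finrank ℚ K) → 𝓞 K) × (ι × Fin (Module.finrank ℚ K) → ℤ) ×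
        (ι × Fin (Module.finrank ℚ K) → ℕ)))
      (fun X a => ok X a.2 ∧ (a.1 = 1 ∨ a.1 = -1))
      (fun X a y => (((kbox a.2.2.2.1 a.2.2.2.2).filter fun n => Ok (comb a.2.2.1 n) ∧
        (a.1 * κ + y) * Real.log (Real.log X) ≤ a.1 * ∑ v ∈ SX K X, val v (comb a.2.2.1 n)).card : ℝ))
      (fun X a y => (((kbox a.2.2.2.1 a.2.2.2.2).filter fun n =>
        (a.1 * κ + y) * Real.log (Real.log X) ≤ a.1 * ∑ v ∈ SX K X, val v (comb a.2.2.1 n)).card : ℝ))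
      (fun a => P a.2) (fun X => Real.log (Real.log X)) loglog_nonneg (fun X a ha => hP0 X a.2 ha.1)
      (fun X a hX ha y z hyz => by
        have hV := loglog_nonneg X hX
        refine Nat.cast_le.2 (card_le_card fun n hn => ?_)
        rw [mem_filter] at hn ⊢
        exact ⟨hn.1, hn.2.1, (mul_le_mul_of_nonneg_right (by linarith) hV).trans hn.2.2⟩)
      (fun X a hX ha y z hyz => by
        have hV := loglog_nonneg X hX
        refine Nat.cast_le.2 (card_le_card fun n hn => ?_)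
        rw [mem_filter] at hn ⊢
        exact ⟨hn.1, (mul_le_mul_of_nonneg_right (by linarith) hV).trans hn.2⟩)
      (fun y ε hy hε => by
        obtain ⟨X₁, -, h1⟩ := ldp_exc K ι P₀ κ B hB val hloc Ok hex y ε hy hε
        refine ⟨X₁, fun X hX a ha => ?_⟩
        obtain ⟨ha1, ha2⟩ := ha
        rw [hok] at ha1
        rw [hP]
        exact h1 X hX a.2.1 ha1.1 a.2.2.1 ha1.2.1 a.2.2.2.1 a.2.2.2.2 ha1.2.2 a.1 ha2)
      Y ε hY hε
    exact ⟨X₁, hX₁, fun X hX a ha y hy hyY σ hσ => h X hX (σ, a) ⟨ha, hσ⟩ y hy hyY⟩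
  obtain ⟨X₁, hX₁, h1⟩ := hU Y ε hY hε
  obtain ⟨X₂, h2⟩ := windows ok (fun a => kbox a.2.2.1 a.2.2.2) (fun a n => Ok (comb a.2.1 n))
    (fun X a n => ∑ v ∈ SX K X, val v (comb a.2.1 n)) P (fun X => Real.log (Real.log X)) κ loglog_large hP0
    (fun Y ε hY hε => by
      obtain ⟨X₁, -, h⟩ := hU Y ε hY hε
      exact ⟨X₁, h⟩) Y η ε hY hη hε
  refine ⟨max X₁ X₂, hX₁.trans (le_max_left _ _), ?_⟩
  intro X hX T hT b hb N L hL
  have ha : ok X (T, b, N, L) := by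
    rw [hok]
    exact ⟨hT, hb, hL⟩
  have h3 := h1 X ((le_max_left _ _).trans hX) (T, b, N, L) ha
  have h4 := h2 X ((le_max_right _ _).trans hX) (T, b, N, L) ha
  rw [hP] at h3 h4
  exact ⟨h3, h4⟩

end Q69.LJ
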