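import Pool.Agent.Q69.LJ.Sv
import Pool.Agent.Q282.JK.RankK

/-!
# The rank of almost all Jacobians with marked points over a number field, with exponential saving
-/

set_option autoImplicit false

namespace Q69.LJ

open Finset NumberField IsDedekindDomain Polynomial Q282.GK Q282.JK
open Pool.Agent.H921R2.TatePole (below deg nm nm_eq)

open Classical in
/-- almost all members have the rank -/
theorem rank_Je (K : Type) [Field K] [NumberField K] (g r m : ℕ) (hrm : r + m = 2 * g + 1) (hrg : r ≤ g) (hg : 1 ≤ g)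
    (A : ℝ) (hA : 0 ≤ A) : ∃ V₀ : ℝ, ∀ V : ℝ, V₀ ≤ V →
    ∀ (b : Fin (Module.finrank ℚ K) → 𝓞 K), (∀ x : 𝓞 K, ∃ a : Fin (Module.finrank ℚ K) → ℤ, x = ∑ j, (a j : 𝓞 K) * b j) →
    ∀ (N : Idx r m × Fin (Module.finrank ℚ K) → ℤ) (L : Idx r m × Fin (Module.finrank ℚ K) → ℕ) (T : ℝ),
    Real.exp (V ^ 3 * Real.exp V) ≤ T → (∀ k, T ≤ L k) → ∀ E : Finset (Idx r m × Fin (Module.finrank ℚ K) → ℤ), E ⊆ kbox N L →
    (∀ n ∈ E, ¬ Ok K (comb b n)) → (E.card : ℝ) ≤ (2 ^ r + 1) * (Real.exp (-(A * V)) * (∏ k, (L k : ℝ))) := by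
  obtain ⟨ε, hε⟩ : ∃ ε : ℝ, ε = 1 / (2 * (2 * g + 1) * 16 ^ r) := ⟨_, rfl⟩
  have hε0 : 0 < ε := by rw [hε]; positivity
  have hε6 : ε ≤ 1 / 6 := by
    rw [hε]
    refine one_div_le_one_div_of_le (by norm_num) ?_
    have h1 : (1 : ℝ) ≤ g := by exact_mod_cast hg
    have h2 : (1 : ℝ) ≤ 16 ^ r := one_le_pow₀ (by norm_num)
    nlinarith
  obtain ⟨s, hs⟩ : ∃ s : ℕ, s = 4 * (2 * g + 1) ^ 2 + 16 * r + 3 := ⟨_, rfl⟩
  obtain ⟨σ, hσ⟩ : ∃ σ : ℝ, σ = 1 / (1 - ε) := ⟨_, rfl⟩
  have hσ1 : 1 < σ := by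
    rw [hσ, lt_div_iff₀ (by linarith)]
    linarith
  have hσi : 1 / σ = 1 - ε := by
    rw [hσ, one_div_one_div]
  obtain ⟨V₀, h⟩ := sieve_Ke K (Idx r m) s σ hσ1 A hA
  refine ⟨V₀, ?_⟩
  intro V hV b hb N L T hT hL E hE hEok
  have hT0 : 0 < T := (Real.exp_pos _).trans_le hT
  obtain ⟨W, hW⟩ : ∃ W : ℝ, W = Real.exp (-(A * V)) * (∏ k, (L k : ℝ)) := ⟨_, rfl⟩
  have hW0 : 0 ≤ W := by
    rw [hW]
    exact mul_nonneg (Real.exp_pos _).le (prod_nonneg fun k _ => Nat.cast_nonneg _)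
  -- facts about a large prime
  have hbig : ∀ v : HeightOneSpectrum (𝓞 K), s ≤ (below v : ℕ) → ∀ [Fintype (Res v)], ringChar (Res v) ≠ 2 ∧
      s ≤ Fintype.card (Res v) := by
    intro v hv _
    refine ⟨ring_two v (by omega), ?_⟩
    rw [res_card]
    refine hv.trans ?_
    rw [Q282.NF.norm_eq]
    exact Nat.le_self_pow (by have := (nm_eq v).2.1; omega) _
  -- the irreducible members
  obtain ⟨E₀, hE₀⟩ : ∃ E₀ : Finset (Idx r m × Fin (Module.finrank ℚ K) → ℤ), E₀ = E.filter fun n =>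
    ∀ v : HeightOneSpectrum (𝓞 K), s ≤ (below v : ℕ) → ¬ Irreducible (fpol (fun i => red v (comb b n i))) := ⟨_, rfl⟩
  have hE₀c : (E₀.card : ℝ) ≤ W := by
    rw [hW]
    refine h V hV (fun v t => ¬ Irreducible (fpol (fun i => red v (t i)))) ?_ b hb N L T hT hL E₀ ?_ ?_
    · intro v hv
      let _ : Fintype (Res v) := Fintype.ofFinite _
      obtain ⟨h1, h2⟩ := hbig v hv
      refine ⟨Res v, inferInstance, inferInstance, red v, fun u => ¬ Irreducible (fpol u), red_surj v, res_char v,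
        fun t => Iff.rfl, ?_⟩
      rw [hσi, hε]
      have := dens_irr h1 g hrm hrg (by omega : 4 * (2 * g + 1) ^ 2 + 16 * r ≤ Fintype.card (Res v))
      convert this
    · rw [hE₀]
      exact (filter_subset _ _).trans hE
    · intro n hn v hv
      rw [hE₀, mem_filter] at hn
      exact hn.2 v hv
  -- the sets of marked points
  obtain ⟨ES, hES⟩ : ∃ ES : Finset (Fin r) → Finset (Idx r m × Fin (Module.finrank ℚ K) → ℤ), ES = fun S => E.filter fun n =>
    ∀ v : HeightOneSpectrum (𝓞 K), s ≤ (below v : ℕ) → RS S v (comb b n) := ⟨_, rfl⟩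
  have hESc : ∀ S : Finset (Fin r), S.Nonempty → ((ES S).card : ℝ) ≤ W := by
    intro S hSn
    rw [hW]
    refine h V hV (fun v t => RS S v t) ?_ b hb N L T hT hL (ES S) ?_ ?_
    · intro v hv
      let _ : Fintype (Res v) := Fintype.ofFinite _
      obtain ⟨h1, h2⟩ := hbig v hv
      refine ⟨Res v, inferInstance, inferInstance, red v, fun u => ∀ α : Res v, (fpol u).eval α = 0 → (∀ i, u (Sum.inl i) ≠ α) →
        IsSquare (∏ i ∈ S, (u (Sum.inl i) - α)), red_surj v, res_char v, fun t => Iff.rfl, ?_⟩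
      have h3 := dens_S (m := m) h1 (by omega) S hSn (by omega : 10 * r ≤ Fintype.card (Res v))
      have h4 : (1 : ℝ) / (5 / 4) * (Fintype.card (Res v) : ℝ) ^ Fintype.card (Idx r m) ≤
          1 / σ * (Fintype.card (Res v) : ℝ) ^ Fintype.card (Idx r m) := by
        refine mul_le_mul_of_nonneg_right ?_ (by positivity)
        rw [hσi]
        norm_num
        linarith
      refine le_trans (le_of_eq ?_) (h3.trans h4)
      congr
    · rw [hES]
      exact (filter_subset _ _).trans hE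
    · intro n hn v hv
      rw [hES] at hn
      exact (mem_filter.1 hn).2 v hv
  have hcov : E ⊆ E₀ ∪ ((univ : Finset (Finset (Fin r))).filter fun S => S.Nonempty).biUnion ES := by
    intro n hn
    rw [mem_union]
    by_contra hno
    rw [not_or] at hno
    refine hEok n hn (ok_of g hrm hrg hg (comb b n) ?_ ?_)
    · have h1 := hno.1
      rw [hE₀, mem_filter] at h1
      have h2 : ¬ ∀ v : HeightOneSpectrum (𝓞 K), s ≤ (below v : ℕ) → ¬ Irreducible (fpol (fun i => red v (comb b n i))) :=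
        fun h3 => h1 ⟨hn, h3⟩
      push Not at h2
      obtain ⟨v, -, hv⟩ := h2
      exact ⟨v, hv⟩
    · intro S hSn
      by_contra hcon
      push Not at hcon
      apply hno.2
      rw [mem_biUnion]
      refine ⟨S, mem_filter.2 ⟨mem_univ _, hSn⟩, ?_⟩
      rw [hES]
      exact mem_filter.2 ⟨hn, fun v _ => hcon v⟩
  have h1 := (Nat.cast_le (α := ℝ)).2 ((card_le_card hcov).trans ((card_union_le _ _).trans (add_le_add le_rfl card_biUnion_le)))
  push_cast at h1
  have h2 : ∑ S ∈ (univ : Finset (Finset (Fin r))).filter (fun S => S.Nonempty), ((ES S).card : ℝ) ≤ 2 ^ r * W := by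
    refine (sum_le_sum fun S hS => hESc S (mem_filter.1 hS).2).trans ?_
    rw [sum_const, nsmul_eq_mul]
    refine mul_le_mul_of_nonneg_right ?_ hW0
    have h3 : ((univ : Finset (Finset (Fin r))).filter fun S => S.Nonempty).card ≤ 2 ^ r := by
      refine (card_le_univ _).trans (le_of_eq ?_)
      rw [Fintype.card_finset, Fintype.card_fin]
    exact_mod_cast h3
  rw [← hW, add_mul, one_mul]
  linarith

end Q69.LJ
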