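import Pool.Agent.Q69.LJ.Gen
import Pool.Agent.Q69.LJ.Rk
import Pool.Agent.Q282.JB.Sq
import Pool.Agent.Q282.JK.Prod

/-!
# Large deviations of the central Euler products of Jacobians with marked points
-/

set_option autoImplicit false
set_option linter.unusedSectionVars false

namespace Q69.LJ

open Finset NumberField IsDedekindDomain Filter Polynomial
open Q282.GK Q282.MN Q282.JK

lemma few_J (K : Type) [Field K] [NumberField K] (g r m : ℕ) (hrm : r + m = 2 * g + 1) (hg : 1 ≤ g) (hr : r ≤ g) :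
    Few K (Idx r m) (fun t => Ok K t) := by
  classical
  intro A hA
  obtain ⟨V₀, h⟩ := rank_Je K g r m hrm hr hg A hA
  refine ⟨2 ^ r + 1, by positivity, V₀, fun V hV b hb N L T hT hL => ?_⟩
  exact h V hV b hb N L T hT hL _ (filter_subset _ _) fun n hn => (mem_filter.1 hn).2

open Classical in
/-- large deviations of the products of Jacobians -/
theorem ldp_Ju (K : Type) [Field K] [NumberField K] (g r : ℕ) (hg : 1 ≤ g) (hr : r ≤ g) (Y η ε : ℝ) (hY : 0 ≤ Y) (hη : 0 < η)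
    (hε : 0 < ε) :
    ∃ X₁ : ℕ, 16 ≤ X₁ ∧ ∀ X : ℕ, X₁ ≤ X → ∀ T : ℝ, (X : ℝ) ^ ((Real.log (Real.log X)) ^ 3) ≤ T →
    ∀ (b : Fin (Module.finrank ℚ K) → 𝓞 K), (∀ x : 𝓞 K, ∃ a : Fin (Module.finrank ℚ K) → ℤ, x = ∑ j, (a j : 𝓞 K) * b j) →
    ∀ (N : Idx r (2 * g + 1 - r) × Fin (Module.finrank ℚ K) → ℤ) (L : Idx r (2 * g + 1 - r) × Fin (Module.finrank ℚ K) → ℕ),
    (∀ k, T ≤ L k) →
      (∀ y : ℝ, 0 ≤ y → y ≤ Y → ∀ σ : ℝ, (σ = 1 ∨ σ = -1) →
        Real.exp (-((y ^ 2 / 2 + ε) * Real.log (Real.log X))) * ∏ k, (L k : ℝ) ≤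
          (((kbox N L).filter fun n => Ok K (comb b n) ∧
            (σ * (r + 1 / 2) + y) * Real.log (Real.log X) ≤ σ * Real.log (product (fpol (comb b n)) X)).card : ℝ) ∧
        (((kbox N L).filter fun n =>
            (σ * (r + 1 / 2) + y) * Real.log (Real.log X) ≤ σ * Real.log (product (fpol (comb b n)) X)).card : ℝ) ≤
          Real.exp (-((y ^ 2 / 2 - ε) * Real.log (Real.log X))) * ∏ k, (L k : ℝ)) ∧
      (∀ ρ : ℝ, |ρ - (r + 1 / 2)| ≤ Y →
        Real.exp (-(((ρ - (r + 1 / 2)) ^ 2 / 2 + ε) * Real.log (Real.log X))) * ∏ k, (L k : ℝ) ≤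
          (((kbox N L).filter fun n => Ok K (comb b n) ∧
            (ρ - η) * Real.log (Real.log X) ≤ Real.log (product (fpol (comb b n)) X) ∧
            Real.log (product (fpol (comb b n)) X) ≤ (ρ + η) * Real.log (Real.log X)).card : ℝ)) := by
  have hrm : r + (2 * g + 1 - r) = 2 * g + 1 := by omega
  obtain ⟨B, hB, hloc⟩ := Q282.JB.loc2_J K g r (2 * g + 1 - r) hrm hr hg
  obtain ⟨X₁, hX₁, h⟩ := ldp_gen K (Idx r (2 * g + 1 - r)) 3 (r + 1 / 2) B hB (fun v t => val (fpol t) v) hloc (fun t => Ok K t)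
    (few_J K g r _ hrm hg hr) Y η ε hY hη hε
  refine ⟨X₁, hX₁, ?_⟩
  intro X hX T hT b hb N L hL
  have h1 := h X hX T hT b hb N L hL
  have h2 : ∀ n : Idx r (2 * g + 1 - r) × Fin (Module.finrank ℚ K) → ℤ,
      Real.log (product (fpol (comb b n)) X) = ∑ v ∈ SX K X, val (fpol (comb b n)) v := fun n =>
    (log_product (fpol (comb b n)) (fpol_monic (by omega) _) g (by rw [fpol_natDegree (by omega : r ≤ 2 * g + 1 - r), hrm]) X).2
  simp only [h2]
  exact h1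

end Q69.LJ
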