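import Pool.Agent.Q282.JK.Val
import Pool.Agent.Q282.MN.Res

/-!
# Linear combinations of local values
-/

set_option autoImplicit false
set_option linter.unusedSectionVars false

namespace Q69.LJ

open Finset NumberField IsDedekindDomain
open Q282.MN Q282.JK
open Q282.CL (av av_add av_sub av_mul av_sum)
open Pool.Agent.H921R2.TatePole (below deg nm nm_eq)

variable {K : Type} [Field K] [NumberField K] {ι : Type} [Fintype ι] [DecidableEq ι]

/-- the local values as functions on the residue field -/
noncomputable def GR (val : HeightOneSpectrum (𝓞 K) → (ι → 𝓞 K) → ℝ) (v : HeightOneSpectrum (𝓞 K)) (u : ι → Res v) : ℝ :=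
  val v (fun i => Function.surjInv (red_surj v) (u i))

lemma loc2_canon {P₀ : ℕ} {κ B : ℝ} {val : HeightOneSpectrum (𝓞 K) → (ι → 𝓞 K) → ℝ} (h : Loc2 K ι P₀ κ B val)
    (v : HeightOneSpectrum (𝓞 K)) [Fintype (Res v)] :
    (∀ t, val v t = GR val v (fun i => red v (t i))) ∧ (∀ u, |GR val v u| ≤ B / Real.sqrt (Fintype.card (Res v))) ∧
    (P₀ ≤ (below v : ℕ) → |av (GR val v) - κ / Fintype.card (Res v)| ≤ B / (Fintype.card (Res v) : ℝ) ^ (3 / 2 : ℝ) ∧
      |av (fun u => GR val v u ^ 2) - 1 / Fintype.card (Res v)| ≤ B / (Fintype.card (Res v) : ℝ) ^ (3 / 2 : ℝ)) := by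
  classical
  obtain ⟨F, i1, i2, π, G, hπ, hker, hch, hcard, hval, hbd, hav⟩ := h v
  have hiff : ∀ x y : 𝓞 K, red v x = red v y ↔ π x = π y := by
    intro x y
    rw [← sub_eq_zero, ← map_sub, red_zero, ← hker, RingHom.mem_ker, map_sub, sub_eq_zero]
  have hinv : ∀ x : Res v, red v (Function.surjInv (red_surj v) x) = x := fun x => Function.surjInv_eq _ x
  have hcard2 : Fintype.card F = Fintype.card (Res v) := by rw [hcard, res_card]
  have hG : ∀ u : ι → Res v, GR val v u = G (fun i => π (Function.surjInv (red_surj v) (u i))) := fun u => by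
    unfold GR
    rw [hval]
  have e0 : Function.Bijective (fun x : Res v => π (Function.surjInv (red_surj v) x)) := by
    constructor
    · intro x y hxy
      have h1 := (hiff _ _).2 hxy
      rwa [hinv, hinv] at h1
    · intro y
      obtain ⟨x, hx⟩ := hπ y
      refine ⟨red v x, ?_⟩
      show π (Function.surjInv (red_surj v) (red v x)) = y
      rw [← hx]
      exact (hiff _ _).1 (hinv _)
  have hav' : ∀ H : ℝ → ℝ, av (fun u : ι → Res v => H (GR val v u)) = av (fun u : ι → F => H (G u)) := by
    intro H
    have h1 := Q282.CL.av_equiv (𝕜 := ℝ) (Equiv.arrowCongr (Equiv.refl ι) (Equiv.ofBijective _ e0)) (fun u : ι → F => H (G u))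
    rw [h1]
    congr 1
    funext u
    rw [hG]
    rfl
  refine ⟨fun t => ?_, fun u => ?_, fun h8 => ?_⟩
  · rw [hval, hG]
    congr 1
    funext i
    exact (hiff _ _).1 (hinv _).symm
  · rw [hG, ← hcard2]
    exact hbd _
  · obtain ⟨h9, h10⟩ := hav h8
    have h11 := hav' (fun x => x)
    have h12 := hav' (fun x => x ^ 2)
    rw [← hcard2]
    constructor
    · have : av (GR val v) = av G := h11
      rw [this]
      exact h9
    · rw [h12]
      exact h10

/-- linear combinations of uncorrelated local values -/
theorem loc2_lin {J : Type} [Fintype J] {P₀ : ℕ} {κ : J → ℝ} {B : ℝ} (hB : 0 ≤ B)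
    {val : J → HeightOneSpectrum (𝓞 K) → (ι → 𝓞 K) → ℝ} (h1 : ∀ j, Loc2 K ι P₀ (κ j) B (val j))
    (h2 : ∀ j k, j ≠ k → Loc2 K ι P₀ ((κ j + κ k) / Real.sqrt 2) B (fun v t => (val j v t + val k v t) / Real.sqrt 2))
    (u : J → ℝ) (hu : ∑ j, u j ^ 2 = 1) :
    Loc2 K ι P₀ (∑ j, u j * κ j) ((∑ j, |u j|) * B + (∑ j, |u j|) ^ 2 * (2 * B)) (fun v t => ∑ j, u j * val j v t) := by
  classical
  intro v
  let _ : Fintype (Res v) := Fintype.ofFinite _
  obtain ⟨U, hU⟩ : ∃ U : ℝ, U = ∑ j, |u j| := ⟨_, rfl⟩
  rw [← hU]
  have hU0 : 0 ≤ U := by rw [hU]; exact sum_nonneg fun j _ => abs_nonneg _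
  have hc1 := fun j => loc2_canon (h1 j) v
  have hc2 := fun j k hjk => loc2_canon (h2 j k hjk) v
  have hq0 : (0 : ℝ) < Fintype.card (Res v) := by exact_mod_cast Fintype.card_pos
  have hq32 : (0 : ℝ) < (Fintype.card (Res v) : ℝ) ^ (3 / 2 : ℝ) := by positivity
  obtain ⟨q, hq⟩ : ∃ q : ℝ, q = (Fintype.card (Res v) : ℝ) ^ (3 / 2 : ℝ) := ⟨_, rfl⟩
  refine ⟨Res v, inferInstance, inferInstance, red v, fun w => ∑ j, u j * GR (val j) v w, red_surj v, Ideal.mk_ker, res_char v,
    res_card v, fun t => ?_, fun w => ?_, fun h8 => ?_⟩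
  · exact sum_congr rfl fun j _ => by rw [(hc1 j).1 t]
  · calc |∑ j, u j * GR (val j) v w| ≤ ∑ j, |u j| * (B / Real.sqrt (Fintype.card (Res v))) := by
          refine (abs_sum_le_sum_abs _ _).trans (sum_le_sum fun j _ => ?_)
          rw [abs_mul]
          exact mul_le_mul_of_nonneg_left ((hc1 j).2.1 w) (abs_nonneg _)
      _ = U * B / Real.sqrt (Fintype.card (Res v)) := by
          rw [← sum_mul, ← hU]
          ring
      _ ≤ _ := div_le_div_of_nonneg_right (by
          have : 0 ≤ U ^ 2 * (2 * B) := by positivity
          linarith) (Real.sqrt_nonneg _)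
  · constructor
    · rw [← hq]
      have e1 : av (fun w => ∑ j, u j * GR (val j) v w) - (∑ j, u j * κ j) / Fintype.card (Res v) =
          ∑ j, u j * (av (GR (val j) v) - κ j / Fintype.card (Res v)) := by
        rw [av_sum]
        simp only [mul_sub, sum_sub_distrib, sum_div]
        congr 1
        · exact sum_congr rfl fun j _ => av_mul _ _
        · exact sum_congr rfl fun j _ => by ring
      rw [e1]
      calc |∑ j, u j * (av (GR (val j) v) - κ j / Fintype.card (Res v))| ≤ ∑ j, |u j| * (B / q) := by
            refine (abs_sum_le_sum_abs _ _).trans (sum_le_sum fun j _ => ?_)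
            rw [abs_mul]
            refine mul_le_mul_of_nonneg_left ?_ (abs_nonneg _)
            rw [hq]
            exact ((hc1 j).2.2 h8).1
        _ = U * B / q := by
            rw [← sum_mul, ← hU]
            ring
        _ ≤ _ := div_le_div_of_nonneg_right (by
            have : 0 ≤ U ^ 2 * (2 * B) := by positivity
            linarith) (by rw [hq]; exact hq32.le)
    · rw [← hq]
      have hs : Real.sqrt 2 ^ 2 = 2 := Real.sq_sqrt (by norm_num)
      -- the products
      have hjk : ∀ j k, |av (fun w => GR (val j) v w * GR (val k) v w) - (if j = k then 1 / (Fintype.card (Res v) : ℝ) else 0)| ≤ 2 * B / q := by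
        intro j k
        by_cases hjk : j = k
        · subst hjk
          rw [if_pos rfl]
          have h3 := ((hc1 j).2.2 h8).2
          rw [← hq] at h3
          have e1 : (fun w => GR (val j) v w * GR (val j) v w) = fun w => GR (val j) v w ^ 2 := by
            funext w
            ring
          rw [e1]
          refine h3.trans (div_le_div_of_nonneg_right (by linarith) (by rw [hq]; exact hq32.le))
        · rw [if_neg hjk, sub_zero]
          have h3 := ((hc2 j k hjk).2.2 h8).2
          have h4 := ((hc1 j).2.2 h8).2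
          have h5 := ((hc1 k).2.2 h8).2
          rw [← hq] at h3 h4 h5
          have e1 : (fun w => GR (fun v t => (val j v t + val k v t) / Real.sqrt 2) v w ^ 2) =
              fun w => (1 / 2) * (GR (val j) v w ^ 2 + (GR (val k) v w ^ 2 + 2 * (GR (val j) v w * GR (val k) v w))) := by
            funext w
            have : GR (fun v t => (val j v t + val k v t) / Real.sqrt 2) v w = (GR (val j) v w + GR (val k) v w) / Real.sqrt 2 := rfl
            rw [this, div_pow, hs]
            ring
          rw [e1, av_mul, av_add, av_add, av_mul] at h3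
          have h6 : 2 * B / q = 2 * (B / q) := by ring
          rw [h6]
          rw [abs_le] at h3 h4 h5 ⊢
          constructor <;> linarith [h3.1, h3.2, h4.1, h4.2, h5.1, h5.2]
      have e1 : av (fun w => (∑ j, u j * GR (val j) v w) ^ 2) - 1 / (Fintype.card (Res v) : ℝ) =
          ∑ j, ∑ k, u j * u k * (av (fun w => GR (val j) v w * GR (val k) v w) - (if j = k then 1 / (Fintype.card (Res v) : ℝ) else 0)) := by
        have e2 : (fun w => (∑ j, u j * GR (val j) v w) ^ 2) = fun w => ∑ j, ∑ k, u j * u k * (GR (val j) v w * GR (val k) v w) := by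
          funext w
          rw [sq, sum_mul_sum]
          exact sum_congr rfl fun j _ => sum_congr rfl fun k _ => by ring
        rw [e2, av_sum]
        have e3 : ∀ j, av (fun w => ∑ k, u j * u k * (GR (val j) v w * GR (val k) v w)) =
            ∑ k, u j * u k * av (fun w => GR (val j) v w * GR (val k) v w) := by
          intro j
          rw [av_sum]
          exact sum_congr rfl fun k _ => av_mul _ _
        have e4 : 1 / (Fintype.card (Res v) : ℝ) = ∑ j, ∑ k, u j * u k * (if j = k then 1 / (Fintype.card (Res v) : ℝ) else 0) := by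
          have e5 : ∀ j, ∑ k, u j * u k * (if j = k then 1 / (Fintype.card (Res v) : ℝ) else 0) = u j ^ 2 * (1 / (Fintype.card (Res v) : ℝ)) := by
            intro j
            rw [sum_eq_single j]
            · rw [if_pos rfl]
              ring
            · intro k _ hk
              rw [if_neg (Ne.symm hk), mul_zero]
            · intro h
              exact absurd (mem_univ j) h
          rw [sum_congr rfl fun j _ => e5 j, ← sum_mul, hu, one_mul]
        conv_lhs => rw [e4]
        rw [sum_congr rfl fun j _ => e3 j, ← sum_sub_distrib]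
        refine sum_congr rfl fun j _ => ?_
        rw [← sum_sub_distrib]
        exact sum_congr rfl fun k _ => by ring
      rw [e1]
      calc |∑ j, ∑ k, u j * u k * (av (fun w => GR (val j) v w * GR (val k) v w) - (if j = k then 1 / (Fintype.card (Res v) : ℝ) else 0))| ≤
            ∑ j, ∑ k, |u j| * |u k| * (2 * B / q) := by
            refine (abs_sum_le_sum_abs _ _).trans (sum_le_sum fun j _ => (abs_sum_le_sum_abs _ _).trans (sum_le_sum fun k _ => ?_))
            rw [abs_mul, abs_mul]
            exact mul_le_mul_of_nonneg_left (hjk j k) (by positivity)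
        _ = U ^ 2 * (2 * B) / q := by
            rw [hU, sq, sum_mul_sum, sum_mul, sum_div]
            refine sum_congr rfl fun j _ => ?_
            rw [sum_mul, sum_div]
            exact sum_congr rfl fun k _ => by ring
        _ ≤ _ := div_le_div_of_nonneg_right (by
            have : 0 ≤ U * B := by positivity
            linarith) (by rw [hq]; exact hq32.le)

end Q69.LJ
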