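import Pool.Agent.Q69.LJ.Unif

/-!
# Large deviations of vectors from those of their components in all directions
-/

set_option autoImplicit false

namespace Q69.LJ

open Finset
open scoped RealInnerProductSpace

section

variable {J : Type} [Fintype J]

/-- a finite net of unit vectors -/
lemma net (θ : ℝ) (hθ1 : θ < 1) : ∃ W : Finset (EuclideanSpace ℝ J), (∀ u ∈ W, ‖u‖ = 1) ∧
    ∀ z : EuclideanSpace ℝ J, z ≠ 0 → ∃ u ∈ W, θ * ‖z‖ ≤ ⟪u, z⟫ := by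
  classical
  obtain ⟨δ, hδ⟩ : ∃ δ : ℝ, δ = Real.sqrt (2 * (1 - θ)) := ⟨_, rfl⟩
  have hδ0 : 0 < δ := by
    rw [hδ]
    exact Real.sqrt_pos.2 (by linarith)
  have hδ2 : δ ^ 2 = 2 * (1 - θ) := by rw [hδ, Real.sq_sqrt (by linarith)]
  have hc : IsCompact (Metric.sphere (0 : EuclideanSpace ℝ J) 1) := isCompact_sphere _ _
  obtain ⟨t, ht, hfin, hcov⟩ := hc.finite_cover_balls hδ0
  refine ⟨hfin.toFinset, fun u hu => ?_, fun z hz => ?_⟩
  · have := ht (hfin.mem_toFinset.1 hu)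
    rwa [mem_sphere_zero_iff_norm] at this
  · have hz0 : 0 < ‖z‖ := norm_pos_iff.2 hz
    obtain ⟨w, hw⟩ : ∃ w : EuclideanSpace ℝ J, w = ‖z‖⁻¹ • z := ⟨_, rfl⟩
    have hw1 : ‖w‖ = 1 := by
      rw [hw, norm_smul, norm_inv, norm_norm, inv_mul_cancel₀ hz0.ne']
    have hwS : w ∈ Metric.sphere (0 : EuclideanSpace ℝ J) 1 := mem_sphere_zero_iff_norm.2 hw1
    obtain ⟨u, hu, huw⟩ := Set.mem_iUnion₂.1 (hcov hwS)
    refine ⟨u, hfin.mem_toFinset.2 hu, ?_⟩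
    have hu1 : ‖u‖ = 1 := by
      have := ht hu
      rwa [mem_sphere_zero_iff_norm] at this
    rw [Metric.mem_ball, dist_eq_norm] at huw
    have h1 : ‖w - u‖ ^ 2 = 2 - 2 * ⟪u, w⟫ := by
      rw [norm_sub_sq_real, hw1, hu1, real_inner_comm]
      ring
    have h2 : ‖w - u‖ ^ 2 ≤ δ ^ 2 := pow_le_pow_left₀ (norm_nonneg _) huw.le 2
    have h3 : θ ≤ ⟪u, w⟫ := by
      rw [h1, hδ2] at h2
      linarith
    have h4 : ⟪u, w⟫ = ‖z‖⁻¹ * ⟪u, z⟫ := by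
      rw [hw, real_inner_smul_right]
    rw [h4, inv_mul_eq_div, le_div_iff₀ hz0] at h3
    exact h3

end

open Classical in
/-- large deviations of the norm: the upper bound -/
theorem vec_up {A α J : Type} [Fintype J] (ok : ℕ → A → Prop) (S : A → Finset α) (Z : ℕ → A → α → EuclideanSpace ℝ J) (P : A → ℝ)
    (V : ℕ → ℝ) (hV : ∀ c : ℝ, ∃ X₁ : ℕ, ∀ X : ℕ, X₁ ≤ X → c ≤ V X) (hP : ∀ X a, ok X a → 0 ≤ P a)
    (hS : ∀ X a, ok X a → ((S a).card : ℝ) ≤ P a)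
    (h : ∀ (u : EuclideanSpace ℝ J) (y ε : ℝ), ‖u‖ = 1 → 0 ≤ y → 0 < ε → ∃ X₁ : ℕ, ∀ X : ℕ, X₁ ≤ X → ∀ a, ok X a →
      (((S a).filter fun n => y * V X ≤ ⟪u, Z X a n⟫).card : ℝ) ≤ Real.exp (-((y ^ 2 / 2 - ε) * V X)) * P a)
    (ρ ε : ℝ) (hρ : 0 ≤ ρ) (hε : 0 < ε) :
    ∃ X₁ : ℕ, ∀ X : ℕ, X₁ ≤ X → ∀ a, ok X a →
      (((S a).filter fun n => ρ * V X ≤ ‖Z X a n‖).card : ℝ) ≤ Real.exp (-((ρ ^ 2 / 2 - ε) * V X)) * P a := by
  rcases hρ.eq_or_lt with rfl | hρ0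
  · obtain ⟨X₁, h1⟩ := hV 0
    refine ⟨X₁, fun X hX a ha => ?_⟩
    have h2 : (((S a).filter fun n => 0 * V X ≤ ‖Z X a n‖).card : ℝ) ≤ ((S a).card : ℝ) := by
      exact_mod_cast card_filter_le _ _
    refine h2.trans ((hS X a ha).trans ?_)
    have h3 : 1 ≤ Real.exp (-((0 ^ 2 / 2 - ε) * V X)) := by
      refine Real.one_le_exp ?_
      have := mul_nonneg hε.le (h1 X hX)
      linarith
    calc P a = 1 * P a := (one_mul _).symm
      _ ≤ _ := mul_le_mul_of_nonneg_right h3 (hP X a ha)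
  · -- the net
    obtain ⟨θ, hθ0, hθ1, hθ⟩ : ∃ θ : ℝ, 0 < θ ∧ θ < 1 ∧ ρ ^ 2 / 2 - ε / 2 ≤ (θ * ρ) ^ 2 / 2 := by
      refine ⟨max (1 / 2) (1 - ε / (2 * ρ ^ 2 + 1)), lt_max_of_lt_left (by norm_num), max_lt (by norm_num) ?_, ?_⟩
      · have : 0 < ε / (2 * ρ ^ 2 + 1) := by positivity
        linarith
      · obtain ⟨t, ht⟩ : ∃ t : ℝ, t = ε / (2 * ρ ^ 2 + 1) := ⟨_, rfl⟩
        rw [← ht]
        have ht0 : 0 < t := by rw [ht]; positivity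
        have ht1 : t * (2 * ρ ^ 2 + 1) = ε := by
          rw [ht]
          field_simp
        have h1 : 1 - t ≤ max (1 / 2) (1 - t) := le_max_right _ _
        have h2 : 0 ≤ max (1 / 2) (1 - t) := le_max_of_le_left (by norm_num)
        have h3 : 1 - 2 * t ≤ (max (1 / 2) (1 - t)) ^ 2 := by
          rcases le_total (1 - t) 0 with h4 | h4
          · have := sq_nonneg (max (1 / 2) (1 - t))
            linarith
          · have h5 := pow_le_pow_left₀ h4 h1 2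
            have h6 : (1 - t) ^ 2 = 1 - 2 * t + t ^ 2 := by ring
            have := sq_nonneg t
            linarith
        have h4 := mul_le_mul_of_nonneg_right h3 (sq_nonneg ρ)
        have h5 : (max (1 / 2) (1 - t) * ρ) ^ 2 = (max (1 / 2) (1 - t)) ^ 2 * ρ ^ 2 := by ring
        rw [h5]
        have h6 : 2 * t * ρ ^ 2 ≤ ε := by
          have : t * (2 * ρ ^ 2 + 1) = 2 * t * ρ ^ 2 + t := by ring
          linarith
        have h7 : (1 - 2 * t) * ρ ^ 2 = ρ ^ 2 - 2 * t * ρ ^ 2 := by ring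
        linarith
    obtain ⟨W, hW1, hW2⟩ := net (J := J) θ hθ1
    have h1 : ∀ u : EuclideanSpace ℝ J, ∃ X₁ : ℕ, u ∈ W → ∀ X : ℕ, X₁ ≤ X → ∀ a, ok X a →
        (((S a).filter fun n => (θ * ρ) * V X ≤ ⟪u, Z X a n⟫).card : ℝ) ≤ Real.exp (-(((θ * ρ) ^ 2 / 2 - ε / 4) * V X)) * P a := by
      intro u
      by_cases hu : u ∈ W
      · obtain ⟨X₁, h1⟩ := h u (θ * ρ) (ε / 4) (hW1 u hu) (by positivity) (by positivity)
        exact ⟨X₁, fun _ => h1⟩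
      · exact ⟨0, fun h => absurd h hu⟩
    choose F hF using h1
    obtain ⟨X₂, h2⟩ := hV (max 1 (4 * (W.card : ℝ) / ε))
    refine ⟨max (W.sup F) X₂, fun X hX a ha => ?_⟩
    have hV1 := max_le_iff.1 (h2 X ((le_max_right _ _).trans hX))
    have hV0 : 0 < V X := by linarith [hV1.1]
    have hV2 := hV1.2
    rw [div_le_iff₀ hε] at hV2
    have hP0 := hP X a ha
    have h3 : ((S a).filter fun n => ρ * V X ≤ ‖Z X a n‖) ⊆ W.biUnion fun u => (S a).filter fun n => (θ * ρ) * V X ≤ ⟪u, Z X a n⟫ := by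
      intro n hn
      rw [mem_filter] at hn
      have hz : Z X a n ≠ 0 := by
        intro h0
        rw [h0, norm_zero] at hn
        have := mul_pos hρ0 hV0
        linarith [hn.2]
      obtain ⟨u, hu, hz2⟩ := hW2 _ hz
      rw [mem_biUnion]
      refine ⟨u, hu, mem_filter.2 ⟨hn.1, ?_⟩⟩
      refine le_trans ?_ hz2
      rw [mul_assoc]
      exact mul_le_mul_of_nonneg_left hn.2 hθ0.le
    have h4 : (((S a).filter fun n => ρ * V X ≤ ‖Z X a n‖).card : ℝ) ≤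
        ∑ u ∈ W, (((S a).filter fun n => (θ * ρ) * V X ≤ ⟪u, Z X a n⟫).card : ℝ) := by
      exact_mod_cast (card_le_card h3).trans card_biUnion_le
    have h5 : ∑ u ∈ W, (((S a).filter fun n => (θ * ρ) * V X ≤ ⟪u, Z X a n⟫).card : ℝ) ≤
        ∑ _u ∈ W, Real.exp (-(((θ * ρ) ^ 2 / 2 - ε / 4) * V X)) * P a :=
      sum_le_sum fun u hu => hF u hu X ((le_sup (f := F) hu).trans ((le_max_left _ _).trans hX)) a ha
    rw [sum_const, nsmul_eq_mul] at h5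
    refine h4.trans (h5.trans ?_)
    rw [← mul_assoc]
    refine mul_le_mul_of_nonneg_right ?_ hP0
    have h6 : (W.card : ℝ) ≤ Real.exp (ε / 4 * V X) := by
      have := Real.add_one_le_exp (ε / 4 * V X)
      linarith
    calc (W.card : ℝ) * Real.exp (-(((θ * ρ) ^ 2 / 2 - ε / 4) * V X)) ≤
          Real.exp (ε / 4 * V X) * Real.exp (-(((θ * ρ) ^ 2 / 2 - ε / 4) * V X)) :=
          mul_le_mul_of_nonneg_right h6 (Real.exp_pos _).le
      _ = Real.exp (-(((θ * ρ) ^ 2 / 2 - ε / 2) * V X)) := by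
          rw [← Real.exp_add]
          congr 1
          ring
      _ ≤ _ := by
          refine Real.exp_le_exp.2 (neg_le_neg (mul_le_mul_of_nonneg_right ?_ hV0.le))
          linarith

open Classical in
/-- large deviations of vectors: the lower bound -/
theorem vec_low {A α J : Type} [Fintype J] (j₀ : J) (ok : ℕ → A → Prop) (S : A → Finset α) (Ok : A → α → Prop)
    (Z : ℕ → A → α → EuclideanSpace ℝ J) (P : A → ℝ)
    (V : ℕ → ℝ) (hV : ∀ c : ℝ, ∃ X₁ : ℕ, ∀ X : ℕ, X₁ ≤ X → c ≤ V X) (hP : ∀ X a, ok X a → 0 ≤ P a)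
    (hS : ∀ X a, ok X a → ((S a).card : ℝ) ≤ P a)
    (h : ∀ (u : EuclideanSpace ℝ J) (y ε : ℝ), ‖u‖ = 1 → 0 ≤ y → 0 < ε → ∃ X₁ : ℕ, ∀ X : ℕ, X₁ ≤ X → ∀ a, ok X a →
      Real.exp (-((y ^ 2 / 2 + ε) * V X)) * P a ≤ (((S a).filter fun n => Ok a n ∧ y * V X ≤ ⟪u, Z X a n⟫).card : ℝ) ∧
      (((S a).filter fun n => y * V X ≤ ⟪u, Z X a n⟫).card : ℝ) ≤ Real.exp (-((y ^ 2 / 2 - ε) * V X)) * P a)
    (x : EuclideanSpace ℝ J) (δ ε : ℝ) (hδ : 0 < δ) (hε : 0 < ε) :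
    ∃ X₁ : ℕ, ∀ X : ℕ, X₁ ≤ X → ∀ a, ok X a →
      Real.exp (-((‖x‖ ^ 2 / 2 + ε) * V X)) * P a ≤ (((S a).filter fun n => Ok a n ∧ ‖Z X a n - V X • x‖ ≤ δ * V X).card : ℝ) := by
  obtain ⟨u, hu1, hux⟩ : ∃ u : EuclideanSpace ℝ J, ‖u‖ = 1 ∧ x = ‖x‖ • u := by
    by_cases hx : x = 0
    · refine ⟨EuclideanSpace.single j₀ 1, by simp, ?_⟩
      rw [hx, norm_zero, zero_smul]
    · have hx0 : 0 < ‖x‖ := norm_pos_iff.2 hx
      refine ⟨‖x‖⁻¹ • x, ?_, ?_⟩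
      · rw [norm_smul, norm_inv, norm_norm, inv_mul_cancel₀ hx0.ne']
      · rw [smul_smul, mul_inv_cancel₀ hx0.ne', one_smul]
  obtain ⟨ε', hε'⟩ : ∃ ε' : ℝ, ε' = min (ε / 2) (δ ^ 2 / 8) := ⟨_, rfl⟩
  have hε'0 : 0 < ε' := by
    rw [hε']
    exact lt_min (by positivity) (by positivity)
  have hε'1 : 2 * ε' ≤ ε := by
    have : ε' ≤ ε / 2 := by rw [hε']; exact min_le_left _ _
    linarith
  have hε'2 : ε' ≤ δ ^ 2 / 8 := by rw [hε']; exact min_le_right _ _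
  obtain ⟨ρ, hρ⟩ : ∃ ρ : ℝ, ρ = Real.sqrt (‖x‖ ^ 2 + δ ^ 2) := ⟨_, rfl⟩
  have hρ2 : ρ ^ 2 = ‖x‖ ^ 2 + δ ^ 2 := by rw [hρ, Real.sq_sqrt (by positivity)]
  have hρ0 : 0 ≤ ρ := by rw [hρ]; exact Real.sqrt_nonneg _
  obtain ⟨X₁, h1⟩ := h u ‖x‖ ε' hu1 (norm_nonneg _) hε'0
  obtain ⟨X₂, h2⟩ := vec_up ok S Z P V hV hP hS (fun u y ε hu hy hε => by
    obtain ⟨X₁, h1⟩ := h u y ε hu hy hε
    exact ⟨X₁, fun X hX a ha => (h1 X hX a ha).2⟩) ρ ε' hρ0 hε'0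
  obtain ⟨X₃, h3⟩ := hV (max 0 (4 / ε'))
  refine ⟨max X₁ (max X₂ X₃), fun X hX a ha => ?_⟩
  have g1 := (h1 X ((le_max_left _ _).trans hX) a ha).1
  have g2 := h2 X ((le_max_left _ _).trans ((le_max_right _ _).trans hX)) a ha
  have hV1 := max_le_iff.1 (h3 X ((le_max_right _ _).trans ((le_max_right _ _).trans hX)))
  have hP0 := hP X a ha
  have hVp : 0 < V X := lt_of_lt_of_le (by positivity) hV1.2
  have hV2 := hV1.2
  rw [div_le_iff₀ hε'0] at hV2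
  have g3 : ((S a).filter fun n => Ok a n ∧ ‖x‖ * V X ≤ ⟪u, Z X a n⟫) ⊆
      ((S a).filter fun n => Ok a n ∧ ‖Z X a n - V X • x‖ ≤ δ * V X) ∪ ((S a).filter fun n => ρ * V X ≤ ‖Z X a n‖) := by
    intro n hn
    rw [mem_filter] at hn
    obtain ⟨hn1, hn2, hn3⟩ := hn
    rw [mem_union, mem_filter, mem_filter]
    by_cases h4 : ‖Z X a n - V X • x‖ ≤ δ * V X
    · exact Or.inl ⟨hn1, hn2, h4⟩
    · right
      refine ⟨hn1, ?_⟩
      push Not at h4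
      have h5 : (δ * V X) ^ 2 ≤ ‖Z X a n - V X • x‖ ^ 2 := pow_le_pow_left₀ (by positivity) h4.le 2
      have h6 : ‖Z X a n - V X • x‖ ^ 2 = ‖Z X a n‖ ^ 2 - 2 * (V X * (‖x‖ * ⟪u, Z X a n⟫)) + (V X * ‖x‖) ^ 2 := by
        rw [norm_sub_sq_real, norm_smul, Real.norm_eq_abs, abs_of_pos hVp]
        have e1 : ⟪Z X a n, V X • x⟫ = V X * (‖x‖ * ⟪u, Z X a n⟫) := by
          rw [real_inner_smul_right]
          congr 1
          conv_lhs => rw [hux]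
          rw [real_inner_smul_right, real_inner_comm]
        rw [e1]
      have h7 : V X * (‖x‖ * (‖x‖ * V X)) ≤ V X * (‖x‖ * ⟪u, Z X a n⟫) :=
        mul_le_mul_of_nonneg_left (mul_le_mul_of_nonneg_left hn3 (norm_nonneg _)) hVp.le
      have h8 : (ρ * V X) ^ 2 ≤ ‖Z X a n‖ ^ 2 := by
        rw [mul_pow, hρ2]
        rw [h6] at h5
        have e2 : (‖x‖ ^ 2 + δ ^ 2) * V X ^ 2 = (V X * ‖x‖) ^ 2 + (δ * V X) ^ 2 := by ring
        have e3 : V X * (‖x‖ * (‖x‖ * V X)) = (V X * ‖x‖) ^ 2 := by ring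
        rw [e2]
        rw [e3] at h7
        linarith
      exact le_of_sq_le_sq h8 (norm_nonneg _)
  have g4 : (((S a).filter fun n => Ok a n ∧ ‖x‖ * V X ≤ ⟪u, Z X a n⟫).card : ℝ) ≤
      (((S a).filter fun n => Ok a n ∧ ‖Z X a n - V X • x‖ ≤ δ * V X).card : ℝ) + (((S a).filter fun n => ρ * V X ≤ ‖Z X a n‖).card : ℝ) := by
    exact_mod_cast (card_le_card g3).trans (card_union_le _ _)
  rw [hρ2] at g2
  obtain ⟨D, hD⟩ : ∃ D : ℝ, D = Real.exp (-((‖x‖ ^ 2 / 2 + 2 * ε') * V X)) := ⟨_, rfl⟩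
  have e1 : Real.exp (-(((‖x‖ ^ 2 + δ ^ 2) / 2 - ε') * V X)) ≤ D := by
    rw [hD]
    refine Real.exp_le_exp.2 (neg_le_neg (mul_le_mul_of_nonneg_right ?_ hVp.le))
    linarith [sq_nonneg δ]
  have e2 : 2 * D ≤ Real.exp (-((‖x‖ ^ 2 / 2 + ε') * V X)) := by
    have e3 : Real.exp (-((‖x‖ ^ 2 / 2 + ε') * V X)) = Real.exp (ε' * V X) * D := by
      rw [hD, ← Real.exp_add]
      congr 1
      ring
    rw [e3]
    refine mul_le_mul_of_nonneg_right ?_ (by rw [hD]; exact (Real.exp_pos _).le)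
    have := Real.add_one_le_exp (ε' * V X)
    linarith
  have e3 : Real.exp (-((‖x‖ ^ 2 / 2 + ε) * V X)) ≤ D := by
    rw [hD]
    refine Real.exp_le_exp.2 (neg_le_neg (mul_le_mul_of_nonneg_right ?_ hVp.le))
    linarith
  have f1 := mul_le_mul_of_nonneg_right e1 hP0
  have f2 := mul_le_mul_of_nonneg_right e2 hP0
  have f3 := mul_le_mul_of_nonneg_right e3 hP0
  linarith

end Q69.LJ
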