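import Pool.Agent.Q69.LJ.Jac
import Pool.Agent.Q282.MJ.Rank

/-!
# Large deviations of the central Euler products of products of curves
-/

set_option autoImplicit false
set_option linter.unusedSectionVars false

namespace Q69.LJ

open Finset NumberField IsDedekindDomain Filter Polynomial
open Q282.GK Q282.MN Q282.JK Q282.PX Q282.MJ

lemma few_all (K : Type) [Field K] [NumberField K] (n : ℕ) (g r : Fin n → ℕ) (hg : ∀ j, 1 ≤ g j) (hr : ∀ j, r j ≤ g j) :
    Few K (Ix g r) (fun t => ∀ j, Ok K (r := r j) (m := 2 * g j + 1 - r j) (fun i => t ⟨j, i⟩)) := by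
  classical
  obtain ⟨Q, hQ⟩ : ∃ Q : (Ix g r → 𝓞 K) → Prop, Q = fun t => ∀ j, Ok K (r := r j) (m := 2 * g j + 1 - r j) (fun i => t ⟨j, i⟩) := ⟨_, rfl⟩
  rw [← hQ]
  intro A hA
  have hrk := fun j : Fin n => rank_Je K (g j) (r j) (2 * g j + 1 - r j) (by have := hr j; omega) (hr j) (hg j) A hA
  choose Vr hrank using hrk
  refine ⟨∑ j, (2 ^ r j + 1), by positivity, ∑ j, |Vr j|, fun V hV b hb N L T hT hL => ?_⟩
  have hT0 : 0 < T := (Real.exp_pos _).trans_le hT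
  have hP0 : 0 < ∏ k, (L k : ℝ) := prod_pos fun k _ => hT0.trans_le (hL k)
  have hVj : ∀ j, Vr j ≤ V := by
    intro j
    have h1 := single_le_sum (f := fun j => |Vr j|) (fun j _ => abs_nonneg _) (mem_univ j)
    exact (le_abs_self _).trans (h1.trans hV)
  obtain ⟨E₂, hE₂⟩ : ∃ E₂ : Fin n → Finset (Ix g r × Fin (Module.finrank ℚ K) → ℤ), E₂ = fun j =>
      (kbox N L).filter fun ν => ¬ Ok K (r := r j) (m := 2 * g j + 1 - r j) (fun i => comb b ν ⟨j, i⟩) := ⟨_, rfl⟩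
  have h2 : ∀ j : Fin n, ((E₂ j).card : ℝ) ≤ (2 ^ r j + 1) * (Real.exp (-(A * V)) * ∏ k, (L k : ℝ)) := by
    intro j
    obtain ⟨e, he⟩ : ∃ e : Idx (r j) (2 * g j + 1 - r j) × Fin (Module.finrank ℚ K) → Ix g r × Fin (Module.finrank ℚ K),
        e = fun k => (⟨j, k.1⟩, k.2) := ⟨_, rfl⟩
    have hinj : Function.Injective e := by
      rintro ⟨k, l⟩ ⟨k', l'⟩ h
      rw [he] at h
      have h3 : (⟨j, k⟩ : Ix g r) = ⟨j, k'⟩ := congrArg Prod.fst h
      have h4 : l = l' := congrArg Prod.snd h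
      rw [h4]
      have h5 : k = k' := eq_of_heq (Sigma.mk.inj h3).2
      rw [h5]
    have hm := kbox_marg e hinj N L (fun ν' => ¬ Ok K (r := r j) (m := 2 * g j + 1 - r j) (comb b ν'))
    have hE : E₂ j = (kbox N L).filter fun ν => (fun ν' => ¬ Ok K (r := r j) (m := 2 * g j + 1 - r j) (comb b ν'))
        (fun k => ν (e k)) := by
      rw [hE₂, he]
      rfl
    have h3 := hrank j V (hVj j) b hb (fun k => N (e k)) (fun k => L (e k)) T hT (fun k => hL _)
      ((kbox (fun k => N (e k)) (fun k => L (e k))).filter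
        fun ν' => ¬ Ok K (r := r j) (m := 2 * g j + 1 - r j) (comb b ν')) (filter_subset _ _)
      (fun ν hν => (mem_filter.1 hν).2)
    have hP' : 0 < ∏ k, (L (e k) : ℝ) := prod_pos fun k _ => hT0.trans_le (hL (e k))
    have h4 : ((E₂ j).card : ℝ) * ∏ k, (L (e k) : ℝ) =
        (((kbox (fun k => N (e k)) (fun k => L (e k))).filter
          fun ν' => ¬ Ok K (r := r j) (m := 2 * g j + 1 - r j) (comb b ν')).card : ℝ) * ∏ k, (L k : ℝ) := by
      rw [hE]
      exact_mod_cast hm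
    have h5 := mul_le_mul_of_nonneg_right h3 hP0.le
    rw [← h4] at h5
    have h6 : (2 ^ r j + 1) * (Real.exp (-(A * V)) * ∏ k, (L (e k) : ℝ)) * ∏ k, (L k : ℝ) =
        ((2 ^ r j + 1) * (Real.exp (-(A * V)) * ∏ k, (L k : ℝ))) * ∏ k, (L (e k) : ℝ) := by ring
    rw [h6] at h5
    exact le_of_mul_le_mul_right h5 hP'
  have h3 : ((kbox N L).filter fun ν => ¬ Q (comb b ν)) ⊆ univ.biUnion E₂ := by
    intro ν hν
    rw [mem_biUnion]
    rw [mem_filter] at hν
    have h4 := hν.2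
    rw [hQ] at h4
    push Not at h4
    obtain ⟨j, hj⟩ := h4
    refine ⟨j, mem_univ _, ?_⟩
    rw [hE₂]
    exact mem_filter.2 ⟨hν.1, hj⟩
  have h4 : (((kbox N L).filter fun ν => ¬ Q (comb b ν)).card : ℝ) ≤ ∑ j, ((E₂ j).card : ℝ) := by
    have h5 := (card_le_card h3).trans (card_biUnion_le (s := (univ : Finset (Fin n))) (t := E₂))
    exact_mod_cast h5
  refine (h4.trans (sum_le_sum fun j _ => h2 j)).trans (le_of_eq ?_)
  rw [← sum_mul]

open Classical in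
/-- large deviations of the products of products of curves -/
theorem ldp_Cu (K : Type) [Field K] [NumberField K] (n m : ℕ) (hm : 1 ≤ m) (hmn : m ≤ n) (g r : Fin n → ℕ) (hg : ∀ j, 1 ≤ g j)
    (hr : ∀ j, r j ≤ g j) (κ τ : ℝ) (hκ : κ = (n - 1).choose (m - 1) * ∑ j, (r j : ℝ) + (types n (2 * m - 1)).card / 2)
    (hτ : τ = Real.sqrt (sig (types n (2 * m - 1)))) (Y η ε : ℝ) (hY : 0 ≤ Y) (hη : 0 < η) (hε : 0 < ε) :
    0 < τ ∧ ∃ X₁ : ℕ, 16 ≤ X₁ ∧ ∀ X : ℕ, X₁ ≤ X → ∀ T : ℝ, (X : ℝ) ^ ((Real.log (Real.log X)) ^ 3) ≤ T →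
    ∀ (b : Fin (Module.finrank ℚ K) → 𝓞 K), (∀ x : 𝓞 K, ∃ a : Fin (Module.finrank ℚ K) → ℤ, x = ∑ j, (a j : 𝓞 K) * b j) →
    ∀ (N : Ix g r × Fin (Module.finrank ℚ K) → ℤ) (L : Ix g r × Fin (Module.finrank ℚ K) → ℕ),
    (∀ k, T ≤ L k) →
      (∀ y : ℝ, 0 ≤ y → y ≤ Y → ∀ σ : ℝ, (σ = 1 ∨ σ = -1) →
        Real.exp (-((y ^ 2 / (2 * τ ^ 2) + ε) * Real.log (Real.log X))) * ∏ k, (L k : ℝ) ≤
          (((kbox N L).filter fun ν => (∀ j, Ok K (r := r j) (m := 2 * g j + 1 - r j) (fun i => comb b ν ⟨j, i⟩)) ∧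
            (σ * κ + y) * Real.log (Real.log X) ≤ σ * Real.log (productP (fj (comb b ν)) m X)).card : ℝ) ∧
        (((kbox N L).filter fun ν =>
            (σ * κ + y) * Real.log (Real.log X) ≤ σ * Real.log (productP (fj (comb b ν)) m X)).card : ℝ) ≤
          Real.exp (-((y ^ 2 / (2 * τ ^ 2) - ε) * Real.log (Real.log X))) * ∏ k, (L k : ℝ)) ∧
      (∀ ρ : ℝ, |ρ - κ| ≤ Y →
        Real.exp (-(((ρ - κ) ^ 2 / (2 * τ ^ 2) + ε) * Real.log (Real.log X))) * ∏ k, (L k : ℝ) ≤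
          (((kbox N L).filter fun ν => (∀ j, Ok K (r := r j) (m := 2 * g j + 1 - r j) (fun i => comb b ν ⟨j, i⟩)) ∧
            (ρ - η) * Real.log (Real.log X) ≤ Real.log (productP (fj (comb b ν)) m X) ∧
            Real.log (productP (fj (comb b ν)) m X) ≤ (ρ + η) * Real.log (Real.log X)).card : ℝ)) := by
  have hpos := sig_pos m hm hmn
  have hτ0 : 0 < τ := by
    rw [hτ]
    exact Real.sqrt_pos.2 (by exact_mod_cast hpos)
  refine ⟨hτ0, ?_⟩
  obtain ⟨B, hB, hloc⟩ := loc_C K n (types n (2 * m - 1)) (fun c hc => types_ne hm hc) g r hg hr hpos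
  rw [kap_eq m hm, ← hκ, ← hτ] at hloc
  obtain ⟨X₁, hX₁, h⟩ := ldp_gen K (Ix g r) 3 (κ / τ) B hB.le (fun v t => valC (types n (2 * m - 1)) (fj t) v / τ) hloc
    (fun t => ∀ j, Ok K (r := r j) (m := 2 * g j + 1 - r j) (fun i => t ⟨j, i⟩)) (few_all K n g r hg hr) (Y / τ) (η / τ) ε
    (by positivity) (by positivity) hε
  refine ⟨X₁, hX₁, ?_⟩
  intro X hX T hT b hb N L hL
  obtain ⟨h1, h2⟩ := h X hX T hT b hb N L hL
  have h3 : ∀ ν : Ix g r × Fin (Module.finrank ℚ K) → ℤ,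
      ∑ v ∈ SX K X, valC (types n (2 * m - 1)) (fj (comb b ν)) v / τ = Real.log (productP (fj (comb b ν)) m X) / τ := fun ν => by
    rw [(log_productP (fj (comb b ν)) m X).2, ← sum_div, sum_congr rfl fun v _ => valP_C (fj (comb b ν)) m hm v]
  simp only [h3] at h1 h2
  have e1 : ∀ a c V Z : ℝ, ((a / τ + c / τ) * V ≤ Z / τ ↔ (a + c) * V ≤ Z) := by
    intro a c V Z
    rw [← add_div, div_mul_eq_mul_div]
    exact div_le_div_iff_of_pos_right hτ0
  refine ⟨fun y hy hyY σ hσ => ?_, fun ρ hρ => ?_⟩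
  · have h4 := h1 (y / τ) (by positivity) (div_le_div_of_nonneg_right hyY hτ0.le) σ hσ
    have e2 : (y / τ) ^ 2 / 2 = y ^ 2 / (2 * τ ^ 2) := by
      rw [div_pow]
      field_simp
    have e3 : ∀ ν : Ix g r × Fin (Module.finrank ℚ K) → ℤ,
        ((σ * (κ / τ) + y / τ) * Real.log (Real.log X) ≤ σ * (Real.log (productP (fj (comb b ν)) m X) / τ) ↔
          (σ * κ + y) * Real.log (Real.log X) ≤ σ * Real.log (productP (fj (comb b ν)) m X)) := by
      intro ν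
      rw [← mul_div_assoc, ← mul_div_assoc]
      exact e1 _ _ _ _
    simp only [e2, e3] at h4
    exact h4
  · have h4 := h2 (ρ / τ) (by
      rw [← sub_div, abs_div, abs_of_pos hτ0]
      exact div_le_div_of_nonneg_right hρ hτ0.le)
    have e2 : (ρ / τ - κ / τ) ^ 2 / 2 = (ρ - κ) ^ 2 / (2 * τ ^ 2) := by
      rw [← sub_div, div_pow]
      field_simp
    have e3 : ∀ ν : Ix g r × Fin (Module.finrank ℚ K) → ℤ,
        ((ρ / τ - η / τ) * Real.log (Real.log X) ≤ Real.log (productP (fj (comb b ν)) m X) / τ ↔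
          (ρ - η) * Real.log (Real.log X) ≤ Real.log (productP (fj (comb b ν)) m X)) := by
      intro ν
      rw [← sub_div, div_mul_eq_mul_div]
      exact div_le_div_iff_of_pos_right hτ0
    have e4 : ∀ ν : Ix g r × Fin (Module.finrank ℚ K) → ℤ,
        (Real.log (productP (fj (comb b ν)) m X) / τ ≤ (ρ / τ + η / τ) * Real.log (Real.log X) ↔
          Real.log (productP (fj (comb b ν)) m X) ≤ (ρ + η) * Real.log (Real.log X)) := by
      intro ν
      rw [← add_div, div_mul_eq_mul_div]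
      exact div_le_div_iff_of_pos_right hτ0
    simp only [e2, e3, e4] at h4
    exact h4

end Q69.LJ
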