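import Pool.Agent.Q282.LD.Main
import Pool.Agent.Q282.JB.Brown

/-!
# Large deviations of weighted sums of local values over the primes of a number field
-/

set_option autoImplicit false
set_option linter.unusedSectionVars false

namespace Q69.LJ

open Finset NumberField IsDedekindDomain Filter
open Q282.NF Q282.GK Q282.MN
open Q282.BP (PP bx)
open Q282.CL (av av_sub av_const mn_eq mean_av summ rpow_sqrt)
open Q282.JB (cY)
open Pool.Agent.H921R2.TatePole (below deg nm nm_eq)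
open Pool.Agent.TH894.NE (Per mean)

lemma sum_close' {C₀ : ℝ} (hC₀ : ∀ S : Finset ℕ, (∀ p ∈ S, p.Prime) → ∑ p ∈ S, 1 / (Real.sqrt p) ^ 3 ≤ C₀) {B : ℝ} (hB : 0 ≤ B)
    (X : ℕ) (f f₀ : ℕ → ℝ) (hf : ∀ p : ℕ, p.Prime → p ≤ X → |f p - f₀ p| ≤ B / (p : ℝ) ^ (3 / 2 : ℝ)) (V M : ℝ)
    (hV : |∑ p ∈ PP X, f₀ p - V| ≤ M) :
    |∑ p ∈ PP X, f p - V| ≤ B * C₀ + M := by
  have h1 : |∑ p ∈ PP X, f p - ∑ p ∈ PP X, f₀ p| ≤ B * C₀ := by
    rw [← sum_sub_distrib]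
    refine (abs_sum_le_sum_abs _ _).trans ?_
    have h2 : ∑ p ∈ PP X, |f p - f₀ p| ≤ ∑ p ∈ PP X, B * (1 / (Real.sqrt p) ^ 3) := by
      refine sum_le_sum fun p hp => ?_
      have h3 := mem_filter.1 hp
      have h4 := hf p h3.2 (mem_Icc.1 h3.1).2
      rw [rpow_sqrt] at h4
      rw [mul_one_div]
      exact h4
    refine h2.trans ?_
    rw [← mul_sum]
    exact mul_le_mul_of_nonneg_left (hC₀ _ fun p hp => (mem_filter.1 hp).2) hB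
  have h3 := abs_add_le (∑ p ∈ PP X, f p - ∑ p ∈ PP X, f₀ p) (∑ p ∈ PP X, f₀ p - V)
  rw [sub_add_sub_cancel] at h3
  linarith

lemma loc2_neg {K : Type} [Field K] [NumberField K] {ι : Type} [Fintype ι] [DecidableEq ι] {P₀ : ℕ} {κ B : ℝ}
    {val : HeightOneSpectrum (𝓞 K) → (ι → 𝓞 K) → ℝ} (h : Loc2 K ι P₀ κ B val) : Loc2 K ι P₀ (-κ) B (fun v t => -val v t) := by
  intro v
  obtain ⟨F, i1, i2, π, G, h1, h2, h3, h4, h5, h6, h7⟩ := h v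
  refine ⟨F, i1, i2, π, fun u => -G u, h1, h2, h3, h4, fun t => by
    show -val v t = -G _
    rw [h5], fun u => by rw [abs_neg]; exact h6 u, fun h8 => ?_⟩
  obtain ⟨h9, h10⟩ := h7 h8
  constructor
  · have e1 : av (fun u => -G u) = -av G := by
      unfold Q282.CL.av
      rw [sum_neg_distrib, neg_div]
    have e2 : -av G - -κ / (Fintype.card F : ℝ) = -(av G - κ / Fintype.card F) := by ring
    rw [e1, e2, abs_neg]
    exact h9
  · have e1 : (fun u : ι → F => (-G u) ^ 2) = fun u => G u ^ 2 := by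
      funext u
      ring
    rw [e1]
    exact h10

/-- the data of the weighted sums of local values -/
theorem nf_dat (K : Type) [Field K] [NumberField K] (ι : Type) [Fintype ι] [DecidableEq ι] (P₀ : ℕ) (κ B : ℝ) (hB : 0 ≤ B)
    (R M₁ m₀ v₀ : ℝ) (hR : 0 ≤ R) (hM₁ : 0 ≤ M₁) : ∃ M : ℝ, 0 ≤ M ∧ ∀ X : ℕ,
    ∀ c : ℕ → ℝ, (∀ n, |c n| ≤ R) → (∀ n, X < n → c n = 0) →
    |∑ p ∈ PP X, c p * (nu K p / p) - m₀ * Real.log (Real.log X)| ≤ M₁ →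
    |∑ p ∈ PP X, c p ^ 2 * (nu K p / p) - v₀ * Real.log (Real.log X)| ≤ M₁ →
    ∀ (b : Fin (Module.finrank ℚ K) → 𝓞 K), (∀ x : 𝓞 K, ∃ a : Fin (Module.finrank ℚ K) → ℤ, x = ∑ j, (a j : 𝓞 K) * b j) →
    ∀ (N : ι × Fin (Module.finrank ℚ K) → ℤ) (e : ι × Fin (Module.finrank ℚ K) ≃ Fin (Fintype.card (ι × Fin (Module.finrank ℚ K)))),
    ∀ val : HeightOneSpectrum (𝓞 K) → (ι → 𝓞 K) → ℝ, Loc2 K ι P₀ κ B val →
    ∀ g : ℕ → (Fin (Fintype.card (ι × Fin (Module.finrank ℚ K))) → ℕ) → ℝ,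
      (g = fun p n => Hw val b c p (fun i => ((N i + (n (e i) : ℤ) : ℤ) : ZMod p))) →
      (∀ p : ℕ, p.Prime → Pool.Agent.TH894.NE.Per p (g p)) ∧
      (∀ p : ℕ, p.Prime → ∀ n, |g p n| ≤ (Module.finrank ℚ K * B * R + 1) / Real.sqrt p) ∧
      |∑ p ∈ PP X, mean _ p (g p) - κ * m₀ * Real.log (Real.log X)| ≤ M ∧
      |∑ p ∈ PP X, Q282.LD.vr g p - v₀ * Real.log (Real.log X)| ≤ M := by
  classical
  obtain ⟨C₁, hC₁0, hC₁⟩ := Hw_mean (ι := ι) K P₀ κ B hB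
  obtain ⟨C₂, hC₂0, hC₂⟩ := Hw_mul (ι := ι) K P₀ κ B hB
  obtain ⟨C₀, hC₀0, hC₀⟩ := summ
  obtain ⟨D, hD⟩ : ∃ D : ℝ, D = Module.finrank ℚ K := ⟨_, rfl⟩
  have hD0 : 0 ≤ D := by rw [hD]; positivity
  obtain ⟨W, hW⟩ : ∃ W : ℝ, W = C₂ * R ^ 2 + (|κ| * D * R + C₁ * R) ^ 2 := ⟨_, rfl⟩
  have hW0 : 0 ≤ W := by rw [hW]; positivity
  obtain ⟨M, hM⟩ : ∃ M : ℝ, M = (C₁ * R * C₀ + |κ| * M₁) + (W * C₀ + M₁) := ⟨_, rfl⟩
  have hm1 : 0 ≤ C₁ * R * C₀ + |κ| * M₁ := by positivity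
  have hm2 : 0 ≤ W * C₀ + M₁ := by positivity
  have hM0 : 0 ≤ M := by rw [hM]; linarith
  refine ⟨M, hM0, ?_⟩
  intro X c hc hcX hsum1 hsum2 b hb N e val hloc g hg
  -- the means
  have hmean1 : ∀ p : ℕ, p.Prime → p ≤ X → |mean _ p (g p) - c p * (κ * (nu K p / p))| ≤ C₁ * R / (p : ℝ) ^ (3 / 2 : ℝ) := by
    intro p hp _
    have : Fact p.Prime := ⟨hp⟩
    rw [hg]
    show |mean _ p (fun n => Hw val b c p (fun i => ((N i + (n (e i) : ℤ) : ℤ) : ZMod p))) - c p * (κ * (nu K p / p))| ≤ _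
    rw [mean_av e p N (Hw val b c p)]
    exact hC₁ val hloc ⟨p, hp⟩ (Module.finrank ℚ K) b hb c R hR (fun f _ _ => hc _)
  have hmean2 : ∀ p : ℕ, p.Prime → p ≤ X → |mean _ p (fun n => g p n ^ 2) - c p ^ 2 * (nu K p / p)| ≤ C₂ * R ^ 2 / (p : ℝ) ^ (3 / 2 : ℝ) := by
    intro p hp _
    have : Fact p.Prime := ⟨hp⟩
    rw [hg]
    show |mean _ p (fun n => (fun u => Hw val b c p u ^ 2) (fun i => ((N i + (n (e i) : ℤ) : ℤ) : ZMod p))) - c p ^ 2 * (nu K p / p)| ≤ _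
    rw [mean_av e p N (fun u => Hw val b c p u ^ 2)]
    have h1 := hC₂ val hloc ⟨p, hp⟩ (Module.finrank ℚ K) b hb c c R hR (fun f _ _ => hc _) (fun f _ _ => hc _)
    have h3 : |av (fun u => Hw val b c p u * Hw val b c p u) - c p * c p * (nu K p / p)| ≤
      C₂ * R ^ 2 / (p : ℝ) ^ (3 / 2 : ℝ) := h1
    have h4 : (fun u => Hw val b c p u ^ 2) = fun u => Hw val b c p u * Hw val b c p u := by
      funext u
      ring
    rw [h4, sq]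
    exact h3
  have hvar : ∀ p : ℕ, p.Prime → p ≤ X → |Q282.LD.vr g p - c p ^ 2 * (nu K p / p)| ≤ W / (p : ℝ) ^ (3 / 2 : ℝ) := by
    intro p hp hpX
    have hp1 : (1 : ℝ) ≤ p := by exact_mod_cast hp.one_lt.le
    have hp0 : (0 : ℝ) < p := by linarith
    have hp32 : 0 < (p : ℝ) ^ (3 / 2 : ℝ) := by positivity
    have h32 : (p : ℝ) ≤ (p : ℝ) ^ (3 / 2 : ℝ) := norm_three hp1
    have h2 : (p : ℝ) ^ (3 / 2 : ℝ) ≤ (p : ℝ) ^ 2 := three_le hp1 le_rfl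
    have h3 := hmean2 p hp hpX
    have h4 := hmean1 p hp hpX
    obtain ⟨n1, n2⟩ := nu_le (K := K) ⟨p, hp⟩
    have hnu : |nu K p| ≤ D := by
      rw [hD]
      have : |nu K p| = nu K p := abs_of_nonneg n1
      rw [this]
      exact n2
    have h5 : |mean _ p (g p)| ≤ (|κ| * D * R + C₁ * R) / p := by
      have h6 := abs_add_le (mean _ p (g p) - c p * (κ * (nu K p / p))) (c p * (κ * (nu K p / p)))
      rw [sub_add_cancel] at h6
      have h7 : |c p * (κ * (nu K p / p))| ≤ |κ| * D * R / p := by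
        rw [abs_mul, abs_mul, abs_div, abs_of_pos hp0]
        calc |c p| * (|κ| * (|nu K p| / p)) ≤ R * (|κ| * (D / p)) :=
              mul_le_mul (hc p) (mul_le_mul_of_nonneg_left (div_le_div_of_nonneg_right hnu hp0.le) (abs_nonneg _)) (by positivity) hR
          _ = _ := by ring
      have h8 : C₁ * R / (p : ℝ) ^ (3 / 2 : ℝ) ≤ C₁ * R / p := div_le_div_of_nonneg_left (by positivity) hp0 h32
      rw [add_div]
      linarith
    have h6 : |mean _ p (g p) ^ 2| ≤ (|κ| * D * R + C₁ * R) ^ 2 / (p : ℝ) ^ (3 / 2 : ℝ) := by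
      rw [abs_pow]
      refine (pow_le_pow_left₀ (abs_nonneg _) h5 2).trans ?_
      rw [div_pow]
      exact div_le_div_of_nonneg_left (by positivity) hp32 h2
    unfold Q282.LD.vr
    have e1 : mean _ p (fun n => g p n ^ 2) - mean _ p (g p) ^ 2 - c p ^ 2 * (nu K p / p) =
      (mean _ p (fun n => g p n ^ 2) - c p ^ 2 * (nu K p / p)) - mean _ p (g p) ^ 2 := by ring
    rw [e1, hW, add_div]
    exact (abs_sub _ _).trans (add_le_add h3 h6)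
  have s1 := sum_close' hC₀ (B := C₁ * R) (by positivity) X (fun p => mean _ p (g p)) (fun p => c p * (κ * (nu K p / p))) hmean1
    (κ * m₀ * Real.log (Real.log X)) (|κ| * M₁) (by
      have e1 : ∑ p ∈ PP X, c p * (κ * (nu K p / p)) - κ * m₀ * Real.log (Real.log X) =
          κ * (∑ p ∈ PP X, c p * (nu K p / p) - m₀ * Real.log (Real.log X)) := by
        rw [mul_sub, mul_sum]
        congr 1
        · exact sum_congr rfl fun p _ => by ring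
        · ring
      rw [e1, abs_mul]
      exact mul_le_mul_of_nonneg_left hsum1 (abs_nonneg _))
  have s2 := sum_close' hC₀ (B := W) hW0 X (fun p => Q282.LD.vr g p) (fun p => c p ^ 2 * (nu K p / p)) hvar
    (v₀ * Real.log (Real.log X)) M₁ hsum2
  refine ⟨fun p hp n => ?_, fun p hp n => ?_, s1.trans (by rw [hM]; linarith), s2.trans (by rw [hM]; linarith)⟩
  · have h2 : (fun i => ((N i + (n (e i) : ℤ) : ℤ) : ZMod p)) = fun i => ((N i + (((fun i => n i % p) (e i) : ℕ) : ℤ) : ℤ) : ZMod p) := by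
      funext i
      rw [Int.cast_add, Int.cast_add, Int.cast_natCast, Int.cast_natCast, ZMod.natCast_mod]
    rw [hg]
    show Hw val b c p _ = Hw val b c p _
    rw [h2]
  · rw [hg]
    have h2 := Hw_le hloc hB b c p hp hR (fun f _ _ => hc _) (fun i => ((N i + (n (e i) : ℤ) : ℤ) : ZMod p))
    exact h2.trans (div_le_div_of_nonneg_right (by linarith) (Real.sqrt_nonneg _))

/-- large deviations of the weighted sums of local values over the primes of norm at most `X` -/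
theorem ldp_wt (K : Type) [Field K] [NumberField K] (ι : Type) [Fintype ι] [DecidableEq ι] (P₀ : ℕ) (κ B : ℝ) (hB : 0 ≤ B)
    (R M₁ m₀ : ℝ) (hR : 0 ≤ R) (hM₁ : 0 ≤ M₁) (y ε : ℝ) (hy : 0 ≤ y) (hε : 0 < ε) :
    ∃ X₁ : ℕ, ∀ X : ℕ, X₁ ≤ X → ∀ T : ℝ, (X : ℝ) ^ ((Real.log (Real.log X)) ^ 3) ≤ T →
    ∀ c : ℕ → ℝ, (∀ n, |c n| ≤ R) → (∀ n, X < n → c n = 0) →
    |∑ p ∈ PP X, c p * (nu K p / p) - m₀ * Real.log (Real.log X)| ≤ M₁ →
    |∑ p ∈ PP X, c p ^ 2 * (nu K p / p) - Real.log (Real.log X)| ≤ M₁ →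
    ∀ (b : Fin (Module.finrank ℚ K) → 𝓞 K), (∀ x : 𝓞 K, ∃ a : Fin (Module.finrank ℚ K) → ℤ, x = ∑ j, (a j : 𝓞 K) * b j) →
    ∀ (N : ι × Fin (Module.finrank ℚ K) → ℤ) (L : ι × Fin (Module.finrank ℚ K) → ℕ), (∀ i, T ≤ L i) →
    ∀ val : HeightOneSpectrum (𝓞 K) → (ι → 𝓞 K) → ℝ, Loc2 K ι P₀ κ B val →
    ∀ E : Finset (ι × Fin (Module.finrank ℚ K) → ℤ),
      (∀ n, n ∈ E ↔ n ∈ kbox N L ∧ (κ * m₀ + y) * Real.log (Real.log X) ≤ ∑ v ∈ SX K X, c (Ideal.absNorm v.asIdeal) * val v (comb b n)) →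
      Real.exp (-((y ^ 2 / 2 + ε) * Real.log (Real.log X))) * ∏ i, (L i : ℝ) ≤ (E.card : ℝ) ∧
      (E.card : ℝ) ≤ Real.exp (-((y ^ 2 / 2 - ε) * Real.log (Real.log X))) * ∏ i, (L i : ℝ) := by
  classical
  obtain ⟨M, hM0, hM⟩ := nf_dat K ι P₀ κ B hB R M₁ m₀ 1 hR hM₁
  obtain ⟨e⟩ : Nonempty (ι × Fin (Module.finrank ℚ K) ≃ Fin (Fintype.card (ι × Fin (Module.finrank ℚ K)))) := ⟨Fintype.equivFin _⟩
  obtain ⟨X₁, h⟩ := Q282.LD.ldp_bx (Fintype.card (ι × Fin (Module.finrank ℚ K))) (Module.finrank ℚ K * B * R + 1) M (κ * m₀) y ε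
    (by positivity) hM0 hy hε
  refine ⟨X₁, ?_⟩
  intro X hX T hT c hc hcX hsum1 hsum2 b hb N L hL val hloc E hE
  obtain ⟨g, hg⟩ : ∃ g : ℕ → (Fin (Fintype.card (ι × Fin (Module.finrank ℚ K))) → ℕ) → ℝ, g = fun p n =>
      Hw val b c p (fun i => ((N i + (n (e i) : ℤ) : ℤ) : ZMod p)) := ⟨_, rfl⟩
  obtain ⟨g1, g2, g3, g4⟩ := hM X c hc hcX hsum1 (by rw [one_mul]; exact hsum2) b hb N e val hloc g hg
  rw [one_mul] at g4
  have h1 := h X hX T hT (fun k => L (e.symm k)) (fun k => hL _) g g1 g2 g3 g4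
  have h2 : ∏ k, (L k : ℝ) = ∏ k : Fin (Fintype.card (ι × Fin (Module.finrank ℚ K))), (L (e.symm k) : ℝ) :=
    Fintype.prod_equiv e _ _ fun k => by rw [Equiv.symm_apply_apply]
  have h3 : E = (kbox N L).filter fun n => (κ * m₀ + y) * Real.log (Real.log X) ≤ ∑ p ∈ PP X, Hw val b c p (fun k => (n k : ZMod p)) := by
    ext n
    rw [hE, mem_filter, sum_Hw hloc b c X hcX n]
  have h4 : E.card = ((bx (fun k => L (e.symm k))).filter fun n => (κ * m₀ + y) * Real.log (Real.log X) ≤ ∑ p ∈ PP X, g p n).card := by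
    rw [h3, kbox_card_filter e N L, hg]
  rw [h2, h4]
  exact h1

lemma cY_le (X n : ℕ) : |cY X n| ≤ 1 := by
  unfold Q282.JB.cY
  split_ifs <;> simp

/-- large deviations of the sums of local values over the primes of norm at most `X` -/
theorem ldp_loc (K : Type) [Field K] [NumberField K] (ι : Type) [Fintype ι] [DecidableEq ι] (P₀ : ℕ) (κ B : ℝ) (hB : 0 ≤ B)
    (y ε : ℝ) (hy : 0 ≤ y) (hε : 0 < ε) :
    ∃ X₁ : ℕ, ∀ X : ℕ, X₁ ≤ X → ∀ T : ℝ, (X : ℝ) ^ ((Real.log (Real.log X)) ^ 3) ≤ T →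
    ∀ (b : Fin (Module.finrank ℚ K) → 𝓞 K), (∀ x : 𝓞 K, ∃ a : Fin (Module.finrank ℚ K) → ℤ, x = ∑ j, (a j : 𝓞 K) * b j) →
    ∀ (N : ι × Fin (Module.finrank ℚ K) → ℤ) (L : ι × Fin (Module.finrank ℚ K) → ℕ), (∀ i, T ≤ L i) →
    ∀ val : HeightOneSpectrum (𝓞 K) → (ι → 𝓞 K) → ℝ, Loc2 K ι P₀ κ B val →
    ∀ E : Finset (ι × Fin (Module.finrank ℚ K) → ℤ),
      (∀ n, n ∈ E ↔ n ∈ kbox N L ∧ (κ + y) * Real.log (Real.log X) ≤ ∑ v ∈ SX K X, val v (comb b n)) →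
      Real.exp (-((y ^ 2 / 2 + ε) * Real.log (Real.log X))) * ∏ i, (L i : ℝ) ≤ (E.card : ℝ) ∧
      (E.card : ℝ) ≤ Real.exp (-((y ^ 2 / 2 - ε) * Real.log (Real.log X))) * ∏ i, (L i : ℝ) := by
  obtain ⟨M₀, hM₀0, hM₀⟩ := nu_sum K
  obtain ⟨X₁, h⟩ := ldp_wt K ι P₀ κ B hB 1 M₀ 1 zero_le_one hM₀0 y ε hy hε
  refine ⟨max 3 X₁, ?_⟩
  intro X hX T hT b hb N L hL val hloc E hE
  have hX3 : 3 ≤ X := (le_max_left _ _).trans hX
  have hc1 : ∀ p, p ≤ X → cY X p = 1 := fun p hp => if_pos hp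
  have hs1 : ∑ p ∈ PP X, cY X p * (nu K p / p) = ∑ p ∈ PP X, nu K p / p := by
    refine sum_congr rfl fun p hp => ?_
    rw [hc1 p (mem_Icc.1 (mem_filter.1 hp).1).2, one_mul]
  have hs2 : ∑ p ∈ PP X, cY X p ^ 2 * (nu K p / p) = ∑ p ∈ PP X, nu K p / p := by
    refine sum_congr rfl fun p hp => ?_
    rw [hc1 p (mem_Icc.1 (mem_filter.1 hp).1).2, one_pow, one_mul]
  refine h X ((le_max_right _ _).trans hX) T hT (cY X) (cY_le X) (fun n hn => if_neg (not_le.2 hn)) (by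
    rw [hs1, one_mul]
    exact hM₀ X hX3) (by
    rw [hs2]
    exact hM₀ X hX3) b hb N L hL val hloc E fun n => ?_
  rw [hE, mul_one]
  have h4 : ∑ v ∈ SX K X, val v (comb b n) = ∑ v ∈ SX K X, cY X (Ideal.absNorm v.asIdeal) * val v (comb b n) := by
    refine sum_congr rfl fun v hv => ?_
    rw [hc1 _ (mem_SX.1 hv), one_mul]
  rw [h4]

/-- large deviations in both directions -/
theorem ldp_loc2 (K : Type) [Field K] [NumberField K] (ι : Type) [Fintype ι] [DecidableEq ι] (P₀ : ℕ) (κ B : ℝ) (hB : 0 ≤ B)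
    (y ε : ℝ) (hy : 0 ≤ y) (hε : 0 < ε) :
    ∃ X₁ : ℕ, ∀ X : ℕ, X₁ ≤ X → ∀ T : ℝ, (X : ℝ) ^ ((Real.log (Real.log X)) ^ 3) ≤ T →
    ∀ (b : Fin (Module.finrank ℚ K) → 𝓞 K), (∀ x : 𝓞 K, ∃ a : Fin (Module.finrank ℚ K) → ℤ, x = ∑ j, (a j : 𝓞 K) * b j) →
    ∀ (N : ι × Fin (Module.finrank ℚ K) → ℤ) (L : ι × Fin (Module.finrank ℚ K) → ℕ), (∀ i, T ≤ L i) →
    ∀ val : HeightOneSpectrum (𝓞 K) → (ι → 𝓞 K) → ℝ, Loc2 K ι P₀ κ B val → ∀ σ : ℝ, (σ = 1 ∨ σ = -1) →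
    ∀ E : Finset (ι × Fin (Module.finrank ℚ K) → ℤ),
      (∀ n, n ∈ E ↔ n ∈ kbox N L ∧ (σ * κ + y) * Real.log (Real.log X) ≤ σ * ∑ v ∈ SX K X, val v (comb b n)) →
      Real.exp (-((y ^ 2 / 2 + ε) * Real.log (Real.log X))) * ∏ i, (L i : ℝ) ≤ (E.card : ℝ) ∧
      (E.card : ℝ) ≤ Real.exp (-((y ^ 2 / 2 - ε) * Real.log (Real.log X))) * ∏ i, (L i : ℝ) := by
  obtain ⟨Xa, ha⟩ := ldp_loc K ι P₀ κ B hB y ε hy hε
  obtain ⟨Xb, hb'⟩ := ldp_loc K ι P₀ (-κ) B hB y ε hy hε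
  refine ⟨max Xa Xb, ?_⟩
  intro X hX T hT b hb N L hL val hloc σ hσ E hE
  rcases hσ with rfl | rfl
  · refine ha X ((le_max_left _ _).trans hX) T hT b hb N L hL val hloc E fun n => ?_
    rw [hE, one_mul, one_mul]
  · refine hb' X ((le_max_right _ _).trans hX) T hT b hb N L hL (fun v t => -val v t) (loc2_neg hloc) E fun n => ?_
    rw [hE, sum_neg_distrib, neg_one_mul, neg_one_mul]

end Q69.LJ
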