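import Pool.Agent.Q69.LJ.Exp
import Pool.Agent.Q282.LD.Bx
import Pool.Agent.Q282.LD.Main

/-!
# Exponential moments of sums of periodic functions over boxes
-/

set_option autoImplicit false
set_option linter.unusedSectionVars false

namespace Q69.LJ

open Finset Filter
open Q282.CL Q282.LD
open Q282.BP (bx mem_bx card_bx PP loglog_tendsto)
open Pool.Agent.TH894.NE (box mem_box card_box Per mean mean_mul mean_mono mean_add mean_const)

lemma sum_inv_sqrt (X : ℕ) : ∑ p ∈ PP X, 1 / Real.sqrt p ≤ 2 * Real.sqrt X := by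
  have h1 : ∑ n ∈ Icc 1 X, 1 / Real.sqrt n ≤ 2 * Real.sqrt X := by
    induction X with
    | zero => simp
    | succ X ih =>
      rw [sum_Icc_succ_top (by omega)]
      have h2 : 1 / Real.sqrt ((X + 1 : ℕ) : ℝ) ≤ 2 * (Real.sqrt ((X + 1 : ℕ) : ℝ) - Real.sqrt X) := by
        have hs1 : 0 < Real.sqrt ((X + 1 : ℕ) : ℝ) := Real.sqrt_pos.2 (by positivity)
        have hs0 : 0 ≤ Real.sqrt (X : ℝ) := Real.sqrt_nonneg _
        have hle : Real.sqrt (X : ℝ) ≤ Real.sqrt ((X + 1 : ℕ) : ℝ) := Real.sqrt_le_sqrt (by push_cast; linarith)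
        have e1 : Real.sqrt ((X + 1 : ℕ) : ℝ) * Real.sqrt ((X + 1 : ℕ) : ℝ) = X + 1 := by
          rw [Real.mul_self_sqrt (by positivity)]
          push_cast
          ring
        have e2 : Real.sqrt (X : ℝ) * Real.sqrt (X : ℝ) = X := Real.mul_self_sqrt (by positivity)
        rw [div_le_iff₀ hs1]
        nlinarith [sq_nonneg (Real.sqrt ((X + 1 : ℕ) : ℝ) - Real.sqrt X)]
      have h3 := add_le_add ih h2
      refine h3.trans (le_of_eq ?_)
      ring
  refine le_trans (sum_le_sum_of_subset_of_nonneg (filter_subset _ _) fun n _ _ => by positivity) h1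

section

variable {d : ℕ} {g : ℕ → (Fin d → ℕ) → ℝ} {B : ℝ}

lemma zc_neg' {p : ℕ} : zc (fun p n => -g p n) p = fun n : Fin d → ℕ => -zc g p n := by
  funext n
  unfold zc
  have h : mean d p (fun n => -g p n) = -mean d p (g p) := by
    have := mean_mul (d := d) (q := p) (-1) (g p)
    have e : (fun n => -g p n) = fun n => (-1) * g p n := by
      funext n
      ring
    rw [e, this]
    ring
  rw [h]
  ring

lemma vr_neg' {p : ℕ} : vr (fun p n => -g p n) p = vr (d := d) g p := by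
  unfold vr
  have h : mean d p (fun n => -g p n) = -mean d p (g p) := by
    have := mean_mul (d := d) (q := p) (-1) (g p)
    have e : (fun n => -g p n) = fun n => (-1) * g p n := by
      funext n
      ring
    rw [e, this]
    ring
  have e2 : (fun n => (-g p n) ^ 2) = fun n => g p n ^ 2 := by
    funext n
    ring
  rw [h, e2]
  ring

lemma exp_low' {C₀ : ℝ} (hC₀ : ∀ S : Finset ℕ, (∀ p ∈ S, p.Prime) → ∑ p ∈ S, 1 / (Real.sqrt p) ^ 3 ≤ C₀) (hB : 0 < B) (X : ℕ)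
    (hgB : ∀ p : ℕ, p.Prime → ∀ n, |g p n| ≤ B / Real.sqrt p) (l : ℝ) :
    Real.exp (l ^ 2 / 2 * ∑ p ∈ PP X, vr g p - C₀ * ((2 * |l| * B) ^ 3 * Real.exp (2 * |l| * B) + (2 * |l| * B) ^ 4)) ≤
    av (fun ω : ∀ p : PP X, box d p => Real.exp (l * ∑ p : PP X, zc g p (ω p))) := by
  rcases le_total 0 l with h | h
  · rw [abs_of_nonneg h]
    exact exp_low hC₀ hB X hgB h
  · rw [abs_of_nonpos h]
    have h1 := exp_low (g := fun p n => -g p n) hC₀ hB X (fun p hp n => by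
      rw [abs_neg]
      exact hgB p hp n) (l := -l) (by linarith)
    have e1 : (fun ω : ∀ p : PP X, box d p => Real.exp (-l * ∑ p : PP X, zc (fun p n => -g p n) p (ω p))) =
        fun ω => Real.exp (l * ∑ p : PP X, zc g p (ω p)) := by
      funext ω
      have e2 : ∑ p : PP X, zc (fun p n => -g p n) p (ω p) = -∑ p : PP X, zc g p (ω p) := by
        rw [← sum_neg_distrib]
        exact sum_congr rfl fun p _ => by rw [zc_neg']
      rw [e2]
      congr 1
      ring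
    rw [e1] at h1
    have e3 : ∑ p ∈ PP X, vr (fun p n => -g p n) p = ∑ p ∈ PP X, vr g p := sum_congr rfl fun p _ => vr_neg'
    rw [e3, neg_sq] at h1
    exact h1

end

/-- **Exponential moments** of sums of periodic functions over boxes. -/
theorem mom_bx (d : ℕ) (B M κ₀ v₀ l : ℝ) (hB : 0 < B) (hM : 0 ≤ M) (hv₀ : 0 ≤ v₀) : ∃ C : ℝ, 0 ≤ C ∧ ∃ X₁ : ℕ, ∀ X : ℕ, X₁ ≤ X →
    ∀ T : ℝ, Real.exp (Real.sqrt X * Real.log X ^ 2) ≤ T → ∀ L : Fin d → ℕ, (∀ i, T ≤ L i) →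
    ∀ g : ℕ → (Fin d → ℕ) → ℝ, (∀ p : ℕ, p.Prime → Per p (g p)) → (∀ p : ℕ, p.Prime → ∀ n, |g p n| ≤ B / Real.sqrt p) →
    |∑ p ∈ PP X, mean d p (g p) - κ₀ * Real.log (Real.log X)| ≤ M → |∑ p ∈ PP X, vr g p - v₀ * Real.log (Real.log X)| ≤ M →
    Real.exp ((l * κ₀ + l ^ 2 / 2 * v₀) * Real.log (Real.log X) - C) * ∏ i, (L i : ℝ) ≤ ∑ n ∈ bx L, Real.exp (l * ∑ p ∈ PP X, g p n) ∧
    ∑ n ∈ bx L, Real.exp (l * ∑ p ∈ PP X, g p n) ≤
      Real.exp ((l * κ₀ + l ^ 2 / 2 * v₀) * Real.log (Real.log X) + C) * ∏ i, (L i : ℝ) := by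
  classical
  obtain ⟨C₀, hC₀0, hC₀⟩ := summ
  obtain ⟨E, hE⟩ : ∃ E : ℝ, E = l ^ 2 / 2 * M + C₀ * ((2 * |l| * B) ^ 3 * Real.exp (2 * |l| * B)) +
    C₀ * ((2 * |l| * B) ^ 3 * Real.exp (2 * |l| * B) + (2 * |l| * B) ^ 4) := ⟨_, rfl⟩
  have hE1 : 0 ≤ C₀ * ((2 * |l| * B) ^ 3 * Real.exp (2 * |l| * B)) := by positivity
  have hE2 : 0 ≤ C₀ * ((2 * |l| * B) ^ 3 * Real.exp (2 * |l| * B) + (2 * |l| * B) ^ 4) := by positivity
  have hE3 : 0 ≤ l ^ 2 / 2 * M := by positivity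
  have hE0 : 0 ≤ E := by rw [hE]; positivity
  refine ⟨E + 1 + |l| * M, by positivity, ?_⟩
  -- the range of the sums
  obtain ⟨r, hr⟩ : ∃ r : ℝ, r = Real.exp 2 * (|l| * (4 * B)) := ⟨_, rfl⟩
  have hr0 : 0 ≤ r := by rw [hr]; positivity
  obtain ⟨C, hC⟩ : ∃ C : ℝ, C = max 1 (2 * B) := ⟨_, rfl⟩
  have hC1 : 1 ≤ C := by rw [hC]; exact le_max_left _ _
  have hBC : 2 * B ≤ C := by rw [hC]; exact le_max_right _ _
  have a0 : ∀ c : ℝ, ∀ᶠ X : ℕ in atTop, c ≤ Real.log X :=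
    fun c => (Real.tendsto_log_atTop.comp tendsto_natCast_atTop_atTop).eventually_ge_atTop c
  have a1 : ∀ c : ℝ, ∀ᶠ X : ℕ in atTop, c ≤ (X : ℝ) := fun c => tendsto_natCast_atTop_atTop.eventually_ge_atTop c
  have key := ((a0 (16 * (r + 3) + 17)).and (a1 (max 16 ((E + 3) ^ 2)))).and (((a1 C).and (a1 (2 * d))).and (a1 (2 * (1 + |l|))))
  obtain ⟨X₁, hX₁⟩ := eventually_atTop.1 key
  refine ⟨X₁, ?_⟩
  intro X hX T hT L hL g hgP hgB hmean hvar
  obtain ⟨⟨b1, b2⟩, ⟨d1, d2⟩, d3⟩ := hX₁ X hX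
  clear hX₁ key a0 a1
  obtain ⟨b2, b3⟩ := max_le_iff.1 b2
  have hX16 : 16 ≤ X := by exact_mod_cast b2
  have hX1 : (1 : ℝ) ≤ X := by linarith
  have hX0 : (0 : ℝ) < X := by linarith
  obtain ⟨V, hV⟩ : ∃ V : ℝ, V = Real.log (Real.log X) := ⟨_, rfl⟩
  rw [← hV] at hmean hvar ⊢
  have hV0 : 0 ≤ V := by
    rw [hV]
    refine Real.log_nonneg ?_
    linarith
  obtain ⟨w, hw⟩ : ∃ w : ℝ, w = Real.sqrt X := ⟨_, rfl⟩
  have hw1 : 1 ≤ w := by
    rw [hw]
    exact Real.one_le_sqrt.2 hX1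
  have hwE : E + 3 ≤ w := by
    rw [hw]
    exact Real.le_sqrt_of_sq_le b3
  -- the number N
  obtain ⟨N, hN⟩ : ∃ N : ℕ, N = ⌈r * w + w⌉₊ := ⟨_, rfl⟩
  have hNge : r * w + w ≤ N := by
    rw [hN]
    exact Nat.le_ceil _
  have hNle : (N : ℝ) ≤ r * w + w + 1 := by
    rw [hN]
    exact (Nat.ceil_lt_add_one (by positivity)).le
  have hwN : w ≤ N := by
    have : 0 ≤ r * w := by positivity
    linarith
  have hTpow : (X : ℝ) ^ (16 * N + 1) ≤ T := by
    refine le_trans ?_ hT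
    have e1 : (X : ℝ) ^ (16 * N + 1) = Real.exp (((16 * N + 1 : ℕ) : ℝ) * Real.log X) := by
      rw [Real.exp_nat_mul, Real.exp_log hX0]
    rw [e1]
    refine Real.exp_le_exp.2 ?_
    rw [← hw, sq, ← mul_assoc]
    refine mul_le_mul_of_nonneg_right ?_ (by linarith)
    push_cast
    have h1 : w * (16 * (r + 3) + 17) ≤ w * Real.log X := mul_le_mul_of_nonneg_left b1 (by linarith)
    have h2 : w * (16 * (r + 3) + 17) = 16 * (r * w + w) + 49 * w := by ring
    linarith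
  have hT0 : 0 < T := lt_of_lt_of_le (by positivity) hTpow
  have hL0 : ∀ i, 0 < L i := fun i => by
    have : (0 : ℝ) < L i := hT0.trans_le (hL i)
    exact_mod_cast this
  have hneL : Nonempty (bx L) := bx_nonempty hL0
  have hP0 : 0 < ∏ i, (L i : ℝ) := prod_pos fun i _ => by exact_mod_cast hL0 i
  have hprime : ∀ p ∈ PP X, p.Prime := fun p hp => (mem_filter.1 hp).2
  have hne : ∀ p : PP X, Nonempty (box d p) := box_nonempty hprime
  have hgC : ∀ p : ℕ, p.Prime → ∀ n, |zc g p n| ≤ C := by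
    intro p hp n
    refine (zc_le hp (hgB p hp) n).trans (le_trans ?_ hBC)
    refine div_le_self (by positivity) ?_
    rw [Real.one_le_sqrt]
    exact_mod_cast hp.one_lt.le
  have hclose := close (d := d) (g := g) X N (by omega) hgP hC1 hgC hT0 hL
  obtain ⟨η, hη⟩ : ∃ η : ℝ, η = C ^ (4 * N) * (Real.exp (d * (X : ℝ) ^ (4 * N) / T) - 1) := ⟨_, rfl⟩
  have hη0 : 0 ≤ η := by
    rw [hη]
    refine mul_nonneg (by positivity) ?_
    have : 0 ≤ (d : ℝ) * (X : ℝ) ^ (4 * N) / T := by positivity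
    linarith [Real.one_le_exp this]
  rw [← hη] at hclose
  have hcard : (Fintype.card (PP X) : ℝ) ≤ X := by
    rw [Fintype.card_coe]
    have h1 : (PP X).card ≤ X := by
      refine (card_filter_le _ _).trans ?_
      rw [Nat.card_Icc]
      omega
    exact_mod_cast h1
  -- the range
  have hrange : ∀ y : ∀ p : PP X, ℝ, (∀ p : PP X, |y p| ≤ 2 * B / Real.sqrt (p : ℕ)) → |l * ∑ p : PP X, y p| ≤ |l| * (4 * B) * w := by
    intro y hy
    rw [abs_mul, mul_assoc]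
    refine mul_le_mul_of_nonneg_left ?_ (abs_nonneg _)
    calc |∑ p : PP X, y p| ≤ ∑ p : PP X, 2 * B / Real.sqrt (p : ℕ) := (abs_sum_le_sum_abs _ _).trans (sum_le_sum fun p _ => hy p)
      _ = ∑ p ∈ PP X, 2 * B / Real.sqrt p := Finset.sum_coe_sort (PP X) (fun p => 2 * B / Real.sqrt p)
      _ = 2 * B * ∑ p ∈ PP X, 1 / Real.sqrt p := by
          rw [mul_sum]
          exact sum_congr rfl fun p _ => by rw [mul_one_div]
      _ ≤ 2 * B * (2 * w) := by
          rw [hw]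
          exact mul_le_mul_of_nonneg_left (sum_inv_sqrt X) (by positivity)
      _ = _ := by ring
  have htr := exp_transfer (α := bx L) (ι := PP X) (Ω := fun p : PP X => box d p) (fun p n => zc g p n) (fun p n => zc g p n)
    (η := η) (c := X) (R := |l| * (4 * B) * w) (l := l) (n := 4 * N) hη0 hcard (by
      push_cast
      have h1 : Real.exp 2 * (|l| * (4 * B) * w) = r * w := by
        rw [hr]
        ring
      rw [h1]
      linarith) hclose
    (fun n => hrange (fun p => zc g p n) fun p => zc_le (hprime p p.2) (hgB p (hprime p p.2)) _)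
    (fun ω => hrange (fun p => zc g p (ω p)) fun p => zc_le (hprime p p.2) (hgB p (hprime p p.2)) _)
  -- the error
  have herr : 4 * Real.exp (-((4 * N : ℕ) : ℝ)) + (1 + |l| * X) ^ (4 * N) * η ≤ Real.exp (-E) / 4 := by
    have h1 : (2 * (1 + |l| * X)) ^ (4 * N) * η ≤ 1 := by
      rw [hη]
      refine err_one (by omega) hC1 d1 d2 hTpow (by positivity) ?_
      have h2 : 2 * (1 + |l| * X) ≤ 2 * (1 + |l|) * X := by
        have : 2 * (1 + |l|) * (X : ℝ) = 2 * X + 2 * (|l| * X) := by ring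
        linarith
      calc 2 * (1 + |l| * X) ≤ 2 * (1 + |l|) * X := h2
        _ ≤ X * X := mul_le_mul_of_nonneg_right d3 (by linarith)
        _ = _ := (sq _).symm
    rw [mul_pow, mul_assoc] at h1
    have h2 : (1 + |l| * X) ^ (4 * N) * η ≤ Real.exp (-N) := by
      have h3 : Real.exp N ≤ 2 ^ (4 * N) := by
        have h4 : Real.exp (N : ℝ) = Real.exp 1 ^ N := by
          rw [← Real.exp_nat_mul, mul_one]
        rw [h4, pow_mul]
        refine pow_le_pow_left₀ (Real.exp_pos _).le ?_ N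
        have := Real.exp_one_lt_three
        norm_num
        linarith
      have h5 : 0 ≤ (1 + |l| * X) ^ (4 * N) * η := by positivity
      have h6 := mul_le_mul_of_nonneg_right h3 h5
      have h7 : Real.exp (N : ℝ) * ((1 + |l| * X) ^ (4 * N) * η) ≤ 1 := h6.trans h1
      rw [Real.exp_neg, ← one_div, le_div_iff₀ (Real.exp_pos _), mul_comm]
      exact h7
    have h3 : Real.exp (-((4 * N : ℕ) : ℝ)) ≤ Real.exp (-N) := by
      refine Real.exp_le_exp.2 ?_
      push_cast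
      have : (0 : ℝ) ≤ N := Nat.cast_nonneg _
      linarith
    have h4 : Real.exp (-(N : ℝ)) ≤ Real.exp (-E) / 20 := by
      have h5 : Real.exp (-(N : ℝ)) ≤ Real.exp (-E - 3) := Real.exp_le_exp.2 (by linarith)
      refine h5.trans ?_
      rw [sub_eq_add_neg, Real.exp_add, div_eq_mul_inv]
      refine mul_le_mul_of_nonneg_left ?_ (Real.exp_pos _).le
      rw [Real.exp_neg]
      exact inv_anti₀ (by norm_num) exp_three
    linarith
  -- the model
  have hv := abs_le.1 hvar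
  have hup : av (fun ω : ∀ p : PP X, box d p => Real.exp (l * ∑ p : PP X, zc g p (ω p))) ≤ Real.exp (l ^ 2 / 2 * v₀ * V + E) := by
    refine (exp_up hC₀ hB X hgB (le_refl |l|)).trans (Real.exp_le_exp.2 ?_)
    have h1 : l ^ 2 / 2 * ∑ p ∈ PP X, vr g p ≤ l ^ 2 / 2 * (v₀ * V + M) := mul_le_mul_of_nonneg_left (by linarith) (by positivity)
    rw [hE]
    linarith
  have hlow : Real.exp (l ^ 2 / 2 * v₀ * V - E) ≤ av (fun ω : ∀ p : PP X, box d p => Real.exp (l * ∑ p : PP X, zc g p (ω p))) := by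
    refine le_trans (Real.exp_le_exp.2 ?_) (exp_low' hC₀ hB X hgB l)
    have h1 : l ^ 2 / 2 * (v₀ * V - M) ≤ l ^ 2 / 2 * ∑ p ∈ PP X, vr g p := mul_le_mul_of_nonneg_left (by linarith) (by positivity)
    rw [hE]
    linarith
  obtain ⟨m, hm⟩ : ∃ m : ℝ, m = av (fun n : bx L => Real.exp (l * ∑ p : PP X, zc g p n)) := ⟨_, rfl⟩
  rw [← hm] at htr
  have htr2 := abs_le.1 (htr.trans herr)
  have hlv : 0 ≤ l ^ 2 / 2 * v₀ * V := by positivity
  have hm1 : m ≤ Real.exp (l ^ 2 / 2 * v₀ * V + (E + 1)) := by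
    have h1 : Real.exp (-E) / 4 ≤ Real.exp (l ^ 2 / 2 * v₀ * V + E) := by
      have h2 : Real.exp (-E) ≤ Real.exp (l ^ 2 / 2 * v₀ * V + E) := Real.exp_le_exp.2 (by linarith)
      have := Real.exp_pos (-E)
      linarith
    have h3 : 2 * Real.exp (l ^ 2 / 2 * v₀ * V + E) ≤ Real.exp (l ^ 2 / 2 * v₀ * V + (E + 1)) := by
      rw [← add_assoc, Real.exp_add _ (1 : ℝ), mul_comm]
      refine mul_le_mul_of_nonneg_left ?_ (Real.exp_pos _).le
      have := Real.add_one_le_exp (1 : ℝ)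
      linarith
    linarith [htr2.2]
  have hm2 : Real.exp (l ^ 2 / 2 * v₀ * V - (E + 1)) ≤ m := by
    have h1 : Real.exp (-E) ≤ Real.exp (l ^ 2 / 2 * v₀ * V - E) := Real.exp_le_exp.2 (by linarith)
    have h3 : 2 * Real.exp (l ^ 2 / 2 * v₀ * V - (E + 1)) ≤ Real.exp (l ^ 2 / 2 * v₀ * V - E) := by
      have e1 : l ^ 2 / 2 * v₀ * V - E = l ^ 2 / 2 * v₀ * V - (E + 1) + 1 := by ring
      rw [e1, Real.exp_add, mul_comm]
      refine mul_le_mul_of_nonneg_left ?_ (Real.exp_pos _).le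
      have := Real.add_one_le_exp (1 : ℝ)
      linarith
    have h4 := Real.exp_pos (l ^ 2 / 2 * v₀ * V - (E + 1))
    linarith [htr2.1]
  -- the uncentred sums
  have hsplit : ∀ n : Fin d → ℕ, Real.exp (l * ∑ p ∈ PP X, g p n) =
      Real.exp (l * ∑ p ∈ PP X, mean d p (g p)) * Real.exp (l * ∑ p : PP X, zc g p n) := by
    intro n
    rw [← Real.exp_add, ← mul_add]
    congr 2
    rw [Finset.sum_coe_sort (PP X) (fun p => zc g p n), ← sum_add_distrib]
    refine sum_congr rfl fun p _ => ?_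
    unfold zc
    ring
  have hsum : ∑ n ∈ bx L, Real.exp (l * ∑ p ∈ PP X, g p n) = Real.exp (l * ∑ p ∈ PP X, mean d p (g p)) * m * ∏ i, (L i : ℝ) := by
    rw [sum_congr rfl fun n _ => hsplit n, ← mul_sum, hm, av_bx L (fun n => Real.exp (l * ∑ p : PP X, zc g p n)), mul_assoc,
      div_mul_cancel₀ _ hP0.ne']
  have hmn : |l * ∑ p ∈ PP X, mean d p (g p) - l * κ₀ * V| ≤ |l| * M := by
    have e1 : l * ∑ p ∈ PP X, mean d p (g p) - l * κ₀ * V = l * (∑ p ∈ PP X, mean d p (g p) - κ₀ * V) := by ring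
    rw [e1, abs_mul]
    exact mul_le_mul_of_nonneg_left hmean (abs_nonneg _)
  have hmn2 := abs_le.1 hmn
  rw [hsum]
  constructor
  · refine mul_le_mul_of_nonneg_right ?_ hP0.le
    have e1 : (l * κ₀ + l ^ 2 / 2 * v₀) * V - (E + 1 + |l| * M) = (l * κ₀ * V - |l| * M) + (l ^ 2 / 2 * v₀ * V - (E + 1)) := by ring
    rw [e1, Real.exp_add]
    exact mul_le_mul (Real.exp_le_exp.2 (by linarith)) hm2 (Real.exp_pos _).le (Real.exp_pos _).le
  · refine mul_le_mul_of_nonneg_right ?_ hP0.le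
    have e1 : (l * κ₀ + l ^ 2 / 2 * v₀) * V + (E + 1 + |l| * M) = (l * κ₀ * V + |l| * M) + (l ^ 2 / 2 * v₀ * V + (E + 1)) := by ring
    rw [e1, Real.exp_add]
    refine mul_le_mul (Real.exp_le_exp.2 (by linarith)) hm1 ?_ (Real.exp_pos _).le
    exact (Real.exp_pos _).le.trans hm2

end Q69.LJ
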