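import Pool.Agent.Q69.LJ.MomT
import Pool.Agent.Q69.LJ.Lin
import Pool.Agent.Q69.LJ.PrC

/-!
# Joint moments of several sums of local values, and of the constituents of products of curves
-/

set_option autoImplicit false
set_option linter.unusedSectionVars false

namespace Q69.LJ

open Finset NumberField IsDedekindDomain Filter Polynomial
open Q282.NF Q282.GK Q282.MN Q282.JK Q282.PX Q282.MJ
open Q282.BP (PP)
open Q282.JB (cY)

open Classical in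
/-- joint moments -/
theorem mom_joint (K : Type) [Field K] [NumberField K] (ι : Type) [Fintype ι] [DecidableEq ι] {J : Type} [Fintype J] (j₀ : J) (P₀ : ℕ)
    (κ : J → ℝ) (B : ℝ) (hB : 0 ≤ B)
    (val : J → HeightOneSpectrum (𝓞 K) → (ι → 𝓞 K) → ℝ) (hloc1 : ∀ j, Loc2 K ι P₀ (κ j) B (val j))
    (hloc2 : ∀ j k, j ≠ k → Loc2 K ι P₀ ((κ j + κ k) / Real.sqrt 2) B (fun v t => (val j v t + val k v t) / Real.sqrt 2))
    (Ok : (ι → 𝓞 K) → Prop) (hex : Few K ι Ok) (l : J → ℝ) :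
    ∃ C : ℝ, 0 ≤ C ∧ ∃ X₁ : ℕ, 16 ≤ X₁ ∧ ∀ X : ℕ, X₁ ≤ X → ∀ T : ℝ, Real.exp (Real.sqrt X * Real.log X ^ 2) ≤ T →
    ∀ (b : Fin (Module.finrank ℚ K) → 𝓞 K), (∀ x : 𝓞 K, ∃ a : Fin (Module.finrank ℚ K) → ℤ, x = ∑ j, (a j : 𝓞 K) * b j) →
    ∀ (N : ι × Fin (Module.finrank ℚ K) → ℤ) (L : ι × Fin (Module.finrank ℚ K) → ℕ), (∀ k, T ≤ L k) →
      Real.exp ((∑ j, l j * κ j + (∑ j, l j ^ 2) / 2) * Real.log (Real.log X) - C) * ∏ k, (L k : ℝ) ≤
        ∑ n ∈ (kbox N L).filter (fun n => Ok (comb b n)), Real.exp (∑ j, l j * ∑ v ∈ SX K X, val j v (comb b n)) ∧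
      ∑ n ∈ kbox N L, Real.exp (∑ j, l j * ∑ v ∈ SX K X, val j v (comb b n)) ≤
        Real.exp ((∑ j, l j * κ j + (∑ j, l j ^ 2) / 2) * Real.log (Real.log X) + C) * ∏ k, (L k : ℝ) := by
  obtain ⟨ρ, u, hρ0, hu, hρu⟩ : ∃ (ρ : ℝ) (u : J → ℝ), 0 ≤ ρ ∧ ∑ j, u j ^ 2 = 1 ∧ ∀ j, l j = ρ * u j := by
    by_cases h0 : ∑ j, l j ^ 2 = 0
    · refine ⟨0, fun j => if j = j₀ then 1 else 0, le_rfl, ?_, fun j => ?_⟩
      · rw [sum_eq_single j₀]
        · simp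
        · intro j _ hj
          simp [hj]
        · intro h
          exact absurd (mem_univ _) h
      · have h1 := (sum_eq_zero_iff_of_nonneg (fun j _ => sq_nonneg (l j))).1 h0 j (mem_univ j)
        rw [zero_mul]
        exact pow_eq_zero_iff (two_ne_zero) |>.1 h1
    · have h1 : 0 < ∑ j, l j ^ 2 := lt_of_le_of_ne (sum_nonneg fun j _ => sq_nonneg _) (Ne.symm h0)
      obtain ⟨ρ, hρ⟩ : ∃ ρ : ℝ, ρ = Real.sqrt (∑ j, l j ^ 2) := ⟨_, rfl⟩
      have hρ0 : 0 < ρ := by rw [hρ]; exact Real.sqrt_pos.2 h1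
      have hρ2 : ρ ^ 2 = ∑ j, l j ^ 2 := by rw [hρ, Real.sq_sqrt h1.le]
      refine ⟨ρ, fun j => l j / ρ, hρ0.le, ?_, fun j => by rw [mul_div_cancel₀ _ hρ0.ne']⟩
      simp only [div_pow]
      rw [← sum_div, ← hρ2, div_self (by positivity)]
  have hl := loc2_lin hB hloc1 hloc2 u hu
  have hB' : 0 ≤ (∑ j, |u j|) * B + (∑ j, |u j|) ^ 2 * (2 * B) := by positivity
  obtain ⟨M, hM0, hM⟩ := nu_sum K
  obtain ⟨C, hC, X₁, hX₁, h⟩ := mom_exc K ι P₀ (∑ j, u j * κ j) _ hB' ρ ((ρ + ρ ^ 2) * M) ρ (ρ ^ 2) hρ0 (by positivity) (by positivity) Ok hex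
  refine ⟨C, hC, X₁, hX₁, ?_⟩
  intro X hX T hT b hb N L hL
  have hX16 : 16 ≤ X := hX₁.trans hX
  have hsum := hM X (by omega)
  have hcY : ∀ p ∈ PP X, cY X p = 1 := fun p hp => if_pos (mem_Icc.1 (mem_filter.1 hp).1).2
  have h1 := h X hX T hT (fun n => ρ * cY X n) (fun n => by
      rw [abs_mul, abs_of_nonneg hρ0]
      calc ρ * |cY X n| ≤ ρ * 1 := mul_le_mul_of_nonneg_left (cY_le _ _) hρ0
        _ = _ := mul_one _) (fun n hn => by
      have : cY X n = 0 := if_neg (not_le.2 hn)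
      show ρ * cY X n = 0
      rw [this, mul_zero]) (by
      have e1 : ∑ p ∈ PP X, ρ * cY X p * (nu K p / p) - ρ * Real.log (Real.log X) = ρ * (∑ p ∈ PP X, nu K p / p - Real.log (Real.log X)) := by
        rw [mul_sub, mul_sum]
        congr 1
        exact sum_congr rfl fun p hp => by rw [hcY p hp, mul_one]
      rw [e1, abs_mul, abs_of_nonneg hρ0]
      have h2 := mul_le_mul_of_nonneg_left hsum hρ0
      have h3 : 0 ≤ ρ ^ 2 * M := by positivity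
      have h4 : (ρ + ρ ^ 2) * M = ρ * M + ρ ^ 2 * M := by ring
      linarith) (by
      have e1 : ∑ p ∈ PP X, (ρ * cY X p) ^ 2 * (nu K p / p) - ρ ^ 2 * Real.log (Real.log X) =
          ρ ^ 2 * (∑ p ∈ PP X, nu K p / p - Real.log (Real.log X)) := by
        rw [mul_sub, mul_sum]
        congr 1
        exact sum_congr rfl fun p hp => by rw [hcY p hp, mul_one]
      rw [e1, abs_mul, abs_of_nonneg (sq_nonneg ρ)]
      have h2 := mul_le_mul_of_nonneg_left hsum (sq_nonneg ρ)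
      have h3 : 0 ≤ ρ * M := by positivity
      have h4 : (ρ + ρ ^ 2) * M = ρ * M + ρ ^ 2 * M := by ring
      linarith) b hb N L hL _ hl
  have e1 : ∀ n : ι × Fin (Module.finrank ℚ K) → ℤ, ∑ v ∈ SX K X, ρ * cY X (Ideal.absNorm v.asIdeal) * ∑ j, u j * val j v (comb b n) =
      ∑ j, l j * ∑ v ∈ SX K X, val j v (comb b n) := by
    intro n
    have e2 : ∀ v ∈ SX K X, ρ * cY X (Ideal.absNorm v.asIdeal) * ∑ j, u j * val j v (comb b n) = ∑ j, l j * val j v (comb b n) := by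
      intro v hv
      have : cY X (Ideal.absNorm v.asIdeal) = 1 := if_pos (mem_SX.1 hv)
      rw [this, mul_one, mul_sum]
      exact sum_congr rfl fun j _ => by rw [hρu j]; ring
    rw [sum_congr rfl e2, sum_comm]
    exact sum_congr rfl fun j _ => by rw [mul_sum]
  have e3 : (∑ j, u j * κ j) * ρ + ρ ^ 2 / 2 = ∑ j, l j * κ j + (∑ j, l j ^ 2) / 2 := by
    have e4 : ∑ j, l j * κ j = (∑ j, u j * κ j) * ρ := by
      rw [sum_mul]
      exact sum_congr rfl fun j _ => by rw [hρu j]; ring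
    have e5 : ∑ j, l j ^ 2 = ρ ^ 2 := by
      have : ∀ j, l j ^ 2 = ρ ^ 2 * u j ^ 2 := fun j => by rw [hρu j]; ring
      rw [sum_congr rfl fun j _ => this j, ← mul_sum, hu, mul_one]
    rw [e4, e5]
  simp only [e1] at h1
  rw [e3] at h1
  exact h1

open Classical in
/-- joint moments of the products of the constituents -/
theorem mom_C (K : Type) [Field K] [NumberField K] (n : ℕ) (hn : 1 ≤ n) (g r : Fin n → ℕ) (hg : ∀ j, 1 ≤ g j)
    (hr : ∀ j, r j ≤ g j) (l : {S : Finset (Fin n) // Odd S.card} → ℝ) :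
    ∃ C : ℝ, 0 ≤ C ∧ ∃ X₁ : ℕ, 16 ≤ X₁ ∧ ∀ X : ℕ, X₁ ≤ X → ∀ T : ℝ, Real.exp (Real.sqrt X * Real.log X ^ 2) ≤ T →
    ∀ (b : Fin (Module.finrank ℚ K) → 𝓞 K), (∀ x : 𝓞 K, ∃ a : Fin (Module.finrank ℚ K) → ℤ, x = ∑ j, (a j : 𝓞 K) * b j) →
    ∀ (N : Ix g r × Fin (Module.finrank ℚ K) → ℤ) (L : Ix g r × Fin (Module.finrank ℚ K) → ℕ), (∀ k, T ≤ L k) →
      Real.exp ((∑ S, l S * kS r S.1 + (∑ S, l S ^ 2) / 2) * Real.log (Real.log X) - C) * ∏ k, (L k : ℝ) ≤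
        ∑ ν ∈ (kbox N L).filter (fun ν => ∀ j, Ok K (r := r j) (m := 2 * g j + 1 - r j) (fun i => comb b ν ⟨j, i⟩)),
          ∏ S, productS (fj (comb b ν)) S.1 X ^ l S ∧
      ∑ ν ∈ kbox N L, ∏ S, productS (fj (comb b ν)) S.1 X ^ l S ≤
        Real.exp ((∑ S, l S * kS r S.1 + (∑ S, l S ^ 2) / 2) * Real.log (Real.log X) + C) * ∏ k, (L k : ℝ) := by
  obtain ⟨B, hB, hl1, hl2⟩ := loc_S K n g r hg hr
  have hne : ∀ S : {S : Finset (Fin n) // Odd S.card}, S.1.Nonempty := fun S => card_pos.1 S.2.pos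
  obtain ⟨C, hC, X₁, hX₁, h⟩ := mom_joint K (Ix g r) (J := {S : Finset (Fin n) // Odd S.card}) ⟨{⟨0, hn⟩}, by simp⟩ 3 (fun S => kS r S.1) B hB.le
    (fun S v t => valC {cS S.1} (fj t) v) (fun S => hl1 S.1 (hne S))
    (fun S S' hSS => hl2 S.1 S'.1 (hne S) (hne S') fun h => hSS (Subtype.ext h))
    (fun t => ∀ j, Ok K (r := r j) (m := 2 * g j + 1 - r j) (fun i => t ⟨j, i⟩)) (few_all K n g r hg hr) l
  refine ⟨C, hC, X₁, hX₁, ?_⟩
  intro X hX T hT b hb N L hL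
  have h1 := h X hX T hT b hb N L hL
  have h2 : ∀ ν : Ix g r × Fin (Module.finrank ℚ K) → ℤ, ∏ S : {S : Finset (Fin n) // Odd S.card}, productS (fj (comb b ν)) S.1 X ^ l S =
      Real.exp (∑ S : {S : Finset (Fin n) // Odd S.card}, l S * ∑ v ∈ SX K X, valC {cS S.1} (fj (comb b ν)) v) := by
    intro ν
    rw [Real.exp_sum]
    refine prod_congr rfl fun S _ => ?_
    obtain ⟨h3, h4⟩ := log_productS (fj (comb b ν)) S.1 S.2 X
    rw [Real.rpow_def_of_pos h3, h4, mul_comm]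
  simp only [h2]
  convert h1

end Q69.LJ
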