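import Pool.Agent.Q69.LJ.MomB
import Pool.Agent.Q69.LJ.Gen

/-!
# Exponential moments of weighted sums of local values over the primes of a number field
-/

set_option autoImplicit false
set_option linter.unusedSectionVars false

namespace Q69.LJ

open Finset NumberField IsDedekindDomain Filter
open Q282.NF Q282.GK Q282.MN
open Q282.BP (PP bx mem_bx)
open Pool.Agent.H921R2.TatePole (below deg nm nm_eq)
open Pool.Agent.TH894.NE (Per mean)

lemma kbox_sum {κ : Type} [Fintype κ] [DecidableEq κ] {d : ℕ} (e : κ ≃ Fin d) (N : κ → ℤ) (L : κ → ℕ) (F : (κ → ℤ) → ℝ) :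
    ∑ n ∈ kbox N L, F n = ∑ n ∈ bx (fun k => L (e.symm k)), F (fun i => N i + (n (e i) : ℤ)) := by
  symm
  refine sum_bij (fun n _ => fun i => N i + (n (e i) : ℤ)) ?_ ?_ ?_ ?_
  · intro n hn
    rw [mem_bx] at hn
    unfold kbox
    rw [Fintype.mem_piFinset]
    intro i
    have := hn (e i)
    rw [Equiv.symm_apply_apply] at this
    rw [mem_Ico]
    constructor
    · linarith [Int.natCast_nonneg (n (e i))]
    · have : (n (e i) : ℤ) < L i := by exact_mod_cast this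
      linarith
  · intro n _ n' _ h
    funext k
    have h1 := congrFun h (e.symm k)
    simp only [Equiv.apply_symm_apply] at h1
    have h2 : (n k : ℤ) = n' k := by linarith
    exact_mod_cast h2
  · intro n hn
    unfold kbox at hn
    rw [Fintype.mem_piFinset] at hn
    refine ⟨fun k => (n (e.symm k) - N (e.symm k)).toNat, ?_, ?_⟩
    · rw [mem_bx]
      intro k
      have := hn (e.symm k)
      rw [mem_Ico] at this
      omega
    · funext i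
      have := hn i
      rw [mem_Ico] at this
      show N i + (((n (e.symm (e i)) - N (e.symm (e i))).toNat : ℕ) : ℤ) = n i
      rw [Equiv.symm_apply_apply, Int.toNat_of_nonneg (by linarith)]
      ring
  · intro n _
    rfl

/-- exponential moments of weighted sums of local values -/
theorem mom_wt (K : Type) [Field K] [NumberField K] (ι : Type) [Fintype ι] [DecidableEq ι] (P₀ : ℕ) (κ B : ℝ) (hB : 0 ≤ B)
    (R M₁ m₀ v₀ : ℝ) (hR : 0 ≤ R) (hM₁ : 0 ≤ M₁) (hv₀ : 0 ≤ v₀) :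
    ∃ C : ℝ, 0 ≤ C ∧ ∃ X₁ : ℕ, ∀ X : ℕ, X₁ ≤ X → ∀ T : ℝ, Real.exp (Real.sqrt X * Real.log X ^ 2) ≤ T →
    ∀ c : ℕ → ℝ, (∀ n, |c n| ≤ R) → (∀ n, X < n → c n = 0) →
    |∑ p ∈ PP X, c p * (nu K p / p) - m₀ * Real.log (Real.log X)| ≤ M₁ →
    |∑ p ∈ PP X, c p ^ 2 * (nu K p / p) - v₀ * Real.log (Real.log X)| ≤ M₁ →
    ∀ (b : Fin (Module.finrank ℚ K) → 𝓞 K), (∀ x : 𝓞 K, ∃ a : Fin (Module.finrank ℚ K) → ℤ, x = ∑ j, (a j : 𝓞 K) * b j) →
    ∀ (N : ι × Fin (Module.finrank ℚ K) → ℤ) (L : ι × Fin (Module.finrank ℚ K) → ℕ), (∀ i, T ≤ L i) →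
    ∀ val : HeightOneSpectrum (𝓞 K) → (ι → 𝓞 K) → ℝ, Loc2 K ι P₀ κ B val →
      Real.exp ((κ * m₀ + v₀ / 2) * Real.log (Real.log X) - C) * ∏ i, (L i : ℝ) ≤
        ∑ n ∈ kbox N L, Real.exp (∑ v ∈ SX K X, c (Ideal.absNorm v.asIdeal) * val v (comb b n)) ∧
      ∑ n ∈ kbox N L, Real.exp (∑ v ∈ SX K X, c (Ideal.absNorm v.asIdeal) * val v (comb b n)) ≤
        Real.exp ((κ * m₀ + v₀ / 2) * Real.log (Real.log X) + C) * ∏ i, (L i : ℝ) := by
  classical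
  obtain ⟨M, hM0, hM⟩ := nf_dat K ι P₀ κ B hB R M₁ m₀ v₀ hR hM₁
  obtain ⟨e⟩ : Nonempty (ι × Fin (Module.finrank ℚ K) ≃ Fin (Fintype.card (ι × Fin (Module.finrank ℚ K)))) := ⟨Fintype.equivFin _⟩
  obtain ⟨C, hC, X₁, h⟩ := mom_bx (Fintype.card (ι × Fin (Module.finrank ℚ K))) (Module.finrank ℚ K * B * R + 1) M (κ * m₀) v₀ 1
    (by positivity) hM0 hv₀
  refine ⟨C, hC, X₁, ?_⟩
  intro X hX T hT c hc hcX hsum1 hsum2 b hb N L hL val hloc
  obtain ⟨g, hg⟩ : ∃ g : ℕ → (Fin (Fintype.card (ι × Fin (Module.finrank ℚ K))) → ℕ) → ℝ, g = fun p n =>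
      Hw val b c p (fun i => ((N i + (n (e i) : ℤ) : ℤ) : ZMod p)) := ⟨_, rfl⟩
  obtain ⟨g1, g2, g3, g4⟩ := hM X c hc hcX hsum1 hsum2 b hb N e val hloc g hg
  have h1 := h X hX T hT (fun k => L (e.symm k)) (fun k => hL _) g g1 g2 g3 g4
  have h2 : ∏ k, (L k : ℝ) = ∏ k : Fin (Fintype.card (ι × Fin (Module.finrank ℚ K))), (L (e.symm k) : ℝ) :=
    Fintype.prod_equiv e _ _ fun k => by rw [Equiv.symm_apply_apply]
  have h3 : ∑ n ∈ kbox N L, Real.exp (∑ v ∈ SX K X, c (Ideal.absNorm v.asIdeal) * val v (comb b n)) =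
      ∑ n ∈ bx (fun k => L (e.symm k)), Real.exp (1 * ∑ p ∈ PP X, g p n) := by
    rw [kbox_sum e N L]
    refine sum_congr rfl fun n _ => ?_
    rw [sum_Hw hloc b c X hcX, one_mul, hg]
  have e1 : 1 * (κ * m₀) + (1 : ℝ) ^ 2 / 2 * v₀ = κ * m₀ + v₀ / 2 := by ring
  rw [e1] at h1
  rw [h2, h3]
  exact h1

lemma loglog_cube : ∃ X₁ : ℕ, ∀ X : ℕ, X₁ ≤ X →
    Real.exp (Real.log (Real.log X) ^ 3 * Real.exp (Real.log (Real.log X))) ≤ Real.exp (Real.sqrt X * Real.log X ^ 2) := by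
  refine ⟨max 16 (36 ^ 6), fun X hX => Real.exp_le_exp.2 ?_⟩
  rw [max_le_iff] at hX
  have hX16 : (16 : ℝ) ≤ X := by exact_mod_cast hX.1
  have hX36 : (36 : ℝ) ^ 6 ≤ X := by exact_mod_cast hX.2
  have hl1 := one_lt_log X hX.1
  have hX0 : (0 : ℝ) ≤ X := by linarith
  rw [Real.exp_log (by linarith)]
  obtain ⟨t, ht⟩ : ∃ t : ℝ, t = (X : ℝ) ^ (1 / 6 : ℝ) := ⟨_, rfl⟩
  have ht6 : t ^ 6 = X := by
    rw [ht, ← Real.rpow_natCast, ← Real.rpow_mul hX0]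
    norm_num
  have ht0 : 0 ≤ t := by rw [ht]; positivity
  have ht36 : 36 ≤ t := by
    by_contra h
    push Not at h
    have := pow_lt_pow_left₀ h ht0 (by norm_num : (6 : ℕ) ≠ 0)
    rw [ht6] at this
    linarith
  have hlog : Real.log X ≤ 6 * t := by
    have := Real.log_le_rpow_div hX0 (by norm_num : (0 : ℝ) < 1 / 6)
    rw [← ht] at this
    linarith
  have hV : Real.log (Real.log X) ≤ Real.log X := by
    have := Real.log_le_sub_one_of_pos (by linarith : 0 < Real.log X)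
    linarith
  have hV0 : 0 ≤ Real.log (Real.log X) := loglog_nonneg X hX.1
  have hsq : Real.sqrt X = t ^ 3 := by
    rw [← ht6]
    have : t ^ 6 = (t ^ 3) ^ 2 := by ring
    rw [this, Real.sqrt_sq (by positivity)]
  rw [hsq]
  have h1 : Real.log (Real.log X) ^ 3 ≤ (6 * t) ^ 2 * Real.log X := by
    have h2 : Real.log (Real.log X) ^ 3 ≤ Real.log X ^ 3 := pow_le_pow_left₀ hV0 hV 3
    have h3 : Real.log X ^ 3 = Real.log X ^ 2 * Real.log X := by ring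
    rw [h3] at h2
    exact h2.trans (mul_le_mul_of_nonneg_right (pow_le_pow_left₀ (by linarith) hlog 2) (by linarith))
  have h2 : (6 * t) ^ 2 ≤ t ^ 3 := by
    have : t ^ 3 = t * t ^ 2 := by ring
    rw [mul_pow, this]
    exact mul_le_mul_of_nonneg_right (by linarith) (sq_nonneg t)
  calc Real.log (Real.log X) ^ 3 * Real.log X ≤ ((6 * t) ^ 2 * Real.log X) * Real.log X := mul_le_mul_of_nonneg_right h1 (by linarith)
    _ ≤ (t ^ 3 * Real.log X) * Real.log X := mul_le_mul_of_nonneg_right (mul_le_mul_of_nonneg_right h2 (by linarith)) (by linarith)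
    _ = _ := by ring

open Classical in
/-- exponential moments with exceptions -/
theorem mom_exc (K : Type) [Field K] [NumberField K] (ι : Type) [Fintype ι] [DecidableEq ι] (P₀ : ℕ) (κ B : ℝ) (hB : 0 ≤ B)
    (R M₁ m₀ v₀ : ℝ) (hR : 0 ≤ R) (hM₁ : 0 ≤ M₁) (hv₀ : 0 ≤ v₀) (Ok : (ι → 𝓞 K) → Prop) (hex : Few K ι Ok) :
    ∃ C : ℝ, 0 ≤ C ∧ ∃ X₁ : ℕ, 16 ≤ X₁ ∧ ∀ X : ℕ, X₁ ≤ X → ∀ T : ℝ, Real.exp (Real.sqrt X * Real.log X ^ 2) ≤ T →
    ∀ c : ℕ → ℝ, (∀ n, |c n| ≤ R) → (∀ n, X < n → c n = 0) →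
    |∑ p ∈ PP X, c p * (nu K p / p) - m₀ * Real.log (Real.log X)| ≤ M₁ →
    |∑ p ∈ PP X, c p ^ 2 * (nu K p / p) - v₀ * Real.log (Real.log X)| ≤ M₁ →
    ∀ (b : Fin (Module.finrank ℚ K) → 𝓞 K), (∀ x : 𝓞 K, ∃ a : Fin (Module.finrank ℚ K) → ℤ, x = ∑ j, (a j : 𝓞 K) * b j) →
    ∀ (N : ι × Fin (Module.finrank ℚ K) → ℤ) (L : ι × Fin (Module.finrank ℚ K) → ℕ), (∀ i, T ≤ L i) →
    ∀ val : HeightOneSpectrum (𝓞 K) → (ι → 𝓞 K) → ℝ, Loc2 K ι P₀ κ B val →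
      Real.exp ((κ * m₀ + v₀ / 2) * Real.log (Real.log X) - C) * ∏ i, (L i : ℝ) ≤
        ∑ n ∈ (kbox N L).filter (fun n => Ok (comb b n)), Real.exp (∑ v ∈ SX K X, c (Ideal.absNorm v.asIdeal) * val v (comb b n)) ∧
      ∑ n ∈ kbox N L, Real.exp (∑ v ∈ SX K X, c (Ideal.absNorm v.asIdeal) * val v (comb b n)) ≤
        Real.exp ((κ * m₀ + v₀ / 2) * Real.log (Real.log X) + C) * ∏ i, (L i : ℝ) := by
  obtain ⟨C₁, hC₁, X₁, h1⟩ := mom_wt K ι P₀ κ B hB R M₁ m₀ v₀ hR hM₁ hv₀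
  obtain ⟨C₂, hC₂, X₂, h2⟩ := mom_wt K ι P₀ κ B hB (2 * R) (4 * M₁) (2 * m₀) (4 * v₀) (by positivity) (by positivity) (by positivity)
  obtain ⟨C₃, hC₃, V₀, h3⟩ := hex (v₀ + 2) (by positivity)
  obtain ⟨X₄, h4⟩ := loglog_large (max V₀ (C₁ + C₂ / 2 + C₃ + 2))
  obtain ⟨X₅, h5⟩ := loglog_cube
  refine ⟨C₁ + 1, by positivity, max 16 (max (max X₁ X₂) (max X₄ X₅)), le_max_left _ _, ?_⟩
  intro X hX T hT c hc hcX hsum1 hsum2 b hb N L hL val hloc
  rw [max_le_iff, max_le_iff, max_le_iff, max_le_iff] at hX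
  obtain ⟨hX16, ⟨hX1, hX2⟩, hX4, hX5⟩ := hX
  have g1 := h1 X hX1 T hT c hc hcX hsum1 hsum2 b hb N L hL val hloc
  have g2 := (h2 X hX2 T hT (fun n => 2 * c n) (fun n => by
      rw [abs_mul, abs_two]
      exact mul_le_mul_of_nonneg_left (hc n) zero_le_two) (fun n hn => by
      show 2 * c n = 0
      rw [hcX n hn, mul_zero]) (by
      have e1 : ∑ p ∈ PP X, 2 * c p * (nu K p / p) - 2 * m₀ * Real.log (Real.log X) =
          2 * (∑ p ∈ PP X, c p * (nu K p / p) - m₀ * Real.log (Real.log X)) := by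
        rw [mul_sub, mul_sum]
        congr 1
        · exact sum_congr rfl fun p _ => by ring
        · ring
      rw [e1, abs_mul, abs_two]
      linarith) (by
      have e1 : ∑ p ∈ PP X, (2 * c p) ^ 2 * (nu K p / p) - 4 * v₀ * Real.log (Real.log X) =
          4 * (∑ p ∈ PP X, c p ^ 2 * (nu K p / p) - v₀ * Real.log (Real.log X)) := by
        rw [mul_sub, mul_sum]
        congr 1
        · exact sum_congr rfl fun p _ => by ring
        · ring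
      rw [e1, abs_mul]
      have : |(4 : ℝ)| = 4 := abs_of_pos (by norm_num)
      rw [this]
      linarith) b hb N L hL val hloc).2
  obtain ⟨V, hV⟩ : ∃ V : ℝ, V = Real.log (Real.log X) := ⟨_, rfl⟩
  have hVV := h4 X hX4
  have hT' := (h5 X hX5).trans hT
  rw [← hV] at g1 g2 hVV hT' ⊢
  obtain ⟨hV1, hV2⟩ := max_le_iff.1 hVV
  have g3 := h3 V hV1 b hb N L T hT' hL
  have hP0 : 0 ≤ ∏ k, (L k : ℝ) := prod_nonneg fun k _ => Nat.cast_nonneg _
  obtain ⟨P, hP⟩ : ∃ P : ℝ, P = ∏ k, (L k : ℝ) := ⟨_, rfl⟩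
  obtain ⟨S, hS⟩ : ∃ S : (ι × Fin (Module.finrank ℚ K) → ℤ) → ℝ, S = fun n =>
    ∑ v ∈ SX K X, c (Ideal.absNorm v.asIdeal) * val v (comb b n) := ⟨_, rfl⟩
  have hS2 : ∀ n, ∑ v ∈ SX K X, 2 * c (Ideal.absNorm v.asIdeal) * val v (comb b n) = 2 * S n := by
    intro n
    rw [hS, mul_sum]
    exact sum_congr rfl fun v _ => by ring
  simp only [hS2] at g2
  rw [← hP] at g1 g2 g3 hP0 ⊢
  have g1' : Real.exp ((κ * m₀ + v₀ / 2) * V - C₁) * P ≤ ∑ n ∈ kbox N L, Real.exp (S n) ∧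
      ∑ n ∈ kbox N L, Real.exp (S n) ≤ Real.exp ((κ * m₀ + v₀ / 2) * V + C₁) * P := by
    rw [hS]
    exact g1
  show Real.exp ((κ * m₀ + v₀ / 2) * V - (C₁ + 1)) * P ≤ ∑ n ∈ (kbox N L).filter (fun n => Ok (comb b n)), Real.exp (∑ v ∈ SX K X, c (Ideal.absNorm v.asIdeal) * val v (comb b n)) ∧
      ∑ n ∈ kbox N L, Real.exp (∑ v ∈ SX K X, c (Ideal.absNorm v.asIdeal) * val v (comb b n)) ≤ Real.exp ((κ * m₀ + v₀ / 2) * V + (C₁ + 1)) * P
  have e0 : ∀ n, ∑ v ∈ SX K X, c (Ideal.absNorm v.asIdeal) * val v (comb b n) = S n := fun n => by rw [hS]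
  simp only [e0]
  constructor
  · -- the exceptions
    obtain ⟨Bad, hBad⟩ : ∃ Bad : ℝ, Bad = ∑ n ∈ (kbox N L).filter (fun n => ¬ Ok (comb b n)), Real.exp (S n) := ⟨_, rfl⟩
    have hBad0 : 0 ≤ Bad := by rw [hBad]; exact sum_nonneg fun n _ => (Real.exp_pos _).le
    have hsplit : ∑ n ∈ (kbox N L).filter (fun n => Ok (comb b n)), Real.exp (S n) = ∑ n ∈ kbox N L, Real.exp (S n) - Bad := by
      rw [hBad, eq_sub_iff_add_eq]
      exact sum_filter_add_sum_filter_not _ _ _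
    have hcs : Bad ^ 2 ≤ (C₃ * (Real.exp (-((v₀ + 2) * V)) * P)) * (Real.exp ((κ * (2 * m₀) + 4 * v₀ / 2) * V + C₂) * P) := by
      have h6 := sum_mul_sq_le_sq_mul_sq ((kbox N L).filter (fun n => ¬ Ok (comb b n))) (fun _ => (1 : ℝ)) (fun n => Real.exp (S n))
      simp only [one_mul, one_pow, sum_const, nsmul_eq_mul, mul_one] at h6
      rw [← hBad] at h6
      refine h6.trans (mul_le_mul g3 ?_ (sum_nonneg fun n _ => sq_nonneg _) (by positivity))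
      refine le_trans (sum_le_sum_of_subset_of_nonneg (filter_subset _ _) fun n _ _ => sq_nonneg _) ?_
      refine le_trans (le_of_eq (sum_congr rfl fun n _ => ?_)) g2
      rw [← Real.exp_nat_mul]
      norm_num
    have h7 : (C₃ * (Real.exp (-((v₀ + 2) * V)) * P)) * (Real.exp ((κ * (2 * m₀) + 4 * v₀ / 2) * V + C₂) * P) ≤
        (Real.exp ((κ * m₀ + v₀ / 2) * V - (C₁ + 1)) * P) ^ 2 := by
      have h8 : C₃ ≤ Real.exp C₃ := by
        have := Real.add_one_le_exp C₃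
        linarith
      have h9 : (C₃ * (Real.exp (-((v₀ + 2) * V)) * P)) * (Real.exp ((κ * (2 * m₀) + 4 * v₀ / 2) * V + C₂) * P) =
          C₃ * (Real.exp (-((v₀ + 2) * V)) * Real.exp ((κ * (2 * m₀) + 4 * v₀ / 2) * V + C₂)) * P ^ 2 := by ring
      rw [h9, mul_pow]
      refine mul_le_mul_of_nonneg_right ?_ (sq_nonneg P)
      rw [← Real.exp_add, ← Real.exp_nat_mul]
      calc C₃ * Real.exp (-((v₀ + 2) * V) + ((κ * (2 * m₀) + 4 * v₀ / 2) * V + C₂)) ≤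
            Real.exp C₃ * Real.exp (-((v₀ + 2) * V) + ((κ * (2 * m₀) + 4 * v₀ / 2) * V + C₂)) :=
            mul_le_mul_of_nonneg_right h8 (Real.exp_pos _).le
        _ ≤ _ := by
            rw [← Real.exp_add]
            refine Real.exp_le_exp.2 ?_
            push_cast
            have e1 : C₃ + (-((v₀ + 2) * V) + ((κ * (2 * m₀) + 4 * v₀ / 2) * V + C₂)) = 2 * ((κ * m₀ + v₀ / 2) * V) - 2 * V + C₂ + C₃ := by ring
            have e2 : 2 * ((κ * m₀ + v₀ / 2) * V - (C₁ + 1)) = 2 * ((κ * m₀ + v₀ / 2) * V) - 2 * C₁ - 2 := by ring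
            rw [e1, e2]
            linarith
    have h8 : Bad ≤ Real.exp ((κ * m₀ + v₀ / 2) * V - (C₁ + 1)) * P :=
      le_of_sq_le_sq (hcs.trans h7) (by positivity)
    have h9 : 2 * Real.exp ((κ * m₀ + v₀ / 2) * V - (C₁ + 1)) ≤ Real.exp ((κ * m₀ + v₀ / 2) * V - C₁) := by
      have e1 : (κ * m₀ + v₀ / 2) * V - C₁ = (κ * m₀ + v₀ / 2) * V - (C₁ + 1) + 1 := by ring
      rw [e1, Real.exp_add, mul_comm]
      refine mul_le_mul_of_nonneg_left ?_ (Real.exp_pos _).le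
      have := Real.add_one_le_exp (1 : ℝ)
      linarith
    have h10 := mul_le_mul_of_nonneg_right h9 hP0
    rw [hsplit]
    linarith [g1'.1]
  · refine g1'.2.trans (mul_le_mul_of_nonneg_right (Real.exp_le_exp.2 (by linarith)) hP0)

end Q69.LJ
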