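import Pool.Agent.Q69.LJ.Gen
import Pool.Agent.Q69.LJ.Vec

/-!
# Large deviations of the whole path of the sums of local values over the primes of a number field
-/

set_option autoImplicit false
set_option linter.unusedSectionVars false

namespace Q69.LJ

open Finset NumberField IsDedekindDomain Filter
open Q282.NF Q282.GK Q282.MN
open Q282.BP (PP)
open Q282.CL (tm tm_le tm_large)
open scoped RealInnerProductSpace

lemma swap_sum {J : Type} [Fintype J] (S : Finset ℕ) (w Δ : J → ℝ) (V : ℝ) (f : J → ℕ → ℝ) (ν : ℕ → ℝ) :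
    ∑ p ∈ S, (∑ i, w i * f i p) * ν p - (∑ i, w i * Δ i) * V = ∑ i, w i * (∑ p ∈ S, f i p * ν p - Δ i * V) := by
  have e1 : ∑ p ∈ S, (∑ i, w i * f i p) * ν p = ∑ i, w i * ∑ p ∈ S, f i p * ν p := by
    simp only [sum_mul, mul_sum]
    rw [sum_comm]
    exact sum_congr rfl fun i _ => sum_congr rfl fun p _ => by ring
  rw [e1, sum_mul, ← sum_sub_distrib]
  exact sum_congr rfl fun i _ => by ring

/-- the indicator of the block -/
noncomputable def blk (X : ℕ) (s s' : ℝ) (n : ℕ) : ℝ := if tm X s < n ∧ n ≤ tm X s' then 1 else 0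

lemma blk_le (X : ℕ) (s s' : ℝ) (n : ℕ) : |blk X s s' n| ≤ 1 := by
  unfold blk
  split_ifs <;> simp

lemma blk_sq (X : ℕ) (s s' : ℝ) (n : ℕ) : blk X s s' n * blk X s s' n = blk X s s' n := by
  unfold blk
  split_ifs <;> simp

lemma tm_mono {X : ℕ} (hX : 16 ≤ X) {s s' : ℝ} (h : s ≤ s') : tm X s ≤ tm X s' := by
  unfold Q282.CL.tm
  exact Nat.floor_le_floor (Real.exp_le_exp.2 (Real.rpow_le_rpow_of_exponent_le (one_lt_log X hX).le h))

lemma blk_disj {X : ℕ} (hX : 16 ≤ X) {s s' t t' : ℝ} (h : s' ≤ t ∨ t' ≤ s) (n : ℕ) : blk X s s' n * blk X t t' n = 0 := by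
  unfold blk
  by_cases h1 : tm X s < n ∧ n ≤ tm X s'
  · by_cases h2 : tm X t < n ∧ n ≤ tm X t'
    · exfalso
      rcases h with h | h
      · have := tm_mono hX h
        omega
      · have := tm_mono hX h
        omega
    · rw [if_neg h2, mul_zero]
  · rw [if_neg h1, zero_mul]

lemma tm_zero (X : ℕ) : tm X 0 = 2 := by
  unfold Q282.CL.tm
  rw [Real.rpow_zero]
  rw [Nat.floor_eq_iff (Real.exp_pos _).le]
  constructor
  · have := Real.exp_one_gt_d9
    push_cast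
    linarith
  · have := Real.exp_one_lt_three
    push_cast
    linarith

/-- the sums up to a time -/
lemma nu_time (K : Type) [Field K] [NumberField K] : ∃ M : ℝ, 0 ≤ M ∧ ∀ u : ℝ, 0 ≤ u → ∃ X₁ : ℕ, ∀ X : ℕ, X₁ ≤ X →
    |∑ p ∈ PP (tm X u), nu K p / p - u * Real.log (Real.log X)| ≤ M := by
  obtain ⟨M, hM0, hM⟩ := nu_sum K
  obtain ⟨D, hD⟩ : ∃ D : ℝ, D = ∑ p ∈ PP 2, nu K p / p := ⟨_, rfl⟩
  refine ⟨M + 1 + |D|, by positivity, fun u hu => ?_⟩
  rcases hu.eq_or_lt with rfl | hu0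
  · refine ⟨0, fun X _ => ?_⟩
    rw [tm_zero, zero_mul, sub_zero, ← hD]
    linarith
  · obtain ⟨X₁, h1⟩ := eventually_atTop.1 (tm_large hu0)
    refine ⟨X₁, fun X hX => ?_⟩
    obtain ⟨h2, h3⟩ := h1 X hX
    have h4 := hM _ h2
    have h5 := abs_add_le (∑ p ∈ PP (tm X u), nu K p / p - Real.log (Real.log (tm X u)))
      (Real.log (Real.log (tm X u)) - u * Real.log (Real.log X))
    rw [sub_add_sub_cancel] at h5
    have := abs_nonneg D
    linarith

/-- the sums over the blocks -/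
lemma nu_blk (K : Type) [Field K] [NumberField K] : ∃ M : ℝ, 0 ≤ M ∧ ∀ s s' : ℝ, 0 ≤ s → s < s' → s' ≤ 1 → ∃ X₁ : ℕ, 16 ≤ X₁ ∧
    ∀ X : ℕ, X₁ ≤ X → |∑ p ∈ PP X, blk X s s' p * (nu K p / p) - (s' - s) * Real.log (Real.log X)| ≤ M := by
  obtain ⟨M, hM0, key⟩ := nu_time K
  refine ⟨2 * M, by positivity, fun s s' hs hss hs1 => ?_⟩
  obtain ⟨Xa, ha⟩ := key s hs
  obtain ⟨Xb, hb⟩ := key s' (hs.trans hss.le)
  refine ⟨max 16 (max Xa Xb), le_max_left _ _, fun X hX => ?_⟩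
  rw [max_le_iff, max_le_iff] at hX
  obtain ⟨hX16, hXa, hXb⟩ := hX
  have h1 := ha X hXa
  have h2 := hb X hXb
  have hle := tm_mono hX16 hss.le
  have hle2 : tm X s' ≤ X := tm_le (by omega) hs1
  have h3 : ∑ p ∈ PP X, blk X s s' p * (nu K p / p) = ∑ p ∈ PP (tm X s'), nu K p / p - ∑ p ∈ PP (tm X s), nu K p / p := by
    have hsub1 : PP (tm X s) ⊆ PP (tm X s') := by
      intro p hp
      obtain ⟨h4, h5⟩ := mem_filter.1 hp
      rw [mem_Icc] at h4
      exact mem_filter.2 ⟨mem_Icc.2 ⟨h4.1, h4.2.trans hle⟩, h5⟩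
    have hsub2 : PP (tm X s') ⊆ PP X := by
      intro p hp
      obtain ⟨h4, h5⟩ := mem_filter.1 hp
      rw [mem_Icc] at h4
      exact mem_filter.2 ⟨mem_Icc.2 ⟨h4.1, h4.2.trans hle2⟩, h5⟩
    rw [← sum_sdiff hsub1, add_sub_cancel_right]
    have e1 : PP (tm X s') \ PP (tm X s) = (PP X).filter fun p => tm X s < p ∧ p ≤ tm X s' := by
      ext p
      rw [Finset.mem_sdiff]
      constructor
      · rintro ⟨h4, h5⟩
        refine mem_filter.2 ⟨hsub2 h4, ?_, (mem_Icc.1 (mem_filter.1 h4).1).2⟩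
        by_contra h6
        push Not at h6
        exact h5 (mem_filter.2 ⟨mem_Icc.2 ⟨(mem_Icc.1 (mem_filter.1 h4).1).1, h6⟩, (mem_filter.1 h4).2⟩)
      · intro h
        obtain ⟨h4, h5, h6⟩ := mem_filter.1 h
        refine ⟨mem_filter.2 ⟨mem_Icc.2 ⟨(mem_Icc.1 (mem_filter.1 h4).1).1, h6⟩, (mem_filter.1 h4).2⟩, fun h7 => ?_⟩
        have := (mem_Icc.1 (mem_filter.1 h7).1).2
        omega
    rw [e1]
    conv_rhs => rw [sum_filter]
    refine sum_congr rfl fun p _ => ?_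
    unfold blk
    split_ifs <;> simp
  rw [h3]
  have e2 : ∑ p ∈ PP (tm X s'), nu K p / p - ∑ p ∈ PP (tm X s), nu K p / p - (s' - s) * Real.log (Real.log X) =
      (∑ p ∈ PP (tm X s'), nu K p / p - s' * Real.log (Real.log X)) -
      (∑ p ∈ PP (tm X s), nu K p / p - s * Real.log (Real.log X)) := by ring
  rw [e2]
  refine (abs_sub _ _).trans ?_
  linarith

section

variable {K : Type} [Field K] [NumberField K]

/-- the increments -/
noncomputable def inc (X : ℕ) (s s' : ℝ) (f : HeightOneSpectrum (𝓞 K) → ℝ) : ℝ :=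
  ∑ v ∈ SX K (tm X s'), f v - ∑ v ∈ SX K (tm X s), f v

lemma inc_eq {X : ℕ} (hX : 16 ≤ X) {s s' : ℝ} (h : s ≤ s') (h1 : s' ≤ 1) (f : HeightOneSpectrum (𝓞 K) → ℝ) :
    inc X s s' f = ∑ v ∈ SX K X, blk X s s' (Ideal.absNorm v.asIdeal) * f v := by
  classical
  have hle := tm_mono hX h
  have hle2 : tm X s' ≤ X := tm_le (by omega) h1
  have hsub1 : SX K (tm X s) ⊆ SX K (tm X s') := fun v hv => mem_SX.2 ((mem_SX.1 hv).trans hle)
  unfold inc
  rw [← sum_sdiff hsub1, add_sub_cancel_right]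
  have e1 : SX K (tm X s') \ SX K (tm X s) = (SX K X).filter fun v => tm X s < Ideal.absNorm v.asIdeal ∧ Ideal.absNorm v.asIdeal ≤ tm X s' := by
    ext v
    rw [Finset.mem_sdiff, mem_filter, mem_SX, mem_SX, mem_SX]
    constructor
    · rintro ⟨h4, h5⟩
      exact ⟨h4.trans hle2, not_le.1 h5, h4⟩
    · rintro ⟨_, h5, h6⟩
      exact ⟨h6, not_le.2 h5⟩
  rw [e1]
  conv_lhs => rw [sum_filter]
  refine sum_congr rfl fun v _ => ?_
  unfold blk
  split_ifs <;> simp

end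

open Classical in
/-- large deviations of the path in the direction `u` -/
theorem path_dir (K : Type) [Field K] [NumberField K] (ι : Type) [Fintype ι] [DecidableEq ι] (P₀ : ℕ) (κ B : ℝ) (hB : 0 ≤ B)
    (val : HeightOneSpectrum (𝓞 K) → (ι → 𝓞 K) → ℝ) (hloc : Loc2 K ι P₀ κ B val) (Ok : (ι → 𝓞 K) → Prop) (hex : Few K ι Ok)
    {J : Type} [Fintype J] (s s' : J → ℝ) (hs : ∀ i, 0 ≤ s i ∧ s i < s' i ∧ s' i ≤ 1)
    (hdis : ∀ i j, i ≠ j → s' i ≤ s j ∨ s' j ≤ s i) (u : EuclideanSpace ℝ J) (y ε : ℝ) (hu : ‖u‖ = 1)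
    (hy : 0 ≤ y) (hε : 0 < ε) :
    ∃ X₁ : ℕ, 16 ≤ X₁ ∧ ∀ X : ℕ, X₁ ≤ X → ∀ T : ℝ, (X : ℝ) ^ ((Real.log (Real.log X)) ^ 3) ≤ T →
    ∀ (b : Fin (Module.finrank ℚ K) → 𝓞 K), (∀ x : 𝓞 K, ∃ a : Fin (Module.finrank ℚ K) → ℤ, x = ∑ j, (a j : 𝓞 K) * b j) →
    ∀ (N : ι × Fin (Module.finrank ℚ K) → ℤ) (L : ι × Fin (Module.finrank ℚ K) → ℕ), (∀ k, T ≤ L k) →
      Real.exp (-((y ^ 2 / 2 + ε) * Real.log (Real.log X))) * ∏ k, (L k : ℝ) ≤
        (((kbox N L).filter fun n => Ok (comb b n) ∧ y * Real.log (Real.log X) ≤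
          ∑ i, u i * ((inc X (s i) (s' i) (fun v => val v (comb b n)) - κ * (s' i - s i) * Real.log (Real.log X)) /
            Real.sqrt (s' i - s i))).card : ℝ) ∧
      (((kbox N L).filter fun n => y * Real.log (Real.log X) ≤
          ∑ i, u i * ((inc X (s i) (s' i) (fun v => val v (comb b n)) - κ * (s' i - s i) * Real.log (Real.log X)) /
            Real.sqrt (s' i - s i))).card : ℝ) ≤
        Real.exp (-((y ^ 2 / 2 - ε) * Real.log (Real.log X))) * ∏ k, (L k : ℝ) := by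
  have hΔ : ∀ i, 0 < Real.sqrt (s' i - s i) := fun i => Real.sqrt_pos.2 (by linarith [(hs i).2.1])
  have hΔ2 : ∀ i, Real.sqrt (s' i - s i) * Real.sqrt (s' i - s i) = s' i - s i :=
    fun i => Real.mul_self_sqrt (by linarith [(hs i).2.1])
  -- the weights
  obtain ⟨w, hw⟩ : ∃ w : J → ℝ, w = fun i => u i / Real.sqrt (s' i - s i) := ⟨_, rfl⟩
  obtain ⟨R, hR⟩ : ∃ R : ℝ, R = ∑ i, |w i| := ⟨_, rfl⟩
  have hR0 : 0 ≤ R := by rw [hR]; exact sum_nonneg fun i _ => abs_nonneg _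
  obtain ⟨m₀, hm₀⟩ : ∃ m₀ : ℝ, m₀ = ∑ i, w i * (s' i - s i) := ⟨_, rfl⟩
  have hw2 : ∑ i, w i ^ 2 * (s' i - s i) = 1 := by
    have h1 : ‖u‖ ^ 2 = ∑ i, u i ^ 2 := by
      rw [EuclideanSpace.norm_sq_eq]
      exact sum_congr rfl fun i _ => by rw [Real.norm_eq_abs, sq_abs]
    rw [hu] at h1
    rw [one_pow] at h1
    rw [h1]
    refine sum_congr rfl fun i _ => ?_
    rw [hw]
    show (u i / Real.sqrt (s' i - s i)) ^ 2 * (s' i - s i) = u i ^ 2
    rw [div_pow, Real.sq_sqrt (by linarith [(hs i).2.1]), div_mul_cancel₀]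
    exact (sub_pos.2 (hs i).2.1).ne'
  obtain ⟨M, hM0, hM⟩ := nu_blk K
  have hM' : ∀ i, ∃ X₁ : ℕ, 16 ≤ X₁ ∧
      ∀ X : ℕ, X₁ ≤ X → |∑ p ∈ PP X, blk X (s i) (s' i) p * (nu K p / p) - (s' i - s i) * Real.log (Real.log X)| ≤ M :=
    fun i => hM (s i) (s' i) (hs i).1 (hs i).2.1 (hs i).2.2
  choose F hF16 hF using hM'
  obtain ⟨M₁, hM₁⟩ : ∃ M₁ : ℝ, M₁ = R * M + (∑ i, w i ^ 2) * M := ⟨_, rfl⟩
  have hRM : 0 ≤ R * M := by positivity
  have hWM : 0 ≤ (∑ i, w i ^ 2) * M := mul_nonneg (sum_nonneg fun i _ => sq_nonneg _) hM0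
  have hM₁0 : 0 ≤ M₁ := by rw [hM₁]; linarith
  obtain ⟨Xa, ha⟩ := ldp_wt K ι P₀ κ B hB R M₁ m₀ hR0 hM₁0 y (ε / 2) hy (by positivity)
  obtain ⟨C, hC, V₀, hV₀⟩ := hex (y ^ 2 / 2 + ε) (by positivity)
  obtain ⟨Xc, hXc⟩ := loglog_large (max V₀ (2 * C / ε))
  refine ⟨max 16 (max (univ.sup F) (max Xa Xc)), le_max_left _ _, ?_⟩
  intro X hX T hT b hb N L hL
  rw [max_le_iff, max_le_iff, max_le_iff] at hX
  obtain ⟨hX16, hXF, hXa, hXc'⟩ := hX
  obtain ⟨hV1, hV2⟩ := max_le_iff.1 (hXc X hXc')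
  have hT' := hT
  rw [x_pow (by linarith [one_lt_log X hX16])] at hT'
  have hP0 : 0 ≤ ∏ k, (L k : ℝ) := prod_nonneg fun k _ => Nat.cast_nonneg _
  have hV0 : 0 ≤ Real.log (Real.log X) := loglog_nonneg X hX16
  have hFX : ∀ i, |∑ p ∈ PP X, blk X (s i) (s' i) p * (nu K p / p) - (s' i - s i) * Real.log (Real.log X)| ≤ M :=
    fun i => hF i X ((le_sup (f := F) (mem_univ i)).trans hXF)
  obtain ⟨c, hc⟩ : ∃ c : ℕ → ℝ, c = fun n => ∑ i, w i * blk X (s i) (s' i) n := ⟨_, rfl⟩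
  have hcR : ∀ n, |c n| ≤ R := by
    intro n
    rw [hc, hR]
    refine (abs_sum_le_sum_abs _ _).trans (sum_le_sum fun i _ => ?_)
    rw [abs_mul]
    calc |w i| * |blk X (s i) (s' i) n| ≤ |w i| * 1 := mul_le_mul_of_nonneg_left (blk_le _ _ _ _) (abs_nonneg _)
      _ = _ := mul_one _
  have hc0 : ∀ n, X < n → c n = 0 := by
    intro n hn
    rw [hc]
    refine sum_eq_zero fun i _ => ?_
    unfold blk
    rw [if_neg, mul_zero]
    rintro ⟨_, h2⟩
    have := tm_le (X := X) (by omega) (hs i).2.2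
    omega
  have hc2 : ∀ n, c n ^ 2 = ∑ i, w i ^ 2 * blk X (s i) (s' i) n := by
    intro n
    rw [hc]
    show (∑ i, w i * blk X (s i) (s' i) n) ^ 2 = _
    rw [sq, sum_mul_sum]
    refine sum_congr rfl fun i _ => ?_
    rw [sum_eq_single i]
    · have := blk_sq X (s i) (s' i) n
      calc _ = w i ^ 2 * (blk X (s i) (s' i) n * blk X (s i) (s' i) n) := by ring
        _ = _ := by rw [this]
    · intro j _ hj
      have h1 := blk_disj hX16 (hdis i j (Ne.symm hj)) n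
      calc _ = w i * w j * (blk X (s i) (s' i) n * blk X (s j) (s' j) n) := by ring
        _ = _ := by rw [h1, mul_zero]
    · intro h
      exact absurd (mem_univ i) h
  have hsum1 : |∑ p ∈ PP X, c p * (nu K p / p) - m₀ * Real.log (Real.log X)| ≤ M₁ := by
    have e1 : ∑ p ∈ PP X, c p * (nu K p / p) - m₀ * Real.log (Real.log X) =
        ∑ i, w i * (∑ p ∈ PP X, blk X (s i) (s' i) p * (nu K p / p) - (s' i - s i) * Real.log (Real.log X)) := by
      rw [hc, hm₀]
      exact swap_sum (PP X) w (fun i => s' i - s i) (Real.log (Real.log X)) (fun i => blk X (s i) (s' i)) (fun p => nu K p / p)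
    rw [e1]
    refine (abs_sum_le_sum_abs _ _).trans ?_
    calc ∑ i, |w i * (∑ p ∈ PP X, blk X (s i) (s' i) p * (nu K p / p) - (s' i - s i) * Real.log (Real.log X))| ≤
          ∑ i, |w i| * M := sum_le_sum fun i _ => by
            rw [abs_mul]
            exact mul_le_mul_of_nonneg_left (hFX i) (abs_nonneg _)
      _ = R * M := by rw [hR, sum_mul]
      _ ≤ M₁ := by rw [hM₁]; linarith
  have hsum2 : |∑ p ∈ PP X, c p ^ 2 * (nu K p / p) - Real.log (Real.log X)| ≤ M₁ := by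
    have e1 : ∑ p ∈ PP X, c p ^ 2 * (nu K p / p) - Real.log (Real.log X) =
        ∑ i, w i ^ 2 * (∑ p ∈ PP X, blk X (s i) (s' i) p * (nu K p / p) - (s' i - s i) * Real.log (Real.log X)) := by
      have e2 : Real.log (Real.log X) = (∑ i, w i ^ 2 * (s' i - s i)) * Real.log (Real.log X) := by rw [hw2, one_mul]
      conv_lhs => rw [e2]
      simp only [hc2]
      exact swap_sum (PP X) (fun i => w i ^ 2) (fun i => s' i - s i) (Real.log (Real.log X)) (fun i => blk X (s i) (s' i))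
        (fun p => nu K p / p)
    rw [e1]
    refine (abs_sum_le_sum_abs _ _).trans ?_
    calc ∑ i, |w i ^ 2 * (∑ p ∈ PP X, blk X (s i) (s' i) p * (nu K p / p) - (s' i - s i) * Real.log (Real.log X))| ≤
          ∑ i, w i ^ 2 * M := sum_le_sum fun i _ => by
            rw [abs_mul, abs_of_nonneg (sq_nonneg (w i))]
            exact mul_le_mul_of_nonneg_left (hFX i) (sq_nonneg _)
      _ = (∑ i, w i ^ 2) * M := by rw [sum_mul]
      _ ≤ M₁ := by rw [hM₁]; linarith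
  -- the linear functional
  have hlin : ∀ n : ι × Fin (Module.finrank ℚ K) → ℤ, (y * Real.log (Real.log X) ≤
      ∑ i, u i * ((inc X (s i) (s' i) (fun v => val v (comb b n)) - κ * (s' i - s i) * Real.log (Real.log X)) /
            Real.sqrt (s' i - s i))) ↔
      (κ * m₀ + y) * Real.log (Real.log X) ≤ ∑ v ∈ SX K X, c (Ideal.absNorm v.asIdeal) * val v (comb b n) := by
    intro n
    have e1 : ∑ v ∈ SX K X, c (Ideal.absNorm v.asIdeal) * val v (comb b n) =
        ∑ i, w i * inc X (s i) (s' i) (fun v => val v (comb b n)) := by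
      have e2 : ∀ i, inc X (s i) (s' i) (fun v => val v (comb b n)) =
        ∑ v ∈ SX K X, blk X (s i) (s' i) (Ideal.absNorm v.asIdeal) * val v (comb b n) :=
        fun i => inc_eq hX16 (hs i).2.1.le (hs i).2.2 _
      simp only [e2, hc, sum_mul, mul_sum]
      rw [sum_comm]
      exact sum_congr rfl fun i _ => sum_congr rfl fun v _ => by ring
    have e3 : ∑ i, u i * ((inc X (s i) (s' i) (fun v => val v (comb b n)) - κ * (s' i - s i) * Real.log (Real.log X)) /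
            Real.sqrt (s' i - s i)) = ∑ i, w i * inc X (s i) (s' i) (fun v => val v (comb b n)) -
            κ * m₀ * Real.log (Real.log X) := by
      rw [hm₀, mul_sum, sum_mul, ← sum_sub_distrib]
      refine sum_congr rfl fun i _ => ?_
      rw [hw]
      show _ = u i / Real.sqrt (s' i - s i) * _ - κ * (u i / Real.sqrt (s' i - s i) * (s' i - s i)) * Real.log (Real.log X)
      ring
    rw [e1, e3]
    constructor
    · intro h
      linarith
    · intro h
      linarith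
  obtain ⟨h1, h2⟩ := ha X hXa T hT c hcR hc0 hsum1 hsum2 b hb N L hL val hloc
    ((kbox N L).filter fun n => y * Real.log (Real.log X) ≤
          ∑ i, u i * ((inc X (s i) (s' i) (fun v => val v (comb b n)) - κ * (s' i - s i) * Real.log (Real.log X)) /
            Real.sqrt (s' i - s i)))
    (fun n => by rw [mem_filter, hlin])
  have h3 := hV₀ (Real.log (Real.log X)) hV1 b hb N L T hT' hL
  constructor
  · have h4 := with_exc hC hε hP0 hV2 h1 h3
    have h5 : ((kbox N L).filter fun n => y * Real.log (Real.log X) ≤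
          ∑ i, u i * ((inc X (s i) (s' i) (fun v => val v (comb b n)) - κ * (s' i - s i) * Real.log (Real.log X)) /
            Real.sqrt (s' i - s i))) ⊆
        ((kbox N L).filter fun n => Ok (comb b n) ∧ y * Real.log (Real.log X) ≤
          ∑ i, u i * ((inc X (s i) (s' i) (fun v => val v (comb b n)) - κ * (s' i - s i) * Real.log (Real.log X)) /
            Real.sqrt (s' i - s i))) ∪
        ((kbox N L).filter fun n => ¬ Ok (comb b n)) := by
      intro t ht
      rw [mem_filter] at ht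
      rw [mem_union, mem_filter, mem_filter]
      by_cases h2 : Ok (comb b t)
      · exact Or.inl ⟨ht.1, h2, ht.2⟩
      · exact Or.inr ⟨ht.1, h2⟩
    have h6 := (Nat.cast_le (α := ℝ)).2 ((card_le_card h5).trans (card_union_le _ _))
    push_cast at h6
    linarith
  · refine h2.trans (mul_le_mul_of_nonneg_right (Real.exp_le_exp.2 ?_) hP0)
    have : ε / 2 * Real.log (Real.log X) ≤ ε * Real.log (Real.log X) := mul_le_mul_of_nonneg_right (by linarith) hV0
    linarith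

end Q69.LJ
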