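import Pool.Agent.Q69.LJ.MomK
import Pool.Agent.Q69.LJ.Path

/-!
# Joint moments at several times
-/

set_option autoImplicit false
set_option linter.unusedSectionVars false

namespace Q69.LJ

open Finset NumberField IsDedekindDomain Filter
open Q282.NF Q282.GK Q282.MN
open Q282.BP (PP)
open Q282.CL (tm tm_le tm_large)
open Q282.JB (cY)

lemma cY_mul {X : ℕ} (hX : 16 ≤ X) (s s' : ℝ) (n : ℕ) : cY (tm X s) n * cY (tm X s') n = cY (tm X (min s s')) n := by
  rcases le_total s s' with h | h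
  · rw [min_eq_left h]
    have := tm_mono hX h
    unfold Q282.JB.cY
    by_cases h1 : n ≤ tm X s
    · rw [if_pos h1, if_pos (h1.trans this), one_mul]
    · rw [if_neg h1, zero_mul]
  · rw [min_eq_right h]
    have := tm_mono hX h
    unfold Q282.JB.cY
    by_cases h1 : n ≤ tm X s'
    · rw [if_pos h1, if_pos (h1.trans this), one_mul]
    · rw [if_neg h1, mul_zero]

lemma sum_cY {X Y : ℕ} (hY : Y ≤ X) (f : ℕ → ℝ) : ∑ p ∈ PP X, cY Y p * f p = ∑ p ∈ PP Y, f p := by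
  have h1 : PP Y = (PP X).filter fun p => p ≤ Y := by
    ext p
    constructor
    · intro h
      obtain ⟨h2, h3⟩ := mem_filter.1 h
      rw [mem_Icc] at h2
      exact mem_filter.2 ⟨mem_filter.2 ⟨mem_Icc.2 ⟨h2.1, h2.2.trans hY⟩, h3⟩, h2.2⟩
    · intro h
      obtain ⟨h5, h4⟩ := mem_filter.1 h
      obtain ⟨h2, h3⟩ := mem_filter.1 h5
      rw [mem_Icc] at h2
      exact mem_filter.2 ⟨mem_Icc.2 ⟨h2.1, h4⟩, h3⟩
  rw [h1]
  conv_rhs => rw [sum_filter]
  refine sum_congr rfl fun p _ => ?_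
  unfold Q282.JB.cY
  split_ifs <;> simp

lemma sum_cY_SX {K : Type} [Field K] [NumberField K] {X Y : ℕ} (hY : Y ≤ X) (f : HeightOneSpectrum (𝓞 K) → ℝ) :
    ∑ v ∈ SX K X, cY Y (Ideal.absNorm v.asIdeal) * f v = ∑ v ∈ SX K Y, f v := by
  classical
  have h1 : SX K Y = (SX K X).filter fun v => Ideal.absNorm v.asIdeal ≤ Y := by
    ext v
    rw [mem_filter, mem_SX, mem_SX]
    exact ⟨fun h => ⟨h.trans hY, h⟩, fun h => h.2⟩
  rw [h1]
  conv_rhs => rw [sum_filter]
  refine sum_congr rfl fun v _ => ?_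
  unfold Q282.JB.cY
  split_ifs <;> simp

open Classical in
/-- joint moments at several times -/
theorem mom_time (K : Type) [Field K] [NumberField K] (ι : Type) [Fintype ι] [DecidableEq ι] (P₀ : ℕ) (κ B : ℝ) (hB : 0 ≤ B)
    (val : HeightOneSpectrum (𝓞 K) → (ι → 𝓞 K) → ℝ) (hloc : Loc2 K ι P₀ κ B val) (Ok : (ι → 𝓞 K) → Prop) (hex : Few K ι Ok)
    {J : Type} [Fintype J] (s l : J → ℝ) (hs : ∀ i, 0 ≤ s i ∧ s i ≤ 1) :
    ∃ C : ℝ, 0 ≤ C ∧ ∃ X₁ : ℕ, 16 ≤ X₁ ∧ ∀ X : ℕ, X₁ ≤ X → ∀ T : ℝ, Real.exp (Real.sqrt X * Real.log X ^ 2) ≤ T →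
    ∀ (b : Fin (Module.finrank ℚ K) → 𝓞 K), (∀ x : 𝓞 K, ∃ a : Fin (Module.finrank ℚ K) → ℤ, x = ∑ j, (a j : 𝓞 K) * b j) →
    ∀ (N : ι × Fin (Module.finrank ℚ K) → ℤ) (L : ι × Fin (Module.finrank ℚ K) → ℕ), (∀ i, T ≤ L i) →
      Real.exp ((κ * ∑ i, l i * s i + (∑ i, ∑ j, l i * l j * min (s i) (s j)) / 2) * Real.log (Real.log X) - C) * ∏ i, (L i : ℝ) ≤
        ∑ n ∈ (kbox N L).filter (fun n => Ok (comb b n)), Real.exp (∑ i, l i * ∑ v ∈ SX K (tm X (s i)), val v (comb b n)) ∧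
      ∑ n ∈ kbox N L, Real.exp (∑ i, l i * ∑ v ∈ SX K (tm X (s i)), val v (comb b n)) ≤
        Real.exp ((κ * ∑ i, l i * s i + (∑ i, ∑ j, l i * l j * min (s i) (s j)) / 2) * Real.log (Real.log X) + C) * ∏ i, (L i : ℝ) := by
  obtain ⟨M, hM0, hM⟩ := nu_time K
  have h1 : ∀ i, ∃ X₁ : ℕ, ∀ X : ℕ, X₁ ≤ X → |∑ p ∈ PP (tm X (s i)), nu K p / p - s i * Real.log (Real.log X)| ≤ M :=
    fun i => hM (s i) (hs i).1
  have h2 : ∀ a : J × J, ∃ X₁ : ℕ, ∀ X : ℕ, X₁ ≤ X →
      |∑ p ∈ PP (tm X (min (s a.1) (s a.2))), nu K p / p - min (s a.1) (s a.2) * Real.log (Real.log X)| ≤ M :=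
    fun a => hM _ (le_min (hs a.1).1 (hs a.2).1)
  choose F hF using h1
  choose G hG using h2
  obtain ⟨R, hR⟩ : ∃ R : ℝ, R = ∑ i, |l i| := ⟨_, rfl⟩
  have hR0 : 0 ≤ R := by rw [hR]; exact sum_nonneg fun i _ => abs_nonneg _
  obtain ⟨m₀, hm₀⟩ : ∃ m₀ : ℝ, m₀ = ∑ i, l i * s i := ⟨_, rfl⟩
  obtain ⟨v₀, hv₀⟩ : ∃ v₀ : ℝ, v₀ = ∑ i, ∑ j, l i * l j * min (s i) (s j) := ⟨_, rfl⟩
  obtain ⟨M₁, hM₁⟩ : ∃ M₁ : ℝ, M₁ = R * M + R ^ 2 * M := ⟨_, rfl⟩
  have hM₁0 : 0 ≤ M₁ := by rw [hM₁]; positivity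
  obtain ⟨c, hc⟩ : ∃ c : ℕ → ℕ → ℝ, c = fun X n => ∑ i, l i * cY (tm X (s i)) n := ⟨_, rfl⟩
  have hmin : ∀ a : J × J, min (s a.1) (s a.2) ≤ 1 := fun a => (min_le_left _ _).trans (hs a.1).2
  -- the sums
  have key : ∀ X : ℕ, 16 ≤ X → univ.sup F ≤ X → univ.sup G ≤ X →
      |∑ p ∈ PP X, c X p * (nu K p / p) - m₀ * Real.log (Real.log X)| ≤ M₁ ∧
      |∑ p ∈ PP X, c X p ^ 2 * (nu K p / p) - v₀ * Real.log (Real.log X)| ≤ M₁ := by
    intro X hX16 hXF hXG
    constructor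
    · have e1 : ∑ p ∈ PP X, c X p * (nu K p / p) - m₀ * Real.log (Real.log X) =
          ∑ i, l i * (∑ p ∈ PP (tm X (s i)), nu K p / p - s i * Real.log (Real.log X)) := by
        have e2 : ∀ i, ∑ p ∈ PP (tm X (s i)), nu K p / p = ∑ p ∈ PP X, cY (tm X (s i)) p * (nu K p / p) :=
          fun i => (sum_cY (tm_le (by omega) (hs i).2) _).symm
        rw [hc, hm₀]
        simp only [e2, mul_sub, sum_sub_distrib, sum_mul, mul_sum]
        congr 1
        · rw [sum_comm]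
          exact sum_congr rfl fun i _ => sum_congr rfl fun p _ => by ring
        · exact sum_congr rfl fun i _ => by ring
      rw [e1]
      refine (abs_sum_le_sum_abs _ _).trans ?_
      calc ∑ i, |l i * (∑ p ∈ PP (tm X (s i)), nu K p / p - s i * Real.log (Real.log X))| ≤ ∑ i, |l i| * M :=
            sum_le_sum fun i _ => by
              rw [abs_mul]
              exact mul_le_mul_of_nonneg_left (hF i X ((le_sup (f := F) (mem_univ i)).trans hXF)) (abs_nonneg _)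
        _ = R * M := by rw [hR, sum_mul]
        _ ≤ M₁ := by
            rw [hM₁]
            have : 0 ≤ R ^ 2 * M := by positivity
            linarith
    · have hc2 : ∀ n, c X n ^ 2 = ∑ i, ∑ j, l i * l j * cY (tm X (min (s i) (s j))) n := by
        intro n
        rw [hc]
        show (∑ i, l i * cY (tm X (s i)) n) ^ 2 = _
        rw [sq, sum_mul_sum]
        refine sum_congr rfl fun i _ => sum_congr rfl fun j _ => ?_
        rw [← cY_mul hX16]
        ring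
      have e1 : ∑ p ∈ PP X, c X p ^ 2 * (nu K p / p) - v₀ * Real.log (Real.log X) =
          ∑ i, ∑ j, l i * l j * (∑ p ∈ PP (tm X (min (s i) (s j))), nu K p / p - min (s i) (s j) * Real.log (Real.log X)) := by
        have e2 : ∀ i j, ∑ p ∈ PP (tm X (min (s i) (s j))), nu K p / p = ∑ p ∈ PP X, cY (tm X (min (s i) (s j))) p * (nu K p / p) :=
          fun i j => (sum_cY (tm_le (by omega) (hmin (i, j))) _).symm
        rw [hv₀]
        simp only [hc2, e2, mul_sub, sum_sub_distrib, sum_mul, mul_sum]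
        congr 1
        · rw [sum_comm]
          refine sum_congr rfl fun i _ => ?_
          rw [sum_comm]
          exact sum_congr rfl fun j _ => sum_congr rfl fun p _ => by ring
        · exact sum_congr rfl fun i _ => sum_congr rfl fun j _ => by ring
      rw [e1]
      refine (abs_sum_le_sum_abs _ _).trans ?_
      calc ∑ i, |∑ j, l i * l j * (∑ p ∈ PP (tm X (min (s i) (s j))), nu K p / p - min (s i) (s j) * Real.log (Real.log X))| ≤
            ∑ i, ∑ j, |l i| * |l j| * M := sum_le_sum fun i _ => (abs_sum_le_sum_abs _ _).trans (sum_le_sum fun j _ => by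
              rw [abs_mul, abs_mul]
              exact mul_le_mul_of_nonneg_left (hG (i, j) X ((le_sup (f := G) (mem_univ (i, j))).trans hXG)) (by positivity))
        _ = R ^ 2 * M := by
            rw [hR, sq, sum_mul_sum, sum_mul]
            exact sum_congr rfl fun i _ => by rw [sum_mul]
        _ ≤ M₁ := by
            rw [hM₁]
            have : 0 ≤ R * M := by positivity
            linarith
  have hv₀0 : 0 ≤ v₀ := by
    by_contra hneg
    push Not at hneg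
    obtain ⟨X₂, hX₂⟩ := loglog_large ((M₁ + 1) / (-v₀))
    obtain ⟨X, hX⟩ : ∃ X : ℕ, X = max 16 (max X₂ (max (univ.sup F) (univ.sup G))) := ⟨_, rfl⟩
    have h3 := (key X (by rw [hX]; exact le_max_left _ _)
      (by rw [hX]; exact (le_max_left _ _).trans ((le_max_right _ _).trans (le_max_right _ _)))
      (by rw [hX]; exact (le_max_right _ _).trans ((le_max_right _ _).trans (le_max_right _ _)))).2
    have h4 := hX₂ X (by rw [hX]; exact (le_max_left _ _).trans (le_max_right _ _))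
    rw [div_le_iff₀ (by linarith)] at h4
    have h5 : 0 ≤ ∑ p ∈ PP X, c X p ^ 2 * (nu K p / p) := by
      refine sum_nonneg fun p hp => mul_nonneg (sq_nonneg _) (div_nonneg ?_ (Nat.cast_nonneg _))
      exact (nu_le (K := K) ⟨p, (mem_filter.1 hp).2⟩).1
    have h6 := (abs_le.1 h3).2
    linarith
  obtain ⟨C, hC, X₃, hX₃, h⟩ := mom_exc K ι P₀ κ B hB R M₁ m₀ v₀ hR0 hM₁0 hv₀0 Ok hex
  refine ⟨C, hC, max X₃ (max (univ.sup F) (univ.sup G)), hX₃.trans (le_max_left _ _), ?_⟩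
  intro X hX T hT b hb N L hL
  rw [max_le_iff, max_le_iff] at hX
  obtain ⟨hX3, hXF, hXG⟩ := hX
  have hX16 : 16 ≤ X := hX₃.trans hX3
  obtain ⟨k1, k2⟩ := key X hX16 hXF hXG
  have h3 := h X hX3 T hT (c X) (fun n => by
      rw [hc, hR]
      refine (abs_sum_le_sum_abs _ _).trans (sum_le_sum fun i _ => ?_)
      rw [abs_mul]
      calc |l i| * |cY (tm X (s i)) n| ≤ |l i| * 1 := mul_le_mul_of_nonneg_left (cY_le _ _) (abs_nonneg _)
        _ = _ := mul_one _) (fun n hn => by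
      rw [hc]
      refine sum_eq_zero fun i _ => ?_
      unfold Q282.JB.cY
      have := tm_le (X := X) (by omega) (hs i).2
      rw [if_neg (by omega), mul_zero]) k1 k2 b hb N L hL val hloc
  have e1 : ∀ n : ι × Fin (Module.finrank ℚ K) → ℤ, ∑ v ∈ SX K X, c X (Ideal.absNorm v.asIdeal) * val v (comb b n) =
      ∑ i, l i * ∑ v ∈ SX K (tm X (s i)), val v (comb b n) := by
    intro n
    have e2 : ∀ i, ∑ v ∈ SX K (tm X (s i)), val v (comb b n) = ∑ v ∈ SX K X, cY (tm X (s i)) (Ideal.absNorm v.asIdeal) * val v (comb b n) :=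
      fun i => (sum_cY_SX (tm_le (by omega) (hs i).2) _).symm
    rw [hc]
    simp only [e2, sum_mul, mul_sum]
    rw [sum_comm]
    exact sum_congr rfl fun i _ => sum_congr rfl fun v _ => by ring
  simp only [e1] at h3
  rw [hm₀, hv₀] at h3
  exact h3

end Q69.LJ
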