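import Pool.Agent.Q282.GK.Sieve

/-!
# A sieve with exponential saving, for a family of residue conditions of any density
-/

set_option autoImplicit false

namespace Q69.LJ

open Finset Filter Q282.BP Q282.GK
open Pool.Agent.TH894.NE (box mem_box card_box Per mean mean_prod mean_mono)

/-- a sieve with about `V ^ 2` primes -/
theorem sieve_se (d s : ℕ) (σ : ℝ) (hσ : 1 < σ) (A : ℝ) (hA : 0 ≤ A) : ∃ V₀ : ℝ, ∀ V : ℝ, V₀ ≤ V →
    ∀ (P : ℕ → (Fin d → ℕ) → Prop) [∀ p n, Decidable (P p n)],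
    (∀ p : ℕ, p.Prime → s ≤ p → ∀ n, P p n ↔ P p (fun i => n i % p)) →
    (∀ p : ℕ, p.Prime → s ≤ p → mean d p (fun n => if P p n then 1 else 0) ≤ 1 / σ) →
    ∀ T : ℝ, Real.exp (V ^ 3 * Real.exp V) ≤ T → ∀ L : Fin d → ℕ, (∀ i, T ≤ L i) → ∀ E : Finset (Fin d → ℕ), E ⊆ bx L →
    (∀ n ∈ E, ∀ p : ℕ, p.Prime → s ≤ p → P p n) →
    (E.card : ℝ) ≤ Real.exp (-(A * V)) * (∏ i, (L i : ℝ)) := by
  classical
  have hc : 0 < Real.log σ := Real.log_pos hσ
  have hc2 : 0 < Real.log (2 * σ) := Real.log_pos (by linarith)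
  obtain ⟨π, hπ1, hπ2, hπ3⟩ := dyadic_primes s
  refine ⟨max (s + 2) (max (d + 1) (max ((A + Real.log (2 * σ)) / Real.log σ) (A + 4 * d + 1))), ?_⟩
  intro V hV P _ hper hmean T hT L hL E hE hEP
  rw [max_le_iff, max_le_iff, max_le_iff] at hV
  obtain ⟨hVs, hVd, hVA, hVA'⟩ := hV
  have hs0 : (0 : ℝ) ≤ s := Nat.cast_nonneg s
  have hd0 : (0 : ℝ) ≤ d := Nat.cast_nonneg d
  have hV1 : 1 ≤ V := by linarith
  have hV0 : 0 < V := by linarith
  have hT0 : 0 < T := (Real.exp_pos _).trans_le hT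
  have hL0 : ∀ i, (0 : ℝ) < L i := fun i => hT0.trans_le (hL i)
  have hP0 : 0 < ∏ i, (L i : ℝ) := prod_pos fun i _ => hL0 i
  obtain ⟨m, hm⟩ : ∃ m : ℕ, m = ⌊V ^ 2⌋₊ := ⟨_, rfl⟩
  have hm1 : (m : ℝ) ≤ V ^ 2 := by
    rw [hm]
    exact Nat.floor_le (by positivity)
  have hm2 : V ^ 2 < m + 1 := by
    rw [hm]
    exact Nat.lt_floor_add_one _
  obtain ⟨Q, hQ⟩ : ∃ Q : ℕ, Q = ∏ j ∈ range m, π j := ⟨_, rfl⟩
  have hQ0 : 0 < Q := by
    rw [hQ]
    exact prod_pos fun j _ => (hπ1 j).pos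
  have hinj : ∀ a b, a < b → π a < π b := by
    intro a b hab
    have h4 := hπ3 a
    have h5 := hπ2 b
    have h6 : 2 ^ (a + s + 1) ≤ 2 ^ (b + s) := Nat.pow_le_pow_right (by norm_num) (by omega)
    omega
  have hne : ∀ a b, a ≠ b → π a ≠ π b := by
    intro a b hab
    rcases lt_or_gt_of_ne hab with h | h
    · exact (hinj a b h).ne
    · exact (hinj b a h).ne'
  have hπ7 : ∀ j, s ≤ π j := by
    intro j
    have h4 := hπ2 j
    have h5 : j + s < 2 ^ (j + s) := Nat.lt_two_pow_self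
    omega
  obtain ⟨F, hF⟩ : ∃ F : (Fin d → ℕ) → ℝ, F = fun n => ∏ j ∈ range m, (if P (π j) n then (1 : ℝ) else 0) := ⟨_, rfl⟩
  have hind : ∀ j n, 0 ≤ (if P (π j) n then (1 : ℝ) else 0) ∧ (if P (π j) n then (1 : ℝ) else 0) ≤ 1 := by
    intro j n
    split_ifs <;> norm_num
  have hF0 : ∀ n, 0 ≤ F n := by
    intro n
    rw [hF]
    exact prod_nonneg fun j _ => (hind j n).1
  have hF1 : ∀ n, |F n| ≤ 1 := by
    intro n
    rw [abs_of_nonneg (hF0 n), hF]
    exact prod_le_one (fun j _ => (hind j n).1) fun j _ => (hind j n).2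
  have hFmean : mean d Q F ≤ (1 / σ) ^ m := by
    rw [hF, hQ, mean_prod (range m) π (fun j _ => (hπ1 j).one_lt.le)
      (fun a _ b _ hab => (Nat.coprime_primes (hπ1 a) (hπ1 b)).2 (hne a b hab))
      (fun j n => if P (π j) n then (1 : ℝ) else 0)
      (fun j _ n => by
        show (if P (π j) n then (1 : ℝ) else 0) = if P (π j) (fun i => n i % π j) then (1 : ℝ) else 0
        simp only [← hper (π j) (hπ1 j) (hπ7 j) n])]
    calc ∏ j ∈ range m, mean d (π j) (fun n => if P (π j) n then (1 : ℝ) else 0) ≤ ∏ _j ∈ range m, (1 / σ) := by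
          refine prod_le_prod (fun j _ => ?_) fun j _ => hmean (π j) (hπ1 j) (hπ7 j)
          unfold Pool.Agent.TH894.NE.mean
          exact mul_nonneg (by positivity) (sum_nonneg fun n _ => (hind j n).1)
      _ = (1 / σ) ^ m := by rw [prod_const, card_range]
  have hFper : Per Q F := by
    intro n
    show F n = F (fun i => n i % Q)
    rw [hF]
    refine prod_congr rfl fun j hj => ?_
    have h4 : P (π j) n ↔ P (π j) (fun i => n i % Q) := by
      rw [hper (π j) (hπ1 j) (hπ7 j) n, hper (π j) (hπ1 j) (hπ7 j) (fun i => n i % Q)]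
      have e : (fun i => n i % π j) = fun i => (fun i => n i % Q) i % π j := by
        funext i
        show n i % π j = n i % Q % π j
        rw [Nat.mod_mod_of_dvd]
        rw [hQ]
        exact dvd_prod_of_mem π hj
      rw [e]
    simp only [h4]
  have h4 := bx_mean hQ0 L T hT0 hL F hFper 1 hF1
  have h5 : (E.card : ℝ) ≤ ∑ n ∈ bx L, F n := by
    calc (E.card : ℝ) = ∑ n ∈ E, (1 : ℝ) := by rw [sum_const, nsmul_eq_mul, mul_one]
      _ = ∑ n ∈ E, F n := by
          refine sum_congr rfl fun n hn => ?_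
          rw [hF]
          symm
          refine prod_eq_one fun j _ => ?_
          rw [if_pos (hEP n hn (π j) (hπ1 j) (hπ7 j))]
      _ ≤ ∑ n ∈ bx L, F n := sum_le_sum_of_subset_of_nonneg hE fun n _ _ => hF0 n
  have h6 : (E.card : ℝ) ≤ (∏ i, (L i : ℝ)) * ((1 / σ) ^ m + (Real.exp (d * Q / T) - 1)) := by
    have h7 := (abs_le.1 h4).2
    have h8 := mul_le_mul_of_nonneg_left hFmean hP0.le
    rw [one_mul] at h7
    rw [mul_add]
    linarith
  -- the size of `Q`
  have hQle : (Q : ℝ) ≤ Real.exp (V ^ 4 + (s + 1) * V ^ 2) := by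
    have h7 : Q ≤ 2 ^ (m * (m + s + 1)) := by
      rw [hQ]
      calc ∏ j ∈ range m, π j ≤ ∏ _j ∈ range m, 2 ^ (m + s + 1) := by
            refine prod_le_prod' fun j hj => (hπ3 j).trans (Nat.pow_le_pow_right (by norm_num) ?_)
            have := mem_range.1 hj
            omega
        _ = 2 ^ (m * (m + s + 1)) := by rw [prod_const, card_range, ← pow_mul, mul_comm]
    have h8 : (Q : ℝ) ≤ (2 : ℝ) ^ (m * (m + s + 1)) := by exact_mod_cast h7
    refine h8.trans ?_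
    calc (2 : ℝ) ^ (m * (m + s + 1)) ≤ (Real.exp 1) ^ (m * (m + s + 1)) :=
          pow_le_pow_left₀ (by norm_num) (by linarith [Real.add_one_le_exp (1 : ℝ)]) _
      _ = Real.exp ((m * (m + s + 1) : ℕ) : ℝ) := by
          rw [← Real.exp_nat_mul, mul_one]
      _ ≤ Real.exp (V ^ 4 + (s + 1) * V ^ 2) := by
          rw [Real.exp_le_exp]
          push_cast
          have h9 : (m : ℝ) * m ≤ V ^ 2 * V ^ 2 := mul_le_mul hm1 hm1 (Nat.cast_nonneg _) (by positivity)
          have h10 : V ^ 2 * V ^ 2 = V ^ 4 := by ring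
          have h11 : (m : ℝ) * (s + 1) ≤ V ^ 2 * (s + 1) := mul_le_mul_of_nonneg_right hm1 (by positivity)
          have h12 : (m : ℝ) * (m + s + 1) = m * m + m * (s + 1) := by ring
          rw [h12]
          linarith
  have hexpV : V ^ 4 + (s + 1) * V ^ 2 - V ^ 3 * Real.exp V ≤ -V ^ 2 := by
    have h7 : V ^ 3 * (V + 1) ≤ V ^ 3 * Real.exp V := mul_le_mul_of_nonneg_left (Real.add_one_le_exp V) (by positivity)
    have h8 : (s + 2) * V ^ 2 ≤ V ^ 3 := by
      rw [pow_succ V 2, mul_comm]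
      exact mul_le_mul_of_nonneg_left hVs (by positivity)
    have h9 : V ^ 3 * (V + 1) = V ^ 4 + V ^ 3 := by ring
    linarith
  have h7 : d * Q / T ≤ d * Real.exp (-V ^ 2) := by
    rw [mul_div_assoc]
    refine mul_le_mul_of_nonneg_left ?_ (Nat.cast_nonneg d)
    rw [div_le_iff₀ hT0]
    refine hQle.trans ?_
    refine le_trans ?_ (mul_le_mul_of_nonneg_left hT (Real.exp_pos _).le)
    rw [← Real.exp_add, Real.exp_le_exp]
    linarith
  have hV2 : V ≤ V ^ 2 := by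
    rw [sq]
    exact le_mul_of_one_le_left hV0.le (by linarith)
  have hd1 : (d : ℝ) * Real.exp (-V ^ 2) ≤ 1 := by
    rw [Real.exp_neg, ← div_eq_mul_inv, div_le_one (Real.exp_pos _)]
    have := Real.add_one_le_exp (V ^ 2)
    linarith
  have h8 : Real.exp (d * Q / T) - 1 ≤ 2 * (d * Real.exp (-V ^ 2)) := by
    have h9 : 0 ≤ (d : ℝ) * Real.exp (-V ^ 2) := by positivity
    have h10 := Real.abs_exp_sub_one_le (x := (d : ℝ) * Real.exp (-V ^ 2)) (by rw [abs_of_nonneg h9]; exact hd1)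
    rw [abs_of_nonneg h9] at h10
    have h11 := (abs_le.1 h10).2
    have h12 := Real.exp_le_exp.2 h7
    linarith
  have h9 : (1 / σ) ^ m ≤ 1 / 2 * Real.exp (-(A * V)) := by
    have hσ0 : 0 < σ := by linarith
    have e1 : 1 / σ = Real.exp (-Real.log σ) := by
      rw [Real.exp_neg, Real.exp_log hσ0, one_div]
    have h10 : (1 / σ) ^ (m + 1) ≤ Real.exp (-(Real.log σ * V ^ 2)) := by
      rw [e1, ← Real.exp_nat_mul, Real.exp_le_exp]
      push_cast
      have := mul_le_mul_of_nonneg_right hm2.le hc.le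
      linarith
    have h11 : (1 / σ) ^ m = σ * (1 / σ) ^ (m + 1) := by
      rw [pow_succ]
      field_simp
    have h12 : A * V + Real.log (2 * σ) ≤ Real.log σ * V ^ 2 := by
      rw [div_le_iff₀ hc] at hVA
      have h13 := mul_le_mul_of_nonneg_right hVA hV0.le
      have h14 : V * Real.log σ * V = Real.log σ * V ^ 2 := by ring
      have h15 : Real.log (2 * σ) * 1 ≤ Real.log (2 * σ) * V := mul_le_mul_of_nonneg_left hV1 hc2.le
      linarith
    have h15 : Real.exp (-(Real.log σ * V ^ 2)) ≤ Real.exp (-(A * V)) * (1 / (2 * σ)) := by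
      have e2 : 1 / (2 * σ) = Real.exp (-Real.log (2 * σ)) := by
        rw [Real.exp_neg, Real.exp_log (by linarith), one_div]
      rw [e2, ← Real.exp_add, Real.exp_le_exp]
      linarith
    rw [h11]
    calc σ * (1 / σ) ^ (m + 1) ≤ σ * (Real.exp (-(A * V)) * (1 / (2 * σ))) := mul_le_mul_of_nonneg_left (h10.trans h15) hσ0.le
      _ = _ := by field_simp
  have h10 : 2 * (d * Real.exp (-V ^ 2)) ≤ 1 / 2 * Real.exp (-(A * V)) := by
    have h11 : 4 * (d : ℝ) ≤ Real.exp (V ^ 2 - A * V) := by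
      have h12 := Real.add_one_le_exp (V ^ 2 - A * V)
      have h13 : 4 * (d : ℝ) ≤ V ^ 2 - A * V := by
        have h14 : (4 * d : ℝ) * V ≤ (V - A) * V := mul_le_mul_of_nonneg_right (by linarith) hV0.le
        have h15 : (4 * d : ℝ) * 1 ≤ 4 * d * V := mul_le_mul_of_nonneg_left hV1 (by positivity)
        have h16 : (V - A) * V = V ^ 2 - A * V := by ring
        linarith
      linarith
    have h12 : Real.exp (-(A * V)) = Real.exp (V ^ 2 - A * V) * Real.exp (-V ^ 2) := by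
      rw [← Real.exp_add]
      congr 1
      ring
    have h13 := mul_le_mul_of_nonneg_right h11 (Real.exp_pos (-V ^ 2)).le
    rw [h12]
    linarith
  refine h6.trans ?_
  rw [mul_comm (Real.exp _)]
  exact mul_le_mul_of_nonneg_left (by linarith) hP0.le

/-- the sieve for the residues of integral vectors -/
theorem sieve_ge (κ : Type) [Fintype κ] [DecidableEq κ] (s : ℕ) (σ : ℝ) (hσ : 1 < σ) (A : ℝ) (hA : 0 ≤ A) :
    ∃ V₀ : ℝ, ∀ V : ℝ, V₀ ≤ V → ∀ (R : (p : ℕ) → (κ → ZMod p) → Prop) [∀ p u, Decidable (R p u)],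
    (∀ (p : ℕ) [Fact p.Prime], s ≤ p → (((univ : Finset (κ → ZMod p)).filter (R p)).card : ℝ) ≤
      1 / σ * (p : ℝ) ^ Fintype.card κ) →
    ∀ (N : κ → ℤ) (L : κ → ℕ) (T : ℝ), Real.exp (V ^ 3 * Real.exp V) ≤ T → (∀ k, T ≤ L k) →
    ∀ E : Finset (κ → ℤ), E ⊆ kbox N L → (∀ n ∈ E, ∀ p : ℕ, p.Prime → s ≤ p → R p (fun k => (n k : ZMod p))) →
    (E.card : ℝ) ≤ Real.exp (-(A * V)) * (∏ k, (L k : ℝ)) := by
  classical
  obtain ⟨e⟩ : Nonempty (κ ≃ Fin (Fintype.card κ)) := ⟨Fintype.equivFin κ⟩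
  obtain ⟨V₀, h⟩ := sieve_se (Fintype.card κ) s σ hσ A hA
  refine ⟨V₀, ?_⟩
  intro V hV R _ hR N L T hT hL E hE hEx
  have h1 : E.card = ((bx (fun k => L (e.symm k))).filter fun n => (fun i => N i + (n (e i) : ℤ)) ∈ E).card := by
    rw [← kbox_card_filter e N L (fun t => t ∈ E), filter_mem_eq_inter, inter_eq_right.2 hE]
  have h2 : ∏ k, (L k : ℝ) = ∏ k : Fin (Fintype.card κ), (L (e.symm k) : ℝ) :=
    Fintype.prod_equiv e _ _ fun k => by rw [Equiv.symm_apply_apply]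
  rw [h1, h2]
  refine h V hV (fun p n => R p (fun i => ((N i + (n (e i) : ℤ) : ℤ) : ZMod p))) ?_ ?_ T hT _ (fun k => hL _) _
    (filter_subset _ _) ?_
  · intro p hp _ n
    have h3 : (fun i => ((N i + (n (e i) : ℤ) : ℤ) : ZMod p)) = fun i => ((N i + ((n (e i) % p : ℕ) : ℤ) : ℤ) : ZMod p) := by
      funext i
      rw [Int.cast_add, Int.cast_add, Int.cast_natCast, Int.cast_natCast, ZMod.natCast_mod]
    rw [h3]
  · intro p hp hs
    have : Fact p.Prime := ⟨hp⟩
    rw [mean_res e p N (fun u => if R p u then (1 : ℝ) else 0), ← sum_filter, sum_const, nsmul_eq_mul, mul_one]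
    have hp0 : (0 : ℝ) < (p : ℝ) ^ Fintype.card κ := by
      have : (0 : ℝ) < p := by exact_mod_cast hp.pos
      positivity
    rw [div_le_iff₀ hp0]
    exact hR p hs
  · intro n hn p hp hs
    rw [mem_filter] at hn
    exact hEx _ hn.2 p hp hs

open NumberField IsDedekindDomain Q282.NF in
open Pool.Agent.H921R2.TatePole (below deg nm nm_eq) in
open Classical in
/-- the sieve over a number field -/
theorem sieve_Ke (K : Type) [Field K] [NumberField K] (ι : Type) [Fintype ι] [DecidableEq ι] (s : ℕ) (σ : ℝ) (hσ : 1 < σ)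
    (A : ℝ) (hA : 0 ≤ A) : ∃ V₀ : ℝ, ∀ V : ℝ, V₀ ≤ V → ∀ R : HeightOneSpectrum (𝓞 K) → (ι → 𝓞 K) → Prop,
    (∀ v : HeightOneSpectrum (𝓞 K), s ≤ (below v : ℕ) → ∃ (F : Type) (_ : Field F) (_ : Fintype F) (π : 𝓞 K →+* F)
      (R' : (ι → F) → Prop), Function.Surjective π ∧ CharP F (below v : ℕ) ∧ (∀ t, R v t ↔ R' (fun i => π (t i))) ∧
      (((univ : Finset (ι → F)).filter R').card : ℝ) ≤ 1 / σ * (Fintype.card F : ℝ) ^ Fintype.card ι) →
    ∀ (b : Fin (Module.finrank ℚ K) → 𝓞 K), (∀ x : 𝓞 K, ∃ a : Fin (Module.finrank ℚ K) → ℤ, x = ∑ j, (a j : 𝓞 K) * b j) →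
    ∀ (N : ι × Fin (Module.finrank ℚ K) → ℤ) (L : ι × Fin (Module.finrank ℚ K) → ℕ) (T : ℝ), Real.exp (V ^ 3 * Real.exp V) ≤ T →
    (∀ k, T ≤ L k) → ∀ E : Finset (ι × Fin (Module.finrank ℚ K) → ℤ), E ⊆ kbox N L →
    (∀ n ∈ E, ∀ v : HeightOneSpectrum (𝓞 K), s ≤ (below v : ℕ) → R v (comb b n)) →
    (E.card : ℝ) ≤ Real.exp (-(A * V)) * (∏ k, (L k : ℝ)) := by
  obtain ⟨D, hD⟩ : ∃ D : ℕ, D = Module.finrank ℚ K := ⟨_, rfl⟩
  rw [← hD]
  obtain ⟨V₀, h⟩ := sieve_ge (ι × Fin D) s σ hσ A hA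
  refine ⟨V₀, ?_⟩
  intro V hV R hR b hb N L T hT hL E hE hER
  have hex : ∀ p : ℕ, ∃ v : HeightOneSpectrum (𝓞 K), p.Prime → (below v : ℕ) = p := by
    intro p
    by_cases hp : p.Prime
    · obtain ⟨v, hv⟩ := exists_above K ⟨p, hp⟩
      exact ⟨v, fun _ => by rw [hv]⟩
    · obtain ⟨v, -⟩ := exists_above K ⟨2, Nat.prime_two⟩
      exact ⟨v, fun h => absurd h hp⟩
  choose vv hvv using hex
  refine h V hV (fun p u => R (vv p) (comb b (fun k => (((u k).val : ℕ) : ℤ)))) ?_ N L T hT hL E hE ?_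
  · intro p hpF hs
    obtain ⟨F, _, _, π, R', hπ, hch, hRR, hcard⟩ := hR (vv p) (by rw [hvv p hpF.out]; exact hs)
    have hchp : CharP F p := by
      rw [hvv p hpF.out] at hch
      exact hch
    have h1 := sum_res p π hπ b hb (fun u => if R' u then (1 : ℝ) else 0)
    have h2 : ∑ u : ι × Fin D → ZMod p, (if R' (fun i => π (comb b (fun k => (((u k).val : ℕ) : ℤ)) i)) then (1 : ℝ) else 0) =
        (((univ : Finset (ι × Fin D → ZMod p)).filter fun u => R (vv p) (comb b (fun k => (((u k).val : ℕ) : ℤ)))).card : ℝ) := by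
      rw [← sum_filter, sum_const, nsmul_eq_mul, mul_one]
      congr 2
      exact filter_congr fun u _ => (hRR _).symm
    have hp0 : (0 : ℝ) < (p : ℝ) ^ Fintype.card (ι × Fin D) := by
      have : (0 : ℝ) < p := by exact_mod_cast hpF.out.pos
      positivity
    have hF0 : (0 : ℝ) < (Fintype.card F : ℝ) ^ Fintype.card ι := by
      have : (0 : ℝ) < Fintype.card F := by exact_mod_cast Fintype.card_pos
      positivity
    rw [h2, ← sum_filter, sum_const, nsmul_eq_mul, mul_one] at h1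
    have h3 : (((univ : Finset (ι → F)).filter R').card : ℝ) / (Fintype.card F : ℝ) ^ Fintype.card ι ≤ 1 / σ := by
      rw [div_le_iff₀ hF0]
      exact hcard
    have h4 := h1.le.trans h3
    rw [div_le_iff₀ hp0] at h4
    exact h4
  · intro n hn p hp hs
    have hpF : Fact p.Prime := ⟨hp⟩
    have hsv : s ≤ (below (vv p) : ℕ) := by rw [hvv p hp]; exact hs
    have h1 := hER n hn (vv p) hsv
    obtain ⟨F, _, _, π, R', hπ, hch, hRR, -⟩ := hR (vv p) hsv
    have hchp : CharP F p := by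
      rw [hvv p hp] at hch
      exact hch
    rw [hRR] at h1 ⊢
    have h2 : (fun i => π (comb b (fun k => ((((fun k => (n k : ZMod p)) k).val : ℕ) : ℤ)) i)) = fun i => π (comb b n i) := by
      funext i
      exact (comb_res p π b n i).symm
    rw [h2]
    exact h1

end Q69.LJ
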